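import Pool.Agent.DD.Bound

/-!
Transport of the dual functional to the variables `Fin (3 * m)`, and the final inequality.
-/

namespace Pool.Agent.DD

open Finset

theorem Dep.map {V W α : Type} [DecidableEq V] (σ : V ≃ W) {h : (W → Bool) → α} {S : Finset W}
    (hh : Dep h S) : Dep (fun y : V → Bool => h (fun w => y (σ.symm w))) (S.map σ.symm.toEmbedding) := by
  intro x y hxy
  apply hh
  intro w hw
  apply hxy
  rw [mem_map]
  exact ⟨w, hw, rfl⟩

/-- The dual functional on the variables `Fin (3 * m)`. -/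
theorem exists_dual_fin : ∃ (c : ℝ) (Δ : ℕ), 0 < c ∧ ∀ m : ℕ, 0 < m →
    ∃ (φ : List (Fin 3 → Fin (3 * m))) (Λ : ((Fin (3 * m) → Bool) → ℝ) →ₗ[ℝ] ℝ),
      φ.length ≤ 320 * m ∧ (∀ K ∈ φ, Function.Injective K) ∧
      (∀ v, (φ.countP fun K => decide (∃ t, K t = v)) ≤ Δ) ∧
      Λ (fun x => if ∀ K ∈ φ, ∃ t, x (K t) = true then 1 else 0) = 1 ∧
      RectBound Λ (Real.exp (-(c * m))) := by
  classical
  obtain ⟨c, Δ, hc, h⟩ := exists_dual
  refine ⟨c, Δ, hc, fun m hm => ?_⟩
  obtain ⟨L, Λ, hL, hdeg, hphi, hR⟩ := h m hm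
  let σ : Fin 3 × Fin m ≃ Fin (3 * m) := finProdFinEquiv
  let pull : (Vert m → Bool) → (Fin (3 * m) → Bool) := fun y w => y (σ.symm w)
  refine ⟨L.map fun e t => σ (t, e t), Λ.comp (LinearMap.funLeft ℝ ℝ pull), by simpa using hL,
    ?_, ?_, ?_, ?_⟩
  · intro K hK
    obtain ⟨e, _, rfl⟩ := List.mem_map.mp hK
    intro t t' h
    have := σ.injective h
    simp only [Prod.mk.injEq] at this
    exact this.1
  · intro v
    rw [List.countP_map]
    refine le_trans (List.countP_mono_left fun e _ he => ?_) (hdeg (σ.symm v))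
    simp only [Function.comp_apply, decide_eq_true_eq] at he ⊢
    obtain ⟨t, ht⟩ := he
    rw [← ht, Equiv.symm_apply_apply]
  · rw [LinearMap.comp_apply]
    have : (LinearMap.funLeft ℝ ℝ pull) (fun x => if ∀ K ∈ L.map (fun e t => σ (t, e t)),
        ∃ t, x (K t) = true then 1 else 0) = phi L := by
      funext y
      rw [LinearMap.funLeft_apply]
      unfold phi
      have e : (∀ K ∈ L.map (fun e t => σ (t, e t)), ∃ t, pull y (K t) = true) ↔
          ∀ e ∈ L, ∃ t, y (t, e t) = true := by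
        simp only [List.mem_map, forall_exists_index, and_imp, forall_apply_eq_imp_iff₂, pull,
          Equiv.symm_apply_apply]
      simp only [e]
    rw [this]
    exact hphi
  · intro A B a b hAB hA hB ha hb ha1 hb1
    rw [LinearMap.comp_apply]
    have e : (LinearMap.funLeft ℝ ℝ pull) (a * b) =
        (fun y => a (pull y)) * (fun y => b (pull y)) := rfl
    rw [e]
    rw [Fintype.card_fin] at hA hB
    refine hR (A.map σ.symm.toEmbedding) (B.map σ.symm.toEmbedding) _ _ ?_ ?_ ?_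
      (ha.map σ) (hb.map σ) (fun y => ha1 _) (fun y => hb1 _)
    · rw [Finset.disjoint_map]
      exact hAB
    · rw [card_map]
      omega
    · rw [card_map]
      omega

/-- The final inequality. -/
theorem main_bound : ∃ (c : ℝ) (Δ : ℕ), 0 < c ∧ ∀ m : ℕ, 0 < m →
    ∃ φ : List (Fin 3 → Fin (3 * m)), φ.length ≤ 320 * m ∧ (∀ K ∈ φ, Function.Injective K) ∧
      (∀ v, (φ.countP fun K => decide (∃ t, K t = v)) ≤ Δ) ∧
      ∀ (r : ℕ) (a : Fin r → ℝ) (G : Fin r → Circuit (Fin (3 * m))), (∀ j, (G j).IsDD) →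
        (∀ x : Fin (3 * m) → Bool, (if ∀ K ∈ φ, ∃ t, x (K t) = true then (1 : ℝ) else 0) =
          ∑ j, a j * (if (G j).eval x = true then 1 else 0)) →
        (2 : ℝ) ^ (c * (3 * m : ℕ)) ≤ 4 * ∑ j, |a j| * (G j).size *
          (min ((G j).chains (G j).top) ((G j).size ^ (G j).altDepth (G j).top true) : ℕ) := by
  obtain ⟨c, Δ, hc, h⟩ := exists_dual_fin
  refine ⟨c / 3, Δ, by positivity, fun m hm => ?_⟩
  obtain ⟨φ, Λ, h1, h2, h3, h4, h5⟩ := h m hm
  refine ⟨φ, h1, h2, h3, fun r a G hG heq => ?_⟩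
  have e1 : (fun x => if ∀ K ∈ φ, ∃ t, x (K t) = true then (1 : ℝ) else 0) =
      ∑ j, a j • (G j).rv (G j).top := by
    funext x
    rw [heq x, Finset.sum_apply]
    rfl
  have hV : 2 ≤ Fintype.card (Fin (3 * m)) := by
    rw [Fintype.card_fin]
    omega
  have e2 : (1 : ℝ) ≤
      ∑ j, |a j| * (4 * Real.exp (-(c * m)) * (G j).size *
        (min ((G j).chains (G j).top) ((G j).size ^ (G j).altDepth (G j).top true) : ℕ)) := by
    calc (1 : ℝ) = |Λ (fun x => if ∀ K ∈ φ, ∃ t, x (K t) = true then (1 : ℝ) else 0)| := by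
          rw [h4, abs_one]
      _ = |∑ j, a j * Λ ((G j).rv (G j).top)| := by
          rw [e1, map_sum]
          simp only [map_smul, smul_eq_mul]
      _ ≤ ∑ j, |a j * Λ ((G j).rv (G j).top)| := Finset.abs_sum_le_sum_abs _ _
      _ ≤ ∑ j, |a j| * (4 * Real.exp (-(c * m)) * (G j).size *
          (min ((G j).chains (G j).top) ((G j).size ^ (G j).altDepth (G j).top true) : ℕ)) := by
          refine Finset.sum_le_sum fun j _ => ?_
          rw [abs_mul]
          exact mul_le_mul_of_nonneg_left (Circuit.bound_top (hG j) hV h5) (abs_nonneg _)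
  have e3 : ∑ j, |a j| * (4 * Real.exp (-(c * m)) * (G j).size *
      (min ((G j).chains (G j).top) ((G j).size ^ (G j).altDepth (G j).top true) : ℕ)) =
      Real.exp (-(c * m)) * (4 * ∑ j, |a j| * (G j).size *
        (min ((G j).chains (G j).top) ((G j).size ^ (G j).altDepth (G j).top true) : ℕ)) := by
    rw [Finset.mul_sum, Finset.mul_sum]
    refine Finset.sum_congr rfl fun j _ => ?_
    ring
  rw [e3, Real.exp_neg] at e2
  have e4 : Real.exp (c * m) ≤ 4 * ∑ j, |a j| * (G j).size *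
      (min ((G j).chains (G j).top) ((G j).size ^ (G j).altDepth (G j).top true) : ℕ) := by
    have hpos := Real.exp_pos (c * m)
    have := mul_le_mul_of_nonneg_left e2 hpos.le
    rw [mul_one, ← mul_assoc, mul_inv_cancel₀ hpos.ne', one_mul] at this
    exact this
  refine le_trans ?_ e4
  have e5 : c / 3 * ((3 * m : ℕ) : ℝ) = c * m := by
    push_cast
    ring
  rw [e5, Real.rpow_def_of_pos (by norm_num)]
  refine Real.exp_le_exp.mpr ?_
  have h6 : Real.log 2 ≤ 1 := by
    have := Real.log_two_lt_d9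
    linarith
  have h7 : 0 ≤ c * m := by positivity
  nlinarith

end Pool.Agent.DD
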