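import Pool.Agent.DD.ACircuit
import Pool.Agent.DD.Main

/-!
The size-cancellation tradeoff for multilinear arithmetic circuits.
-/

namespace Pool.Agent.DD

open Finset

set_option linter.unusedSectionVars false

variable {V : Type} [Fintype V] [DecidableEq V]

section Scale

variable {Λ : ((V → Bool) → ℝ) →ₗ[ℝ] ℝ} {δ : ℝ}

theorem RectBound.scale (h : RectBound Λ δ) {A B : Finset V} {a b : (V → Bool) → ℝ} {α β : ℝ}
    (hAB : Disjoint A B) (hA : 3 * A.card ≤ 2 * Fintype.card V)
    (hB : 3 * B.card ≤ 2 * Fintype.card V) (ha : Dep a A) (hb : Dep b B)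
    (ha1 : ∀ x, |a x| ≤ α) (hb1 : ∀ x, |b x| ≤ β) : |Λ (a * b)| ≤ δ * α * β := by
  have hδ := h.nonneg
  have hα : 0 ≤ α := (abs_nonneg _).trans (ha1 (fun _ => true))
  have hβ : 0 ≤ β := (abs_nonneg _).trans (hb1 (fun _ => true))
  rcases hα.eq_or_lt with h0 | hα
  · have : a = 0 := by
      funext x
      have := ha1 x
      rw [← h0] at this
      exact abs_nonpos_iff.mp this
    rw [this, zero_mul, map_zero, abs_zero]
    positivity
  rcases hβ.eq_or_lt with h0 | hβ
  · have : b = 0 := by
      funext x
      have := hb1 x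
      rw [← h0] at this
      exact abs_nonpos_iff.mp this
    rw [this, mul_zero, map_zero, abs_zero]
    positivity
  have e : a * b = (α * β) • ((α⁻¹ • a) * (β⁻¹ • b)) := by
    funext x
    simp only [Pi.mul_apply, Pi.smul_apply, smul_eq_mul]
    field_simp
  rw [e, map_smul, smul_eq_mul, abs_mul, abs_of_pos (by positivity)]
  have h1 := h A B (α⁻¹ • a) (β⁻¹ • b) hAB hA hB (fun x y hxy => by
      simp only [Pi.smul_apply, ha x y hxy]) (fun x y hxy => by
      simp only [Pi.smul_apply, hb x y hxy]) (fun x => by
      simp only [Pi.smul_apply, smul_eq_mul, abs_mul, abs_inv, abs_of_pos hα]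
      rw [inv_mul_le_iff₀ hα, mul_one]
      exact ha1 x) (fun x => by
      simp only [Pi.smul_apply, smul_eq_mul, abs_mul, abs_inv, abs_of_pos hβ]
      rw [inv_mul_le_iff₀ hβ, mul_one]
      exact hb1 x)
  calc α * β * |Λ (α⁻¹ • a * β⁻¹ • b)| ≤ α * β * δ :=
        mul_le_mul_of_nonneg_left h1 (by positivity)
    _ = δ * α * β := by ring

theorem RectBound.scale3 (h : RectBound Λ δ) {A B C : Finset V} {a b c : (V → Bool) → ℝ}
    {α β γ : ℝ} (hAB : Disjoint A B) (hAC : Disjoint A C) (hBC : Disjoint B C)
    (hA : 3 * A.card ≤ 2 * Fintype.card V) (hB : 3 * B.card ≤ 2 * Fintype.card V)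
    (hC : 3 * C.card ≤ 2 * Fintype.card V) (ha : Dep a A) (hb : Dep b B) (hc : Dep c C)
    (ha1 : ∀ x, |a x| ≤ α) (hb1 : ∀ x, |b x| ≤ β) (hc1 : ∀ x, |c x| ≤ γ) :
    |Λ (a * b * c)| ≤ δ * α * β * γ := by
  have hsum : A.card + B.card + C.card ≤ Fintype.card V := by
    have h1 : (A ∪ B ∪ C).card = A.card + B.card + C.card := by
      rw [card_union_of_disjoint, card_union_of_disjoint hAB]
      rw [disjoint_union_left]
      exact ⟨hAC, hBC⟩
    rw [← h1]
    exact card_le_univ _
  have habs : ∀ {u v : (V → Bool) → ℝ} {p q : ℝ}, (∀ x, |u x| ≤ p) → (∀ x, |v x| ≤ q) →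
      ∀ x, |(u * v) x| ≤ p * q := by
    intro u v p q hu hv x
    rw [Pi.mul_apply, abs_mul]
    exact mul_le_mul (hu x) (hv x) (abs_nonneg _) ((abs_nonneg _).trans (hu x))
  by_cases h1 : 3 * (A ∪ B).card ≤ 2 * Fintype.card V
  · have := h.scale (a := a * b) (b := c) (by rw [disjoint_union_left]; exact ⟨hAC, hBC⟩) h1 hC
      (ha.mul hb) hc (habs ha1 hb1) hc1
    linarith
  · by_cases h2 : 3 * (A ∪ C).card ≤ 2 * Fintype.card V
    · have e : a * b * c = (a * c) * b := by ring
      rw [e]
      have := h.scale (a := a * c) (b := b) (by rw [disjoint_union_left]; exact ⟨hAB, hBC.symm⟩)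
        h2 hB (ha.mul hc) hb (habs ha1 hc1) hb1
      linarith
    · have e : a * b * c = (b * c) * a := by ring
      rw [e]
      rw [card_union_of_disjoint hAB] at h1
      rw [card_union_of_disjoint hAC] at h2
      have := h.scale (a := b * c) (b := a)
        (by rw [disjoint_union_left]; exact ⟨hAB.symm, hAC.symm⟩) (by
          rw [card_union_of_disjoint hBC]
          omega) hA (hb.mul hc) ha (habs hb1 hc1) ha1
      linarith

end Scale

namespace ACircuit

/-- Value as a function. -/
noncomputable def fv (C : ACircuit V) (i : ℕ) (x : V → Bool) : ℝ := C.val x i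

/-- Absolute value as a function. -/
noncomputable def fa (C : ACircuit V) (i : ℕ) (x : V → Bool) : ℝ := C.aval x i

/-- Gates with more than two thirds of the variables. -/
def Heavy (C : ACircuit V) (i : ℕ) : Prop := 2 * Fintype.card V < 3 * (C.vars i).card

section Values

variable {C : ACircuit V} {i : ℕ}

theorem fv_leaf {S : Finset V} {f : (V → Bool) → ℝ} (h : C.gate i = .leaf S f) :
    C.fv i = f := by
  funext x
  unfold fv
  rw [val, h]

theorem fa_leaf {S : Finset V} {f : (V → Bool) → ℝ} (h : C.gate i = .leaf S f) :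
    C.fa i = fun x => |f x| := by
  funext x
  unfold fa
  rw [aval, h]

theorem fv_affine {E : List (Finset V × Bool)} (h : C.gate i = .affine E) : C.fv i = aff E := by
  funext x
  unfold fv
  rw [val, h]
  rfl

theorem fa_affine {E : List (Finset V × Bool)} (h : C.gate i = .affine E) : C.fa i = aff E := by
  funext x
  unfold fa
  rw [aval, h]
  rfl

theorem fv_add {j k : Fin i} (h : C.gate i = .add j k) : C.fv i = C.fv j + C.fv k := by
  funext x
  simp only [fv, Pi.add_apply]
  rw [val, h]

theorem fa_add {j k : Fin i} (h : C.gate i = .add j k) : C.fa i = C.fa j + C.fa k := by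
  funext x
  simp only [fa, Pi.add_apply]
  rw [aval, h]

theorem fv_mul {j k : Fin i} (h : C.gate i = .mul j k) : C.fv i = C.fv j * C.fv k := by
  funext x
  simp only [fv, Pi.mul_apply]
  rw [val, h]

theorem fa_mul {j k : Fin i} (h : C.gate i = .mul j k) : C.fa i = C.fa j * C.fa k := by
  funext x
  simp only [fa, Pi.mul_apply]
  rw [aval, h]

theorem vars_leaf {S : Finset V} {f : (V → Bool) → ℝ} (h : C.gate i = .leaf S f) :
    C.vars i = S := by
  rw [vars, h]

theorem vars_affine {E : List (Finset V × Bool)} (h : C.gate i = .affine E) :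
    C.vars i = E.foldr (fun t S => t.1 ∪ S) ∅ := by
  rw [vars, h]

theorem vars_add {j k : Fin i} (h : C.gate i = .add j k) : C.vars i = C.vars j ∪ C.vars k := by
  rw [vars, h]

theorem vars_mul {j k : Fin i} (h : C.gate i = .mul j k) : C.vars i = C.vars j ∪ C.vars k := by
  rw [vars, h]

end Values

theorem aff_nonneg (E : List (Finset V × Bool)) (x : V → Bool) : 0 ≤ aff E x := by
  unfold aff bv
  split_ifs <;> norm_num

theorem dep_both {C : ACircuit V} (hC : C.IsML) :
    ∀ i ≤ C.top, Dep (C.fv i) (C.vars i) ∧ Dep (C.fa i) (C.vars i) := by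
  intro i
  induction i using Nat.strong_induction_on with
  | _ i ih =>
    intro hi
    rcases hg : C.gate i with ⟨S, f⟩ | E | ⟨j, k⟩ | ⟨j, k⟩
    · rw [fv_leaf hg, fa_leaf hg, vars_leaf hg]
      refine ⟨fun x y hxy => (hC.leaf i hi S f hg).1 x y hxy, fun x y hxy => ?_⟩
      simp only [(hC.leaf i hi S f hg).1 x y hxy]
    · rw [fv_affine hg, fa_affine hg, vars_affine hg]
      exact ⟨Circuit.aff_dep E, Circuit.aff_dep E⟩
    · have h1 := ih j j.isLt (by have := j.isLt; omega)
      have h2 := ih k k.isLt (by have := k.isLt; omega)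
      rw [fv_add hg, fa_add hg, vars_add hg]
      exact ⟨(h1.1.mono subset_union_left).add (h2.1.mono subset_union_right),
        (h1.2.mono subset_union_left).add (h2.2.mono subset_union_right)⟩
    · have h1 := ih j j.isLt (by have := j.isLt; omega)
      have h2 := ih k k.isLt (by have := k.isLt; omega)
      rw [fv_mul hg, fa_mul hg, vars_mul hg]
      exact ⟨h1.1.mul h2.1, h1.2.mul h2.2⟩

theorem abs_le_fa (C : ACircuit V) (x : V → Bool) : ∀ i, |C.fv i x| ≤ C.fa i x := by
  intro i
  induction i using Nat.strong_induction_on with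
  | _ i ih =>
    rcases hg : C.gate i with ⟨S, f⟩ | E | ⟨j, k⟩ | ⟨j, k⟩
    · rw [fv_leaf hg, fa_leaf hg]
    · rw [fv_affine hg, fa_affine hg, abs_of_nonneg (aff_nonneg E x)]
    · have h1 := ih j j.isLt
      have h2 := ih k k.isLt
      rw [fv_add hg, fa_add hg]
      simp only [Pi.add_apply]
      exact (abs_add_le _ _).trans (by linarith)
    · have h1 := ih j j.isLt
      have h2 := ih k k.isLt
      rw [fv_mul hg, fa_mul hg]
      simp only [Pi.mul_apply]
      rw [abs_mul]
      exact mul_le_mul h1 h2 (abs_nonneg _) ((abs_nonneg _).trans h1)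

theorem fa_nonneg (C : ACircuit V) (i : ℕ) (x : V → Bool) : 0 ≤ C.fa i x :=
  (abs_nonneg _).trans (C.abs_le_fa x i)

theorem disj_compl {C : ACircuit V} {i : ℕ} {A : Finset V} (h : A ⊆ C.vars i) :
    Disjoint (C.vars i)ᶜ A := by
  rw [Finset.disjoint_left]
  intro v hv hv'
  exact (mem_compl.mp hv) (h hv')

theorem heavy_compl {C : ACircuit V} {i : ℕ} (h : C.Heavy i) :
    3 * (C.vars i)ᶜ.card ≤ 2 * Fintype.card V := by
  unfold Heavy at h
  rw [card_compl]
  omega

/-- The statement of one step. -/
def Step (C : ACircuit V) (Λ : ((V → Bool) → ℝ) →ₗ[ℝ] ℝ) (δ : ℝ) (i : ℕ)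
    (E B : (V → Bool) → ℝ) (G A : ℕ → (V → Bool) → ℝ) : Prop :=
  (∀ x, |E x| ≤ B x) ∧ Dep B (C.vars i) ∧ (∀ j x, |G j x| ≤ A j x) ∧
  (∀ j, Dep (G j) (C.vars j)ᶜ) ∧ (∀ j, Dep (A j) (C.vars j)ᶜ) ∧
  (∀ j, A j ≠ 0 → j < i ∧ C.Heavy j ∧ C.vars j ⊆ C.vars i) ∧
  (∀ x, C.fv i x = E x + ∑ j ∈ range (C.top + 1), G j x * C.fv j x) ∧
  (∀ x, C.fa i x = B x + ∑ j ∈ range (C.top + 1), A j x * C.fa j x) ∧
  (∀ D : (V → Bool) → ℝ, Dep D (C.vars i)ᶜ → (∀ x, |D x| ≤ 1) → ∀ b : ℝ, (∀ x, B x ≤ b) →
    |Λ (D * E)| ≤ 2 * δ * b)

theorem sum_single {C : ACircuit V} {j : ℕ} (hj : j ≤ C.top) (g h : (V → Bool) → ℝ)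
    (F : ℕ → (V → Bool) → ℝ) (hF : F j = h) (x : V → Bool) :
    ∑ l ∈ range (C.top + 1), (if l = j then g else 0) x * F l x = g x * h x := by
  rw [Finset.sum_eq_single j]
  · simp [hF]
  · intro b _ hb
    simp [hb]
  · intro h
    exact absurd (mem_range.mpr (by omega)) h

theorem step {C : ACircuit V} (hC : C.IsML) (hV : 2 ≤ Fintype.card V)
    {Λ : ((V → Bool) → ℝ) →ₗ[ℝ] ℝ} {δ : ℝ} (hR : RectBound Λ δ) {i : ℕ} (hi : i ≤ C.top)
    (hh : C.Heavy i) : ∃ E B G A, Step C Λ δ i E B G A := by
  have hδ := hR.nonneg
  have hO := heavy_compl hh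
  rcases hg : C.gate i with ⟨S, f⟩ | E | ⟨j, k⟩ | ⟨j, k⟩
  · exfalso
    unfold Heavy at hh
    rw [vars_leaf hg] at hh
    have := (hC.leaf i hi S f hg).2
    omega
  · refine ⟨aff E, aff E, 0, 0, fun x => ?_, ?_, fun j x => by simp, fun j => Dep.zero _,
      fun j => Dep.zero _, fun j hj => absurd rfl hj, fun x => ?_, fun x => ?_, ?_⟩
    · rw [abs_of_nonneg (aff_nonneg E x)]
    · rw [vars_affine hg]; exact Circuit.aff_dep E
    · rw [fv_affine hg]; simp
    · rw [fa_affine hg]; simp
    · intro D hD hD1 b hb
      by_cases h1 : ∃ x, aff E x = 1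
      · obtain ⟨x, hx⟩ := h1
        have h2 := hb x
        rw [hx] at h2
        have := hR.affine' hV hO E D hD hD1
        nlinarith
      · have h2 : aff E = 0 := by
          funext x
          by_contra h3
          apply h1
          refine ⟨x, ?_⟩
          unfold aff bv at h3 ⊢
          split_ifs at h3 ⊢
          · rfl
          · simp at h3
        have h3 : 0 ≤ b := (aff_nonneg E (fun _ => true)).trans (hb _)
        rw [h2, mul_zero, map_zero, abs_zero]
        positivity
  · have hji := j.isLt
    have hki := k.isLt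
    have hvj : C.vars j ⊆ C.vars i := by rw [vars_add hg]; exact subset_union_left
    have hvk : C.vars k ⊆ C.vars i := by rw [vars_add hg]; exact subset_union_right
    have dj := dep_both hC j (by omega)
    have dk := dep_both hC k (by omega)
    classical
    refine ⟨(if C.Heavy j then 0 else C.fv j) + (if C.Heavy k then 0 else C.fv k),
      (if C.Heavy j then 0 else C.fa j) + (if C.Heavy k then 0 else C.fa k),
      fun l => (if l = j then (if C.Heavy j then 1 else 0) else 0) +
        (if l = k then (if C.Heavy k then 1 else 0) else 0),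
      fun l => (if l = j then (if C.Heavy j then 1 else 0) else 0) +
        (if l = k then (if C.Heavy k then 1 else 0) else 0), ?_, ?_, ?_, ?_, ?_, ?_, ?_, ?_, ?_⟩
    · intro x
      simp only [Pi.add_apply]
      refine (abs_add_le _ _).trans (add_le_add ?_ ?_)
      · split_ifs
        · simp
        · exact C.abs_le_fa x j
      · split_ifs
        · simp
        · exact C.abs_le_fa x k
    · refine Dep.add ?_ ?_
      · split_ifs
        · exact Dep.zero _
        · exact dj.2.mono hvj
      · split_ifs
        · exact Dep.zero _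
        · exact dk.2.mono hvk
    · intro l x
      refine (abs_of_nonneg ?_).le
      simp only [Pi.add_apply]
      split_ifs <;> simp
    · intro l
      refine Dep.add ?_ ?_ <;> split_ifs <;> first | exact Dep.one _ | exact Dep.zero _
    · intro l
      refine Dep.add ?_ ?_ <;> split_ifs <;> first | exact Dep.one _ | exact Dep.zero _
    · intro l hl
      by_cases h1 : l = j ∧ C.Heavy j
      · obtain ⟨rfl, h1⟩ := h1
        exact ⟨hji, h1, hvj⟩
      · by_cases h2 : l = k ∧ C.Heavy k
        · obtain ⟨rfl, h2⟩ := h2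
          exact ⟨hki, h2, hvk⟩
        · exfalso
          apply hl
          have e1 : (if l = j then (if C.Heavy j then (1 : (V → Bool) → ℝ) else 0) else 0) = 0 := by
            split_ifs with a b
            · exact absurd ⟨a, b⟩ h1
            · rfl
            · rfl
          have e2 : (if l = k then (if C.Heavy k then (1 : (V → Bool) → ℝ) else 0) else 0) = 0 := by
            split_ifs with a b
            · exact absurd ⟨a, b⟩ h2
            · rfl
            · rfl
          simp only [e1, e2, add_zero]
    · intro x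
      simp only [Pi.add_apply, add_mul, Finset.sum_add_distrib]
      rw [sum_single (by omega) _ _ C.fv rfl, sum_single (by omega) _ _ C.fv rfl, fv_add hg]
      simp only [Pi.add_apply]
      split_ifs <;> (simp; try ring)
    · intro x
      simp only [Pi.add_apply, add_mul, Finset.sum_add_distrib]
      rw [sum_single (by omega) _ _ C.fa rfl, sum_single (by omega) _ _ C.fa rfl, fa_add hg]
      simp only [Pi.add_apply]
      split_ifs <;> (simp; try ring)
    · intro D hD hD1 b hb
      have hb0 : 0 ≤ b := by
        refine le_trans ?_ (hb (fun _ => true))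
        simp only [Pi.add_apply]
        refine add_nonneg ?_ ?_ <;> split_ifs <;>
          first | exact le_rfl | exact C.fa_nonneg _ _
      rw [mul_add, map_add]
      have b1 : |Λ (D * (if C.Heavy j then 0 else C.fv j))| ≤ δ * b := by
        split_ifs with h
        · rw [mul_zero, map_zero, abs_zero]; positivity
        · have := hR.scale (disj_compl hvj) hO (not_lt.mp h) hD dj.1 hD1 (β := b) (fun x => by
            refine (C.abs_le_fa x j).trans (le_trans ?_ (hb x))
            simp only [Pi.add_apply, if_neg h]
            have h3 : 0 ≤ (if C.Heavy k then (0 : (V → Bool) → ℝ) else C.fa k) x := by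
              split_ifs
              · exact le_rfl
              · exact C.fa_nonneg _ _
            linarith)
          linarith
      have b2 : |Λ (D * (if C.Heavy k then 0 else C.fv k))| ≤ δ * b := by
        split_ifs with h
        · rw [mul_zero, map_zero, abs_zero]; positivity
        · have := hR.scale (disj_compl hvk) hO (not_lt.mp h) hD dk.1 hD1 (β := b) (fun x => by
            refine (C.abs_le_fa x k).trans (le_trans ?_ (hb x))
            simp only [Pi.add_apply, if_neg h]
            have h3 : 0 ≤ (if C.Heavy j then (0 : (V → Bool) → ℝ) else C.fa j) x := by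
              split_ifs
              · exact le_rfl
              · exact C.fa_nonneg _ _
            linarith)
          linarith
      have := abs_add_le (Λ (D * (if C.Heavy j then 0 else C.fv j)))
        (Λ (D * (if C.Heavy k then 0 else C.fv k)))
      linarith
  · have hd := hC.mul i hi j k hg
    have hji := j.isLt
    have hki := k.isLt
    have hvj : C.vars j ⊆ C.vars i := by rw [vars_mul hg]; exact subset_union_left
    have hvk : C.vars k ⊆ C.vars i := by rw [vars_mul hg]; exact subset_union_right
    have dj := dep_both hC j (by omega)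
    have dk := dep_both hC k (by omega)
    have hjk : C.vars k ⊆ (C.vars j)ᶜ := by
      intro v hv
      rw [mem_compl]
      exact fun h => (Finset.disjoint_left.mp hd) h hv
    have hkj : C.vars j ⊆ (C.vars k)ᶜ := by
      intro v hv
      rw [mem_compl]
      exact fun h => (Finset.disjoint_left.mp hd) hv h
    have hzero : ∀ D : (V → Bool) → ℝ, Dep D (C.vars i)ᶜ → (∀ x, |D x| ≤ 1) → ∀ b : ℝ,
        (∀ x, (0 : (V → Bool) → ℝ) x ≤ b) → |Λ (D * 0)| ≤ 2 * δ * b := by
      intro D _ _ b hb
      have hb0 : 0 ≤ b := hb (fun _ => true)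
      rw [mul_zero, map_zero, abs_zero]
      positivity
    by_cases hj : C.Heavy j
    · refine ⟨0, 0, fun l => if l = j then C.fv k else 0, fun l => if l = j then C.fa k else 0,
        fun x => by simp, Dep.zero _, ?_, ?_, ?_, ?_, ?_, ?_, hzero⟩
      · intro l x
        beta_reduce
        split_ifs
        · exact C.abs_le_fa x k
        · simp
      · intro l
        beta_reduce
        split_ifs with h
        · subst h; exact dk.1.mono hjk
        · exact Dep.zero _
      · intro l
        beta_reduce
        split_ifs with h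
        · subst h; exact dk.2.mono hjk
        · exact Dep.zero _
      · intro l hl
        by_cases h : l = j
        · subst h; exact ⟨hji, hj, hvj⟩
        · simp [h] at hl
      · intro x
        rw [sum_single (by omega) _ _ C.fv rfl, fv_mul hg]
        simp only [Pi.mul_apply, Pi.zero_apply]
        ring
      · intro x
        rw [sum_single (by omega) _ _ C.fa rfl, fa_mul hg]
        simp only [Pi.mul_apply, Pi.zero_apply]
        ring
    · by_cases hk : C.Heavy k
      · refine ⟨0, 0, fun l => if l = k then C.fv j else 0, fun l => if l = k then C.fa j else 0,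
          fun x => by simp, Dep.zero _, ?_, ?_, ?_, ?_, ?_, ?_, hzero⟩
        · intro l x
          beta_reduce
          split_ifs
          · exact C.abs_le_fa x j
          · simp
        · intro l
          beta_reduce
          split_ifs with h
          · subst h; exact dj.1.mono hkj
          · exact Dep.zero _
        · intro l
          beta_reduce
          split_ifs with h
          · subst h; exact dj.2.mono hkj
          · exact Dep.zero _
        · intro l hl
          by_cases h : l = k
          · subst h; exact ⟨hki, hk, hvk⟩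
          · simp [h] at hl
        · intro x
          rw [sum_single (by omega) _ _ C.fv rfl, fv_mul hg]
          simp only [Pi.mul_apply, Pi.zero_apply]
          ring
        · intro x
          rw [sum_single (by omega) _ _ C.fa rfl, fa_mul hg]
          simp only [Pi.mul_apply, Pi.zero_apply]
          ring
      · refine ⟨C.fv j * C.fv k, C.fa j * C.fa k, 0, 0, fun x => ?_, ?_, fun j x => by simp,
          fun j => Dep.zero _, fun j => Dep.zero _, fun j hj => absurd rfl hj, fun x => ?_,
          fun x => ?_, ?_⟩
        · simp only [Pi.mul_apply]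
          rw [abs_mul]
          exact mul_le_mul (C.abs_le_fa x j) (C.abs_le_fa x k) (abs_nonneg _) (C.fa_nonneg _ _)
        · rw [vars_mul hg]; exact dj.2.mul dk.2
        · rw [fv_mul hg]; simp
        · rw [fa_mul hg]; simp
        · intro D hD hD1 b hb
          obtain ⟨xj, hxj⟩ := Finite.exists_max (C.fa j)
          obtain ⟨xk, hxk⟩ := Finite.exists_max (C.fa k)
          have h1 : C.fa j xj * C.fa k xk ≤ b := by
            let x' : V → Bool := fun v => if v ∈ C.vars j then xj v else xk v
            have e1 : C.fa j x' = C.fa j xj := dj.2 x' xj fun v hv => by simp [x', hv]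
            have e2 : C.fa k x' = C.fa k xk := dk.2 x' xk fun v hv => by
              have : v ∉ C.vars j := mem_compl.mp (hjk hv)
              simp [x', this]
            have := hb x'
            simp only [Pi.mul_apply] at this
            rwa [e1, e2] at this
          rw [← mul_assoc]
          have := hR.scale3 (disj_compl hvj) (disj_compl hvk) hd hO (not_lt.mp hj) (not_lt.mp hk)
            hD dj.1 dk.1 hD1 (fun x => (C.abs_le_fa x j).trans (hxj x))
            (fun x => (C.abs_le_fa x k).trans (hxk x))
          have h2 : 0 ≤ C.fa j xj * C.fa k xk := mul_nonneg (C.fa_nonneg _ _) (C.fa_nonneg _ _)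
          nlinarith

section Decomp

variable {C : ACircuit V} {Λ : ((V → Bool) → ℝ) →ₗ[ℝ] ℝ} {δ : ℝ}

theorem exists_steps (hC : C.IsML) (hV : 2 ≤ Fintype.card V) (hR : RectBound Λ δ) :
    ∃ (E B : ℕ → (V → Bool) → ℝ) (G A : ℕ → ℕ → (V → Bool) → ℝ),
      ∀ i ≤ C.top, C.Heavy i → Step C Λ δ i (E i) (B i) (G i) (A i) := by
  have h : ∀ i : ℕ, ∃ (E B : (V → Bool) → ℝ) (G A : ℕ → (V → Bool) → ℝ),
      i ≤ C.top → C.Heavy i → Step C Λ δ i E B G A := by
    intro i
    by_cases h1 : i ≤ C.top ∧ C.Heavy i
    · obtain ⟨E, B, G, A, h⟩ := step hC hV hR h1.1 h1.2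
      exact ⟨E, B, G, A, fun _ _ => h⟩
    · exact ⟨0, 0, 0, 0, fun a b => absurd ⟨a, b⟩ h1⟩
  choose E B G A h using h
  exact ⟨E, B, G, A, h⟩

theorem decomp {E B : ℕ → (V → Bool) → ℝ} {G A : ℕ → ℕ → (V → Bool) → ℝ}
    (hS : ∀ i ≤ C.top, C.Heavy i → Step C Λ δ i (E i) (B i) (G i) (A i)) :
    ∀ i ≤ C.top, C.Heavy i →
    ∃ D F : ℕ → (V → Bool) → ℝ, (∀ l x, |D l x| ≤ F l x) ∧ (∀ l, Dep (D l) (C.vars l)ᶜ) ∧
      (∀ l, Dep (F l) (C.vars l)ᶜ) ∧
      (∀ l, F l ≠ 0 → l ≤ i ∧ C.Heavy l ∧ C.vars l ⊆ C.vars i) ∧
      (∀ x, C.fv i x = ∑ l ∈ range (C.top + 1), D l x * E l x) ∧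
      (∀ x, C.fa i x = ∑ l ∈ range (C.top + 1), F l x * B l x) := by
  classical
  intro i
  induction i using Nat.strong_induction_on with
  | _ i ih =>
    intro hi hh
    obtain ⟨s1, s2, s3, s4, s4', s5, s6, s7, s8⟩ := hS i hi hh
    have h : ∀ j : ℕ, ∃ D F : ℕ → (V → Bool) → ℝ, (∀ l x, |D l x| ≤ F l x) ∧
        (∀ l, Dep (D l) (C.vars l)ᶜ) ∧ (∀ l, Dep (F l) (C.vars l)ᶜ) ∧
        (∀ l, F l ≠ 0 → j < i ∧ l ≤ j ∧ C.Heavy l ∧ C.vars l ⊆ C.vars j) ∧
        (j < i → C.Heavy j → (∀ x, C.fv j x = ∑ l ∈ range (C.top + 1), D l x * E l x) ∧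
          ∀ x, C.fa j x = ∑ l ∈ range (C.top + 1), F l x * B l x) := by
      intro j
      by_cases hj : j < i ∧ C.Heavy j
      · obtain ⟨D, F, d1, d2, d2', d3, d4, d5⟩ := ih j hj.1 (by omega) hj.2
        exact ⟨D, F, d1, d2, d2', fun l hl => ⟨hj.1, d3 l hl⟩, fun _ _ => ⟨d4, d5⟩⟩
      · exact ⟨0, 0, fun _ _ => by simp, fun _ => Dep.zero _, fun _ => Dep.zero _,
          fun l hl => absurd rfl hl, fun a b => absurd ⟨a, b⟩ hj⟩
    choose D F d1 d2 d2' d3 d4 using h
    have hG0 : ∀ j, A i j = 0 → G i j = 0 := by
      intro j hj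
      funext x
      have := s3 j x
      rw [hj] at this
      exact abs_nonpos_iff.mp this
    have hD0 : ∀ j l, F j l = 0 → D j l = 0 := by
      intro j l hj
      funext x
      have := d1 j l x
      rw [hj] at this
      exact abs_nonpos_iff.mp this
    refine ⟨fun l => (if l = i then 1 else 0) + ∑ j ∈ range (C.top + 1), G i j * D j l,
      fun l => (if l = i then 1 else 0) + ∑ j ∈ range (C.top + 1), A i j * F j l,
      ?_, ?_, ?_, ?_, ?_, ?_⟩
    · intro l x
      simp only [Pi.add_apply, Finset.sum_apply, Pi.mul_apply]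
      refine (abs_add_le _ _).trans (add_le_add ?_ ?_)
      · split_ifs <;> simp
      · refine (Finset.abs_sum_le_sum_abs _ _).trans (Finset.sum_le_sum fun j _ => ?_)
        rw [abs_mul]
        exact mul_le_mul (s3 j x) (d1 j l x) (abs_nonneg _) ((abs_nonneg _).trans (s3 j x))
    · intro l
      refine Dep.add ?_ ?_
      · split_ifs
        · exact Dep.one _
        · exact Dep.zero _
      · intro x y hxy
        simp only [Finset.sum_apply, Pi.mul_apply]
        refine Finset.sum_congr rfl fun j _ => ?_
        by_cases hG : A i j = 0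
        · rw [hG0 j hG]; simp
        · by_cases hD : F j l = 0
          · rw [hD0 j l hD]; simp
          · have h2 := d3 j l hD
            rw [d2 j l x y hxy, s4 j x y fun v hv => hxy v (by
              rw [mem_compl] at hv ⊢
              exact fun h => hv (h2.2.2.2 h))]
    · intro l
      refine Dep.add ?_ ?_
      · split_ifs
        · exact Dep.one _
        · exact Dep.zero _
      · intro x y hxy
        simp only [Finset.sum_apply, Pi.mul_apply]
        refine Finset.sum_congr rfl fun j _ => ?_
        by_cases hG : A i j = 0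
        · rw [hG]; simp
        · by_cases hD : F j l = 0
          · rw [hD]; simp
          · have h2 := d3 j l hD
            rw [d2' j l x y hxy, s4' j x y fun v hv => hxy v (by
              rw [mem_compl] at hv ⊢
              exact fun h => hv (h2.2.2.2 h))]
    · intro l hl
      by_cases hli : l = i
      · subst hli
        exact ⟨le_rfl, hh, subset_rfl⟩
      · by_contra hcon
        apply hl
        have e1 : ∀ j ∈ range (C.top + 1), A i j * F j l = 0 := by
          intro j _
          by_cases hG : A i j = 0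
          · rw [hG, zero_mul]
          · by_cases hD : F j l = 0
            · rw [hD, mul_zero]
            · exfalso
              apply hcon
              have h1 := s5 j hG
              have h2 := d3 j l hD
              exact ⟨by omega, h2.2.2.1, h2.2.2.2.trans h1.2.2⟩
        simp only [if_neg hli, zero_add]
        exact Finset.sum_eq_zero e1
    · intro x
      rw [s6 x]
      simp only [Pi.add_apply, Finset.sum_apply, Pi.mul_apply, add_mul, Finset.sum_add_distrib]
      congr 1
      · rw [Finset.sum_eq_single i]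
        · simp
        · intro b _ hb
          simp [hb]
        · intro h
          exact absurd (mem_range.mpr (by omega)) h
      · simp only [Finset.sum_mul]
        rw [Finset.sum_comm]
        refine Finset.sum_congr rfl fun j _ => ?_
        by_cases hG : A i j = 0
        · rw [hG0 j hG]; simp
        · have h1 := s5 j hG
          rw [(d4 j h1.1 h1.2.1).1 x, Finset.mul_sum]
          refine Finset.sum_congr rfl fun l _ => ?_
          ring
    · intro x
      rw [s7 x]
      simp only [Pi.add_apply, Finset.sum_apply, Pi.mul_apply, add_mul, Finset.sum_add_distrib]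
      congr 1
      · rw [Finset.sum_eq_single i]
        · simp
        · intro b _ hb
          simp [hb]
        · intro h
          exact absurd (mem_range.mpr (by omega)) h
      · simp only [Finset.sum_mul]
        rw [Finset.sum_comm]
        refine Finset.sum_congr rfl fun j _ => ?_
        by_cases hG : A i j = 0
        · rw [hG]; simp
        · have h1 := s5 j hG
          rw [(d4 j h1.1 h1.2.1).2 x, Finset.mul_sum]
          refine Finset.sum_congr rfl fun l _ => ?_
          ring

/-- The bound for the output of the circuit. -/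
theorem bound_top (hC : C.IsML) (hV : 2 ≤ Fintype.card V) (hR : RectBound Λ δ) {M : ℝ}
    (hM : 0 < M) (hM1 : ∀ x, C.fa C.top x ≤ M) :
    |Λ (C.fv C.top)| ≤ 2 * δ * C.size * M := by
  classical
  have hδ := hR.nonneg
  have e : (C.size : ℝ) = C.top + 1 := by simp [size]
  rw [e]
  have h3 : (1 : ℝ) ≤ C.top + 1 := by
    have : (0 : ℝ) ≤ C.top := Nat.cast_nonneg _
    linarith
  by_cases hh : C.Heavy C.top
  · obtain ⟨E, B, G, A, hS⟩ := exists_steps hC hV hR
    obtain ⟨D, F, d1, d2, d2', d3, d4, d5⟩ := decomp hS C.top le_rfl hh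
    have e1 : C.fv C.top = ∑ l ∈ range (C.top + 1), D l * E l := by
      funext x
      simp only [Pi.mul_apply, Finset.sum_apply]
      exact d4 x
    rw [e1, map_sum]
    refine (Finset.abs_sum_le_sum_abs _ _).trans ?_
    have key : ∀ l ∈ range (C.top + 1), |Λ (D l * E l)| ≤ 2 * δ * M := by
      intro l hl
      by_cases hD : F l = 0
      · have : D l = 0 := by
          funext x
          have := d1 l x
          rw [hD] at this
          exact abs_nonpos_iff.mp this
        rw [this, zero_mul, map_zero, abs_zero]
        positivity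
      · obtain ⟨hli, hlh, hlv⟩ := d3 l hD
        obtain ⟨s1, s2, s3, s4, s4', s5, s6, s7, s8⟩ := hS l hli hlh
        obtain ⟨x₀, hx₀⟩ := Finite.exists_max (B l)
        have hb0 : 0 ≤ B l x₀ := (abs_nonneg _).trans (s1 x₀)
        rcases hb0.eq_or_lt with hb | hb
        · have : E l = 0 := by
            funext x
            have h1 := s1 x
            have h2 := hx₀ x
            rw [← hb] at h2
            exact abs_nonpos_iff.mp (h1.trans h2)
          rw [this, mul_zero, map_zero, abs_zero]
          positivity
        · have hD1 : ∀ x, F l x * B l x₀ ≤ M := by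
            intro x
            let x' : V → Bool := fun v => if v ∈ C.vars l then x₀ v else x v
            have h1 : B l x' = B l x₀ := s2 x' x₀ fun v hv => by simp [x', hv]
            have h2 : F l x' = F l x := d2' l x' x fun v hv => by
              have : v ∉ C.vars l := mem_compl.mp hv
              simp [x', this]
            have h3 : F l x' * B l x' ≤ C.fa C.top x' := by
              rw [d5 x']
              refine Finset.single_le_sum (f := fun l => F l x' * B l x') ?_ hl
              intro t _
              by_cases hDt : F t = 0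
              · simp [hDt]
              · obtain ⟨hti, hth, -⟩ := d3 t hDt
                obtain ⟨t1, -⟩ := hS t hti hth
                exact mul_nonneg ((abs_nonneg _).trans (d1 t x')) ((abs_nonneg _).trans (t1 x'))
            rw [h1, h2] at h3
            exact h3.trans (hM1 x')
          have h6 := s8 ((B l x₀ / M) • D l) (fun x y hxy => by
              simp only [Pi.smul_apply, d2 l x y hxy]) (fun x => by
              simp only [Pi.smul_apply, smul_eq_mul, abs_mul]
              rw [abs_of_pos (by positivity), div_mul_eq_mul_div, div_le_one hM]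
              have h7 := hD1 x
              have h8 := d1 l x
              nlinarith) (B l x₀) hx₀
          have e2 : D l * E l = (M / B l x₀) • (((B l x₀ / M) • D l) * E l) := by
            funext x
            simp only [Pi.mul_apply, Pi.smul_apply, smul_eq_mul]
            field_simp
          rw [e2, map_smul, smul_eq_mul, abs_mul, abs_of_pos (by positivity)]
          calc M / B l x₀ * |Λ ((B l x₀ / M) • D l * E l)|
              ≤ M / B l x₀ * (2 * δ * B l x₀) := mul_le_mul_of_nonneg_left h6 (by positivity)
            _ = 2 * δ * M := by field_simp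
    refine (Finset.sum_le_sum key).trans (le_of_eq ?_)
    rw [Finset.sum_const, card_range, nsmul_eq_mul]
    push_cast
    ring
  · have h1 := hR.scale (B := ∅) (b := 1) (β := 1) (Finset.disjoint_empty_right _)
      (not_lt.mp hh) (by simp) (dep_both hC C.top le_rfl).1 (Dep.one _)
      (fun x => (C.abs_le_fa x C.top).trans (hM1 x)) (by simp)
    rw [mul_one, mul_one] at h1
    refine h1.trans ?_
    have h2 : 0 ≤ δ * M := by positivity
    nlinarith

end Decomp

end ACircuit

/-- The final inequality. -/
theorem arith_bound : ∃ (c : ℝ) (Δ : ℕ), 0 < c ∧ ∀ m : ℕ, 0 < m →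
    ∃ φ : List (Fin 3 → Fin (3 * m)), φ.length ≤ 320 * m ∧ (∀ K ∈ φ, Function.Injective K) ∧
      (∀ v, (φ.countP fun K => decide (∃ t, K t = v)) ≤ Δ) ∧
      ∀ (C : ACircuit (Fin (3 * m))), C.IsML →
        (∀ x : Fin (3 * m) → Bool, C.val x C.top =
          if ∀ K ∈ φ, ∃ t, x (K t) = true then 1 else 0) →
        ∀ M : ℝ, (∀ x, C.aval x C.top ≤ M) → (2 : ℝ) ^ (c * (3 * m : ℕ)) ≤ 2 * C.size * M := by
  obtain ⟨c, Δ, hc, h⟩ := exists_dual_fin
  refine ⟨c / 3, Δ, by positivity, fun m hm => ?_⟩
  obtain ⟨φ, Λ, h1, h2, h3, h4, h5⟩ := h m hm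
  refine ⟨φ, h1, h2, h3, fun C hC heq M hM => ?_⟩
  have e1 : (fun x => if ∀ K ∈ φ, ∃ t, x (K t) = true then (1 : ℝ) else 0) = C.fv C.top := by
    funext x
    exact (heq x).symm
  have hV : 2 ≤ Fintype.card (Fin (3 * m)) := by
    rw [Fintype.card_fin]
    omega
  have hM1 : 1 ≤ M := by
    have h6 := C.abs_le_fa (fun _ => true) C.top
    have h7 : C.fv C.top (fun _ => true) = 1 := by
      rw [← e1]
      simp
    rw [h7, abs_one] at h6
    exact h6.trans (hM _)
  have e2 : (1 : ℝ) ≤ 2 * Real.exp (-(c * m)) * C.size * M := by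
    calc (1 : ℝ) = |Λ (fun x => if ∀ K ∈ φ, ∃ t, x (K t) = true then (1 : ℝ) else 0)| := by
          rw [h4, abs_one]
      _ = |Λ (C.fv C.top)| := by rw [e1]
      _ ≤ 2 * Real.exp (-(c * m)) * C.size * M :=
          ACircuit.bound_top hC hV h5 (by linarith) hM
  have e4 : Real.exp (c * m) ≤ 2 * C.size * M := by
    have hpos := Real.exp_pos (c * m)
    have := mul_le_mul_of_nonneg_left e2 hpos.le
    rw [mul_one] at this
    refine this.trans (le_of_eq ?_)
    rw [Real.exp_neg]
    field_simp
  refine le_trans ?_ e4
  have e5 : c / 3 * ((3 * m : ℕ) : ℝ) = c * m := by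
    push_cast
    ring
  rw [e5, Real.rpow_def_of_pos (by norm_num)]
  refine Real.exp_le_exp.mpr ?_
  have h6 : Real.log 2 ≤ 1 := by
    have := Real.log_two_lt_d9
    linarith
  have h7 : 0 ≤ c * m := by positivity
  nlinarith

end Pool.Agent.DD
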