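import Mathlib

/-!
# Syntactically multilinear arithmetic circuits

The definitions used in the statement of the size-cancellation tradeoff.
-/

namespace Pool.Agent.DD

/-- A gate number `i` of an arithmetic circuit over the Boolean variables `V`; its inputs are gates
with smaller numbers.
* `leaf S f` computes the real function `f` of the Boolean variables, which is meant to depend on
  the variables in `S` only;
* `affine E` computes the indicator function of the affine subspace of all `x` such that for every
  `(T, b) ∈ E` the parity of `x` on `T` is `b` (`true` meaning odd);
* `add j k` and `mul j k` compute the sum and the product of their inputs. -/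
inductive AGate (V : Type) (i : ℕ) : Type where
  | leaf (S : Finset V) (f : (V → Bool) → ℝ)
  | affine (E : List (Finset V × Bool))
  | add (j k : Fin i)
  | mul (j k : Fin i)

/-- An arithmetic circuit (a directed acyclic graph of gates): the gates number `0, …, top`, the
last one being the output gate. -/
structure ACircuit (V : Type) where
  top : ℕ
  gate : (i : ℕ) → AGate V i

namespace ACircuit

variable {V : Type}

/-- The number of gates. -/
def size (C : ACircuit V) : ℕ := C.top + 1

/-- The value of gate `i` on the assignment `x`. -/
noncomputable def val (C : ACircuit V) (x : V → Bool) (i : ℕ) : ℝ :=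
  match C.gate i with
  | .leaf _ f => f x
  | .affine E => if (E.all fun t => decide (Odd (t.1.filter fun v => x v = true).card) == t.2) = true
      then 1 else 0
  | .add j k => C.val x j + C.val x k
  | .mul j k => C.val x j * C.val x k
termination_by i
decreasing_by all_goals exact Fin.isLt _

/-- The value of gate `i` on the assignment `x` if every leaf is replaced by its absolute value. -/
noncomputable def aval (C : ACircuit V) (x : V → Bool) (i : ℕ) : ℝ :=
  match C.gate i with
  | .leaf _ f => |f x|
  | .affine E => if (E.all fun t => decide (Odd (t.1.filter fun v => x v = true).card) == t.2) = true
      then 1 else 0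
  | .add j k => C.aval x j + C.aval x k
  | .mul j k => C.aval x j * C.aval x k
termination_by i
decreasing_by all_goals exact Fin.isLt _

/-- The set of variables occurring below gate `i`. -/
def vars [DecidableEq V] (C : ACircuit V) (i : ℕ) : Finset V :=
  match C.gate i with
  | .leaf S _ => S
  | .affine E => E.foldr (fun t S => t.1 ∪ S) ∅
  | .add j k => C.vars j ∪ C.vars k
  | .mul j k => C.vars j ∪ C.vars k
termination_by i
decreasing_by all_goals exact Fin.isLt _

/-- The circuit is syntactically multilinear: a leaf `leaf S f` is any real function of the
variables in `S`, with `|S|` at most two thirds of the number of variables, and the two inputs of a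
product gate have disjoint sets of variables. -/
structure IsML [Fintype V] [DecidableEq V] (C : ACircuit V) : Prop where
  leaf : ∀ i ≤ C.top, ∀ S f, C.gate i = .leaf S f →
    (∀ x y, (∀ v ∈ S, x v = y v) → f x = f y) ∧ 3 * S.card ≤ 2 * Fintype.card V
  mul : ∀ i ≤ C.top, ∀ j k, C.gate i = .mul j k → Disjoint (C.vars j) (C.vars k)

end ACircuit

end Pool.Agent.DD
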