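import Pool.Agent.DD.Lift

/-!
Abstract decomposition: a system of functions, each of which is a combination of functions of lower
rank, with coefficients that depend on other variables.
-/

namespace Pool.Agent.DD

open Finset

set_option linter.unusedSectionVars false

/-- A system of functions `F q` of the variables `vs q`; `R` is the set of the states `q` that
matter, `Rel p q` means that `p` may be reached from `q`, and `Ch p q` that `p` may be charged
for `q`. -/
structure Sys (V Q : Type) where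
  R : Finset Q
  rk : Q → ℕ
  vs : Q → Finset V
  F : Q → (V → Bool) → ℝ
  Rel : Q → Q → Prop
  Ch : Q → Q → Prop

variable {V Q : Type} [Fintype V] [DecidableEq V] [DecidableEq Q]

namespace Sys

/-- The statement of one step of the decomposition. -/
structure Step (S : Sys V Q) (Λ : ((V → Bool) → ℝ) →ₗ[ℝ] ℝ) (δ : ℝ) (q : Q)
    (E : (V → Bool) → ℝ) (G : Q → (V → Bool) → ℝ) : Prop where
  val : ∀ x, E x = 0 ∨ 1 ≤ E x
  dep : Dep E (S.vs q)
  pos : ∀ l x, 0 ≤ G l x
  depG : ∀ l, Dep (G l) (S.vs l)ᶜ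
  sub : ∀ l, G l ≠ 0 → l ∈ S.R ∧ S.rk l < S.rk q ∧ S.vs l ⊆ S.vs q ∧ S.Rel l q
  eq : ∀ x, S.F q x = E x + ∑ l ∈ S.R, G l x * S.F l x
  small : ∀ D : (V → Bool) → ℝ, Dep D (S.vs q)ᶜ → (∀ x, |D x| ≤ 1) →
    |Λ (D * E)| ≤ 2 * δ ∨ ∃ p, S.Ch p q ∧ |Λ (D * E)| ≤ 2 * δ + |Λ (D * S.F p)|

variable {S : Sys V Q} {Λ : ((V → Bool) → ℝ) →ₗ[ℝ] ℝ} {δ : ℝ}

theorem exists_steps (h : ∀ q ∈ S.R, ∃ E G, S.Step Λ δ q E G) :
    ∃ (E : Q → (V → Bool) → ℝ) (G : Q → Q → (V → Bool) → ℝ),
      ∀ q ∈ S.R, S.Step Λ δ q (E q) (G q) := by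
  classical
  have h' : ∀ q : Q, ∃ (E : (V → Bool) → ℝ) (G : Q → (V → Bool) → ℝ),
      q ∈ S.R → S.Step Λ δ q E G := by
    intro q
    by_cases hq : q ∈ S.R
    · obtain ⟨E, G, h⟩ := h q hq
      exact ⟨E, G, fun _ => h⟩
    · exact ⟨0, 0, fun a => absurd a hq⟩
  choose E G h using h'
  exact ⟨E, G, h⟩

theorem decomp (hrefl : ∀ q, S.Rel q q) (htrans : ∀ a b c, S.Rel a b → S.Rel b c → S.Rel a c)
    {E : Q → (V → Bool) → ℝ} {G : Q → Q → (V → Bool) → ℝ}
    (hS : ∀ q ∈ S.R, S.Step Λ δ q (E q) (G q)) : ∀ (n : ℕ), ∀ q ∈ S.R, S.rk q = n →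
    ∃ D : Q → (V → Bool) → ℝ, (∀ l x, 0 ≤ D l x) ∧ (∀ l, Dep (D l) (S.vs l)ᶜ) ∧
      (∀ l, D l ≠ 0 → l ∈ S.R ∧ S.rk l ≤ S.rk q ∧ S.vs l ⊆ S.vs q ∧ S.Rel l q) ∧
      ∀ x, S.F q x = ∑ l ∈ S.R, D l x * E l x := by
  classical
  intro n
  induction n using Nat.strong_induction_on with
  | _ n ih =>
    intro q hq hn
    obtain ⟨s1, s2, s3, s4, s5, s6, s7⟩ := hS q hq
    have h : ∀ p : Q, ∃ D : Q → (V → Bool) → ℝ, (∀ l x, 0 ≤ D l x) ∧
        (∀ l, Dep (D l) (S.vs l)ᶜ) ∧ (∀ l, D l ≠ 0 → l ∈ S.R ∧ S.rk l ≤ S.rk p ∧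
          S.vs l ⊆ S.vs p ∧ S.Rel l p) ∧
        (p ∈ S.R → S.rk p < n → ∀ x, S.F p x = ∑ l ∈ S.R, D l x * E l x) := by
      intro p
      by_cases hp : p ∈ S.R ∧ S.rk p < n
      · obtain ⟨D, d1, d2, d3, d4⟩ := ih (S.rk p) hp.2 p hp.1 rfl
        exact ⟨D, d1, d2, d3, fun _ _ => d4⟩
      · exact ⟨0, fun _ _ => le_rfl, fun _ => Dep.zero _, fun l hl => absurd rfl hl,
          fun a b => absurd ⟨a, b⟩ hp⟩
    choose D d1 d2 d3 d4 using h
    refine ⟨fun l => (if l = q then 1 else 0) + ∑ p ∈ S.R, G q p * D p l, ?_, ?_, ?_, ?_⟩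
    · intro l x
      simp only [Pi.add_apply, Finset.sum_apply, Pi.mul_apply]
      refine add_nonneg ?_ (Finset.sum_nonneg fun p _ => mul_nonneg (s3 p x) (d1 p l x))
      split_ifs <;> simp
    · intro l
      refine Dep.add ?_ ?_
      · split_ifs
        · exact Dep.one _
        · exact Dep.zero _
      · intro x y hxy
        simp only [Finset.sum_apply, Pi.mul_apply]
        refine Finset.sum_congr rfl fun p _ => ?_
        by_cases hG : G q p = 0
        · rw [hG]; simp
        · by_cases hD : D p l = 0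
          · rw [hD]; simp
          · have h2 := d3 p l hD
            rw [d2 p l x y hxy, s4 p x y fun v hv => hxy v (by
              rw [mem_compl] at hv ⊢
              exact fun h => hv (h2.2.2.1 h))]
    · intro l hl
      by_cases hlq : l = q
      · subst hlq
        exact ⟨hq, le_rfl, subset_rfl, hrefl _⟩
      · by_contra hcon
        apply hl
        have e1 : ∀ p ∈ S.R, G q p * D p l = 0 := by
          intro p _
          by_cases hG : G q p = 0
          · rw [hG, zero_mul]
          · by_cases hD : D p l = 0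
            · rw [hD, mul_zero]
            · exfalso
              apply hcon
              have h1 := s5 p hG
              have h2 := d3 p l hD
              exact ⟨h2.1, h2.2.1.trans h1.2.1.le, h2.2.2.1.trans h1.2.2.1,
                htrans _ _ _ h2.2.2.2 h1.2.2.2⟩
        simp only [if_neg hlq, zero_add]
        exact Finset.sum_eq_zero e1
    · intro x
      rw [s6 x]
      simp only [Pi.add_apply, Finset.sum_apply, Pi.mul_apply, add_mul, Finset.sum_add_distrib]
      congr 1
      · rw [Finset.sum_eq_single q]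
        · simp
        · intro b _ hb
          simp [hb]
        · intro h
          exact absurd hq h
      · simp only [Finset.sum_mul]
        rw [Finset.sum_comm]
        refine Finset.sum_congr rfl fun p _ => ?_
        by_cases hG : G q p = 0
        · rw [hG]; simp
        · have h1 := s5 p hG
          rw [d4 p h1.1 (hn ▸ h1.2.1) x, Finset.mul_sum]
          refine Finset.sum_congr rfl fun l _ => ?_
          ring

open Classical in
/-- The bound obtained from the decomposition and a weight function. -/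
theorem bound (hδ : 0 ≤ δ) (hrefl : ∀ q, S.Rel q q)
    (htrans : ∀ a b c, S.Rel a b → S.Rel b c → S.Rel a c)
    (hst : ∀ q ∈ S.R, ∃ E G, S.Step Λ δ q E G) (hF : ∀ q x, S.F q x ≤ 1)
    (hCh : ∀ p, ∀ q ∈ S.R, S.Ch p q → p ∈ S.R ∧ S.rk p < S.rk q ∧ S.vs p ⊆ S.vs q)
    (w W : Q → ℝ) (hw : ∀ q, 0 ≤ w q) (hwW : ∀ p q, S.Ch p q → W p ≤ w q)
    (hW : ∀ q ∈ S.R, ∑ l ∈ S.R with S.Rel l q, (2 * δ + w l) ≤ W q) :
    ∀ (n : ℕ), ∀ q ∈ S.R, S.rk q = n → ∀ D₀ : (V → Bool) → ℝ, Dep D₀ (S.vs q)ᶜ →
      (∀ x, |D₀ x| ≤ 1) → |Λ (D₀ * S.F q)| ≤ W q := by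
  obtain ⟨E, G, hS⟩ := exists_steps hst
  intro n
  induction n using Nat.strong_induction_on with
  | _ n ih =>
    intro q hq hn D₀ hD₀ hD₀1
    obtain ⟨D, d1, d2, d3, d4⟩ := decomp hrefl htrans hS n q hq hn
    have e1 : D₀ * S.F q = ∑ l ∈ S.R, D₀ * D l * E l := by
      funext x
      simp only [Pi.mul_apply, Finset.sum_apply]
      rw [d4 x, Finset.mul_sum]
      refine Finset.sum_congr rfl fun l _ => ?_
      ring
    rw [e1, map_sum]
    refine (Finset.abs_sum_le_sum_abs _ _).trans ?_
    refine le_trans ?_ (hW q hq)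
    rw [Finset.sum_filter]
    refine Finset.sum_le_sum fun l hl => ?_
    have hwl := hw l
    by_cases hD : D l = 0
    · rw [hD, mul_zero, zero_mul, map_zero, abs_zero]
      split_ifs
      · linarith
      · exact le_rfl
    · obtain ⟨-, hlr, hlv, hlR⟩ := d3 l hD
      obtain ⟨s1, s2, s3, s4, s5, s6, s7⟩ := hS l hl
      rw [if_pos hlR]
      by_cases hE : ∃ x₀, 1 ≤ E l x₀
      · obtain ⟨x₀, hx₀⟩ := hE
        have hD1 : ∀ x, D l x ≤ 1 := by
          intro x
          let x' : V → Bool := fun v => if v ∈ S.vs l then x₀ v else x v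
          have h1 : E l x' = E l x₀ := s2 x' x₀ fun v hv => by simp [x', hv]
          have h2 : D l x' = D l x := d2 l x' x fun v hv => by
            have : v ∉ S.vs l := mem_compl.mp hv
            simp [x', this]
          have h3 : D l x' * E l x' ≤ S.F q x' := by
            rw [d4 x']
            refine Finset.single_le_sum (f := fun l => D l x' * E l x') ?_ hl
            intro t ht
            by_cases hDt : D t = 0
            · simp [hDt]
            · refine mul_nonneg (d1 t x') ?_
              rcases (hS t ht).val x' with h | h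
              · exact h.ge
              · linarith
          have h4 := hF q x'
          have h5 := d1 l x
          rw [h1, h2] at h3
          nlinarith
        have hDD : Dep (D₀ * D l) (S.vs l)ᶜ := by
          refine Dep.mul_same (hD₀.mono ?_) (d2 l)
          intro v hv
          rw [mem_compl] at hv ⊢
          exact fun h => hv (hlv h)
        have hDD1 : ∀ x, |(D₀ * D l) x| ≤ 1 := by
          intro x
          refine abs_mul_le_one (hD₀1 x) ?_
          rw [abs_of_nonneg (d1 l x)]
          exact hD1 x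
        rcases s7 (D₀ * D l) hDD hDD1 with h | ⟨p, hp, h⟩
        · linarith
        · obtain ⟨hpR, hpr, hpv⟩ := hCh p l hl hp
          have h1 := ih (S.rk p) (by omega) p hpR rfl (D₀ * D l) (hDD.mono (by
            intro v hv
            rw [mem_compl] at hv ⊢
            exact fun h => hv (hpv h))) hDD1
          have h2 := hwW p l hp
          linarith
      · have hE0 : E l = 0 := by
          funext x
          rcases s1 x with h | h
          · exact h
          · exact absurd ⟨x, h⟩ hE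
        rw [hE0, mul_zero, map_zero, abs_zero]
        linarith

end Sys

end Pool.Agent.DD
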