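import Pool.Agent.DD.Step

/-!
The two bounds for d-D circuits: by the number of negation chains, and by the alternation depth.
-/

namespace Pool.Agent.DD

open Finset

set_option linter.unusedSectionVars false

variable {V : Type} [Fintype V] [DecidableEq V]

namespace Circuit

section Eager

variable {C : Circuit V} {Λ : ((V → Bool) → ℝ) →ₗ[ℝ] ℝ} {δ : ℝ}

/-- The system in which a NOT gate is charged for its input. -/
noncomputable def sysE (C : Circuit V) : Sys V (ℕ × Bool) :=
  C.sys id (fun p q => C.nots p.1 ⊆ C.nots q.1)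
    (fun p q => ∃ j : Fin q.1, C.gate q.1 = .neg j ∧ p = ((j : ℕ), true))

theorem stepE (hC : C.IsDD) (hV : 2 ≤ Fintype.card V) (hR : RectBound Λ δ) :
    ∀ q ∈ C.sysE.R, ∃ E G, C.sysE.Step Λ δ q E G := by
  rintro ⟨i, b⟩ hq
  obtain ⟨hi, hh, hP⟩ := mem_sys.mp hq
  replace hi : i ≤ C.top := hi
  replace hh : C.Heavy i := hh
  replace hP : b = true := hP
  subst hP
  have hO := heavy_compl hh
  by_cases hneg : ∀ j, C.gate i ≠ .neg j
  · refine core hC hV hR hq ?_ hneg (by simp)
    intro j k h
    rcases h with h | h | ⟨S, f, h⟩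
    · show C.nots j ⊆ C.nots i ∧ C.nots k ⊆ C.nots i
      rw [nots_and h]
      exact ⟨subset_union_left, subset_union_right⟩
    · show C.nots j ⊆ C.nots i ∧ C.nots k ⊆ C.nots i
      rw [nots_or h]
      exact ⟨subset_union_left, subset_union_right⟩
    · show C.nots j ⊆ C.nots i ∧ C.nots k ⊆ C.nots i
      rw [nots_ite h]
      exact ⟨subset_union_left, subset_union_right⟩
  · push Not at hneg
    obtain ⟨j, hj⟩ := hneg
    refine Sys.step_stop (sv_dep hC (i, true) hi) (C.sv_cases (i, true)) fun D hD hD1 => Or.inr ?_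
    refine ⟨((j : ℕ), true), ⟨j, hj, rfl⟩, ?_⟩
    show |Λ (D * C.sv (i, true))| ≤ 2 * δ + |Λ (D * C.sv ((j : ℕ), true))|
    rw [sv_true, sv_true, rv_neg hj, mul_sub, mul_one, map_sub]
    have h1 := hR.single hO hD hD1
    have h2 := abs_sub (Λ D) (Λ (D * C.rv j))
    have h3 := hR.nonneg
    linarith

theorem boundE (hC : C.IsDD) (hV : 2 ≤ Fintype.card V) (hR : RectBound Λ δ)
    (hh : C.Heavy C.top) : |Λ (C.rv C.top)| ≤ 2 * δ * (C.top + 1) * C.chains C.top := by
  classical
  have hδ := hR.nonneg
  have hmem : (C.top, true) ∈ C.sysE.R := mem_sys.mpr ⟨le_rfl, hh, rfl⟩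
  have key := Sys.bound (S := C.sysE) (Λ := Λ) (δ := δ) hδ (fun _ => subset_rfl)
    (fun a b c hab hbc => Subset.trans hab hbc) (stepE hC hV hR)
    (fun q x => by
      rcases C.sv_cases q x with h | h
      · exact h.le.trans zero_le_one
      · exact h.le)
    (by
      rintro p ⟨i, b⟩ hq ⟨j, hj, rfl⟩
      obtain ⟨hi, hh, hP⟩ := mem_sys.mp hq
      replace hP : b = true := hP
      subst hP
      have e : C.vars i = C.vars j := vars_neg hj
      have hji : (j : ℕ) < i := j.isLt
      refine ⟨mem_sys.mpr ⟨hji.le.trans hi, ?_, rfl⟩, ?_, ?_⟩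
      · have hh' : C.Heavy i := hh
        show C.Heavy j
        unfold Heavy at hh' ⊢
        rw [← e]
        exact hh'
      · show 2 * (j : ℕ) + _ < 2 * i + _
        simp
      · show C.vars j ⊆ C.vars i
        rw [e])
    (fun q => 2 * δ * (C.top + 1) * C.below q.1) (fun q => 2 * δ * (C.top + 1) * C.chains q.1)
    (fun q => by positivity)
    (by
      rintro p ⟨i, b⟩ ⟨j, hj, rfl⟩
      show 2 * δ * ((C.top : ℝ) + 1) * C.chains j ≤ 2 * δ * ((C.top : ℝ) + 1) * C.below i
      rw [below_neg hj])
    (by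
      rintro ⟨i, b⟩ hq
      obtain ⟨hi, -, -⟩ := mem_sys.mp hq
      replace hi : i ≤ C.top := hi
      have h1 : (C.sysE.R.filter fun l => C.sysE.Rel l (i, b)) ⊆
          ((range (C.top + 1)).filter fun l => C.nots l ⊆ C.nots i) ×ˢ {true} := by
        rintro ⟨l, b'⟩ hl
        rw [mem_filter] at hl
        obtain ⟨hl1, hl2⟩ := hl
        obtain ⟨hl3, -, hl4⟩ := mem_sys.mp hl1
        rw [mem_product, mem_filter, mem_range, mem_singleton]
        exact ⟨⟨Nat.lt_succ_of_le hl3, hl2⟩, hl4⟩
      refine (Finset.sum_le_sum_of_subset_of_nonneg h1 fun l _ _ => by positivity).trans ?_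
      rw [Finset.sum_product]
      simp only [sum_singleton]
      show ∑ l ∈ (range (C.top + 1)).filter (fun l => C.nots l ⊆ C.nots i),
        (2 * δ + 2 * δ * ((C.top : ℝ) + 1) * C.below l) ≤ 2 * δ * ((C.top : ℝ) + 1) * C.chains i
      rw [Finset.sum_add_distrib, sum_const, nsmul_eq_mul, ← Finset.mul_sum, chains_eq]
      have h2 : ((((range (C.top + 1)).filter fun l => C.nots l ⊆ C.nots i).card : ℕ) : ℝ) ≤
          C.top + 1 := by
        have := card_filter_le (range (C.top + 1)) fun l => C.nots l ⊆ C.nots i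
        rw [card_range] at this
        exact_mod_cast this
      have h3 : ∑ l ∈ (range (C.top + 1)).filter (fun l => C.nots l ⊆ C.nots i), (C.below l : ℝ) ≤
          ∑ l ∈ C.nots i, (C.below l : ℝ) := by
        rw [← Finset.sum_filter_add_sum_filter_not ((range (C.top + 1)).filter
          fun l => C.nots l ⊆ C.nots i) (fun l => ∃ j : Fin l, C.gate l = .neg j)]
        have h4 : ∑ l ∈ ((range (C.top + 1)).filter fun l => C.nots l ⊆ C.nots i).filter
            (fun l => ¬ ∃ j : Fin l, C.gate l = .neg j), (C.below l : ℝ) = 0 := by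
          refine Finset.sum_eq_zero fun l hl => ?_
          rw [mem_filter] at hl
          have h5 := hl.2
          unfold below
          rcases hg : C.gate l with ⟨S, f⟩ | E | j | ⟨j, k⟩ | ⟨j, k⟩ | ⟨S, f, j, k⟩
          · simp
          · simp
          · exact absurd ⟨j, hg⟩ h5
          · simp
          · simp
          · simp
        rw [h4, add_zero]
        refine Finset.sum_le_sum_of_subset_of_nonneg ?_ fun l _ _ => by positivity
        intro l hl
        rw [mem_filter, mem_filter] at hl
        obtain ⟨⟨-, h5⟩, j, hj⟩ := hl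
        exact h5 (by rw [nots_neg hj]; simp)
      push_cast
      have h6 : 2 * δ * ((C.top : ℝ) + 1) *
          ∑ l ∈ (range (C.top + 1)).filter (fun l => C.nots l ⊆ C.nots i), (C.below l : ℝ) ≤
          2 * δ * ((C.top : ℝ) + 1) * ∑ l ∈ C.nots i, (C.below l : ℝ) :=
        mul_le_mul_of_nonneg_left h3 (by positivity)
      have h7 := mul_le_mul_of_nonneg_right h2 (by positivity : (0 : ℝ) ≤ 2 * δ)
      linarith)
    _ (C.top, true) hmem rfl 1 (Dep.one _) (by simp)
  rw [one_mul] at key
  have e : C.sysE.F (C.top, true) = C.rv C.top := C.sv_true C.top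
  rw [e] at key
  exact key

end Eager

section Lazy

variable {C : Circuit V} {Λ : ((V → Bool) → ℝ) →ₗ[ℝ] ℝ} {δ : ℝ}

theorem altDepth_neg {i : ℕ} {j : Fin i} (h : C.gate i = .neg j) (b : Bool) :
    C.altDepth i b = C.altDepth j (!b) := by
  rw [altDepth, h]

theorem altDepth_and {i : ℕ} {j k : Fin i} (h : C.gate i = .and j k) (b : Bool) :
    C.altDepth i b = max (C.altDepth j b) (C.altDepth k b) := by
  rw [altDepth, h]

theorem altDepth_ite {i : ℕ} {S : Finset V} {f : (V → Bool) → Bool} {j k : Fin i}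
    (h : C.gate i = .ite S f j k) (b : Bool) :
    C.altDepth i b = max (C.altDepth j b) (C.altDepth k b) := by
  rw [altDepth, h]

theorem altDepth_or {i : ℕ} {j k : Fin i} (h : C.gate i = .or j k) (b : Bool) :
    C.altDepth i b = if Disjoint (C.vars j) (C.vars k) then max (C.altDepth j b) (C.altDepth k b)
    else max (C.altDepth j true) (C.altDepth k true) + (if b = true then 0 else 1) := by
  rw [altDepth, h]

/-- The system in which a non-decomposable OR gate that is to be false is charged for itself being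
true. -/
noncomputable def sysL (C : Circuit V) : Sys V (ℕ × Bool) :=
  C.sys (fun _ => true) (fun p q => C.altDepth p.1 p.2 ≤ C.altDepth q.1 q.2)
    (fun p q => q.2 = false ∧ p = (q.1, true) ∧
      ∃ j k : Fin q.1, C.gate q.1 = .or j k ∧ ¬ Disjoint (C.vars j) (C.vars k))

theorem stepL (hC : C.IsDD) (hV : 2 ≤ Fintype.card V) (hR : RectBound Λ δ) :
    ∀ q ∈ C.sysL.R, ∃ E G, C.sysL.Step Λ δ q E G := by
  rintro ⟨i, b⟩ hq
  obtain ⟨hi, hh, hP⟩ := mem_sys.mp hq
  replace hi : i ≤ C.top := hi
  replace hh : C.Heavy i := hh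
  have hO := heavy_compl hh
  by_cases hneg : ∀ j, C.gate i ≠ .neg j
  · by_cases hch : b = false ∧ ∃ j k : Fin i, C.gate i = .or j k ∧ ¬ Disjoint (C.vars j) (C.vars k)
    · obtain ⟨rfl, hor⟩ := hch
      refine Sys.step_stop (sv_dep hC (i, false) hi) (C.sv_cases (i, false))
        fun D hD hD1 => Or.inr ?_
      refine ⟨(i, true), ⟨rfl, rfl, hor⟩, ?_⟩
      show |Λ (D * C.sv (i, false))| ≤ 2 * δ + |Λ (D * C.sv (i, true))|
      rw [sv_true, sv_false, mul_sub, mul_one, map_sub]
      have h1 := hR.single hO hD hD1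
      have h2 := abs_sub (Λ D) (Λ (D * C.rv i))
      have h3 := hR.nonneg
      linarith
    · refine core hC hV hR hq ?_ hneg ?_
      · intro j k h
        rcases h with h | h | ⟨S, f, h⟩
        · show C.altDepth j b ≤ C.altDepth i b ∧ C.altDepth k b ≤ C.altDepth i b
          rw [altDepth_and h]
          exact ⟨le_max_left _ _, le_max_right _ _⟩
        · show C.altDepth j b ≤ C.altDepth i b ∧ C.altDepth k b ≤ C.altDepth i b
          rw [altDepth_or h]
          split_ifs with h1 h2
          · exact ⟨le_max_left _ _, le_max_right _ _⟩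
          · subst h2
            exact ⟨le_max_left _ _, le_max_right _ _⟩
          · exact absurd ⟨by simpa using h2, j, k, h, h1⟩ hch
        · show C.altDepth j b ≤ C.altDepth i b ∧ C.altDepth k b ≤ C.altDepth i b
          rw [altDepth_ite h]
          exact ⟨le_max_left _ _, le_max_right _ _⟩
      · intro hb j k h
        by_contra hd
        exact hch ⟨hb, j, k, h, hd⟩
  · push Not at hneg
    obtain ⟨j, hj⟩ := hneg
    have hji : (j : ℕ) < i := j.isLt
    have e : C.vars i = C.vars j := vars_neg hj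
    have hhj : C.Heavy j := by
      unfold Heavy at hh ⊢
      rw [← e]
      exact hh
    have hmem : ((j : ℕ), !b) ∈ C.sysL.R := mem_sys.mpr ⟨hji.le.trans hi, hhj, rfl⟩
    refine Sys.step_pass hR hO hmem (child hC hi hji (by rw [e]) ?_ rfl) ?_
    · show C.altDepth j (!b) ≤ C.altDepth i b
      rw [altDepth_neg hj]
    · show C.sv (i, b) = C.sv ((j : ℕ), !b)
      cases b
      · rw [Bool.not_false, sv_true, sv_false, rv_neg hj]
        ring
      · rw [Bool.not_true, sv_true, sv_false, rv_neg hj]

theorem boundL (hC : C.IsDD) (hV : 2 ≤ Fintype.card V) (hR : RectBound Λ δ)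
    (hh : C.Heavy C.top) :
    |Λ (C.rv C.top)| ≤ 4 * δ * (C.top + 1) * (C.top + 1 : ℝ) ^ C.altDepth C.top true := by
  classical
  have hδ := hR.nonneg
  have hmem : (C.top, true) ∈ C.sysL.R := mem_sys.mpr ⟨le_rfl, hh, rfl⟩
  have hs1 : (1 : ℝ) ≤ C.top + 1 := by
    have : (0 : ℝ) ≤ C.top := Nat.cast_nonneg _
    linarith
  have key := Sys.bound (S := C.sysL) (Λ := Λ) (δ := δ) hδ
    (fun q => show C.altDepth q.1 q.2 ≤ C.altDepth q.1 q.2 from le_rfl)
    (fun a b c hab hbc => show C.altDepth a.1 a.2 ≤ C.altDepth c.1 c.2 from le_trans hab hbc)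
    (stepL hC hV hR)
    (fun q x => by
      rcases C.sv_cases q x with h | h
      · exact h.le.trans zero_le_one
      · exact h.le)
    (by
      rintro p ⟨i, b⟩ hq ⟨hb, rfl, j, k, hj⟩
      obtain ⟨hi, hh, hP⟩ := mem_sys.mp hq
      replace hb : b = false := hb
      subst hb
      refine ⟨mem_sys.mpr ⟨hi, hh, rfl⟩, ?_, subset_rfl⟩
      show 2 * i + _ < 2 * i + _
      simp)
    (fun q => if q.2 = false ∧ ∃ j k : Fin q.1, C.gate q.1 = .or j k ∧
      ¬ Disjoint (C.vars j) (C.vars k) then 4 * δ * (C.top + 1) *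
        (C.top + 1 : ℝ) ^ C.altDepth q.1 true else 0)
    (fun q => 4 * δ * (C.top + 1) * (C.top + 1 : ℝ) ^ C.altDepth q.1 q.2)
    (fun q => by
      split_ifs
      · positivity
      · exact le_rfl)
    (by
      rintro p ⟨i, b⟩ ⟨hb, rfl, j, k, hj⟩
      rw [if_pos ⟨hb, j, k, hj⟩])
    (by
      rintro ⟨i, b⟩ hq
      obtain ⟨hi, -, -⟩ := mem_sys.mp hq
      replace hi : i ≤ C.top := hi
      set A := C.altDepth i b with hA
      rw [Finset.sum_add_distrib]
      have hsub : (C.sysL.R.filter fun l => C.sysL.Rel l (i, b)) ⊆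
          range (C.top + 1) ×ˢ univ :=
        (filter_subset _ _).trans (filter_subset _ _)
      have h1 : ∑ _l ∈ C.sysL.R.filter (fun l => C.sysL.Rel l (i, b)), 2 * δ ≤
          4 * δ * (C.top + 1) := by
        rw [sum_const, nsmul_eq_mul]
        have h2 := card_le_card hsub
        rw [card_product, card_range, card_univ, Fintype.card_bool] at h2
        have h3 : (((C.sysL.R.filter fun l => C.sysL.Rel l (i, b)).card : ℕ) : ℝ) ≤
            ((C.top : ℝ) + 1) * 2 := by exact_mod_cast h2
        nlinarith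
      have h2 : ∑ l ∈ C.sysL.R.filter (fun l => C.sysL.Rel l (i, b)),
          (if l.2 = false ∧ ∃ j k : Fin l.1, C.gate l.1 = .or j k ∧
            ¬ Disjoint (C.vars j) (C.vars k) then 4 * δ * (C.top + 1) *
            (C.top + 1 : ℝ) ^ C.altDepth l.1 true else 0) ≤
          ∑ l ∈ range (C.top + 1) ×ˢ univ, (if l.2 = false ∧ l.1 ≠ 0 ∧ A ≠ 0 then
            4 * δ * (C.top + 1) * (C.top + 1 : ℝ) ^ (A - 1) else 0) := by
        refine le_trans (Finset.sum_le_sum fun l hl => ?_)
          (Finset.sum_le_sum_of_subset_of_nonneg hsub fun l _ _ => ?_)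
        · rw [mem_filter] at hl
          have hrel : C.altDepth l.1 l.2 ≤ A := hl.2
          split_ifs with g1 g2 g3
          · obtain ⟨hl2, j, k, hg, hd⟩ := g1
            rw [hl2, altDepth_or hg, if_neg hd] at hrel
            have e : C.altDepth l.1 true = max (C.altDepth j true) (C.altDepth k true) := by
              rw [altDepth_or hg, if_neg hd]
              simp
            rw [← e] at hrel
            simp only [Bool.false_eq_true, if_false] at hrel
            refine mul_le_mul_of_nonneg_left ?_ (by positivity)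
            exact pow_le_pow_right₀ hs1 (by omega)
          · exfalso
            apply g2
            obtain ⟨hl2, j, k, hg, hd⟩ := g1
            refine ⟨hl2, ?_, ?_⟩
            · have := j.isLt
              omega
            · rw [hl2, altDepth_or hg, if_neg hd] at hrel
              simp only [Bool.false_eq_true, if_false] at hrel
              omega
          · positivity
          · exact le_rfl
        · split_ifs
          · positivity
          · exact le_rfl
      have h3 : ∑ l ∈ range (C.top + 1) ×ˢ (univ : Finset Bool),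
          (if l.2 = false ∧ l.1 ≠ 0 ∧ A ≠ 0 then
            4 * δ * ((C.top : ℝ) + 1) * (C.top + 1 : ℝ) ^ (A - 1) else 0) =
          C.top * (if A ≠ 0 then 4 * δ * ((C.top : ℝ) + 1) * (C.top + 1 : ℝ) ^ (A - 1) else 0) := by
        rw [Finset.sum_product, Finset.sum_range_succ']
        simp only [Fintype.sum_bool]
        simp
      rw [h3] at h2
      refine (add_le_add h1 h2).trans ?_
      by_cases h0 : A = 0
      · simp [h0]
      · rw [if_pos h0]
        obtain ⟨d, hd⟩ : ∃ d, A = d + 1 := ⟨A - 1, by omega⟩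
        rw [hd, Nat.add_sub_cancel, pow_succ]
        have h4 : (1 : ℝ) ≤ ((C.top : ℝ) + 1) ^ d := one_le_pow₀ hs1
        have h5 : 0 ≤ 4 * δ * ((C.top : ℝ) + 1) := by positivity
        have h6 := mul_le_mul_of_nonneg_left h4 h5
        nlinarith)
    _ (C.top, true) hmem rfl 1 (Dep.one _) (by simp)
  rw [one_mul] at key
  have e : C.sysL.F (C.top, true) = C.rv C.top := C.sv_true C.top
  rw [e] at key
  exact key

end Lazy

/-- The bound for the output of the circuit. -/
theorem bound_top {C : Circuit V} {Λ : ((V → Bool) → ℝ) →ₗ[ℝ] ℝ} {δ : ℝ} (hC : C.IsDD)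
    (hV : 2 ≤ Fintype.card V) (hR : RectBound Λ δ) :
    |Λ (C.rv C.top)| ≤ 4 * δ * C.size *
      (min (C.chains C.top) (C.size ^ C.altDepth C.top true) : ℕ) := by
  have hδ := hR.nonneg
  have e : (C.size : ℝ) = C.top + 1 := by simp [size]
  have h3 : (1 : ℝ) ≤ C.top + 1 := by
    have : (0 : ℝ) ≤ C.top := Nat.cast_nonneg _
    linarith
  have h2 : (1 : ℝ) ≤ C.chains C.top := by exact_mod_cast C.one_le_chains C.top
  have h5 : (1 : ℝ) ≤ ((C.top : ℝ) + 1) ^ C.altDepth C.top true := one_le_pow₀ h3
  rw [Nat.cast_min, Nat.cast_pow, e]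
  by_cases hh : C.Heavy C.top
  · have h4 := boundE hC hV hR hh
    have h6 := boundL hC hV hR hh
    rcases min_choice (C.chains C.top : ℝ) (((C.top : ℝ) + 1) ^ C.altDepth C.top true) with h | h
    · rw [h]
      refine h4.trans ?_
      have : 0 ≤ δ * (C.top + 1) * C.chains C.top := by positivity
      linarith
    · rw [h]
      exact h6
  · have h1 := hR.single (not_lt.mp hh) (rv_dep hC C.top le_rfl) (C.abs_rv_le C.top)
    refine h1.trans ?_
    have h7 : (1 : ℝ) ≤ min (C.chains C.top : ℝ) (((C.top : ℝ) + 1) ^ C.altDepth C.top true) :=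
      le_min h2 h5
    have h8 : (1 : ℝ) ≤ ((C.top : ℝ) + 1) *
        min (C.chains C.top : ℝ) (((C.top : ℝ) + 1) ^ C.altDepth C.top true) := by nlinarith
    nlinarith

end Circuit

end Pool.Agent.DD
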