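import Pool.Agent.DD.Circuit

/-!
The number of negation chains of a circuit.
-/

namespace Pool.Agent.DD

open Finset

namespace Circuit

section Defs

variable {V : Type}

/-- The set of the NOT gates that gate `i` reaches (itself or below it) on a path that meets no
other NOT gate before. -/
def nots (C : Circuit V) (i : ℕ) : Finset ℕ :=
  match C.gate i with
  | .leaf _ _ => ∅
  | .affine _ => ∅
  | .neg _ => {i}
  | .and j k => C.nots j ∪ C.nots k
  | .or j k => C.nots j ∪ C.nots k
  | .ite _ _ j k => C.nots j ∪ C.nots k
termination_by i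
decreasing_by all_goals exact Fin.isLt _

/-- The number of negation chains of gate `i`, that is, of the sequences `g₁, …, g_r` (`r ≥ 0`) of
NOT gates such that `g₁ ∈ C.nots i` and each `g_{t+1}` is in `C.nots (the input of g_t)`. -/
def chains (C : Circuit V) (i : ℕ) : ℕ :=
  1 + ∑ l : Fin (i + 1), if (l : ℕ) ∈ C.nots i then
    (match C.gate l with
      | .neg j => C.chains j
      | _ => 0) else 0
termination_by i
decreasing_by
  have h1 := l.isLt
  have h2 := j.isLt
  omega

end Defs

variable {V : Type} {C : Circuit V} {i : ℕ}

theorem nots_neg {j : Fin i} (h : C.gate i = .neg j) : C.nots i = {i} := by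
  rw [nots, h]

theorem nots_leaf {S : Finset V} {f : (V → Bool) → Bool} (h : C.gate i = .leaf S f) :
    C.nots i = ∅ := by
  rw [nots, h]

theorem nots_affine {E : List (Finset V × Bool)} (h : C.gate i = .affine E) :
    C.nots i = ∅ := by
  rw [nots, h]

theorem nots_and {j k : Fin i} (h : C.gate i = .and j k) : C.nots i = C.nots j ∪ C.nots k := by
  rw [nots, h]

theorem nots_or {j k : Fin i} (h : C.gate i = .or j k) : C.nots i = C.nots j ∪ C.nots k := by
  rw [nots, h]

theorem nots_ite {S : Finset V} {f : (V → Bool) → Bool} {j k : Fin i}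
    (h : C.gate i = .ite S f j k) : C.nots i = C.nots j ∪ C.nots k := by
  rw [nots, h]

/-- Number of chains starting below a NOT gate. -/
def below (C : Circuit V) (l : ℕ) : ℕ :=
  match C.gate l with
  | .neg j => C.chains j
  | _ => 0

theorem below_neg {C : Circuit V} {i : ℕ} {j : Fin i} (h : C.gate i = .neg j) :
    C.below i = C.chains j := by
  rw [below, h]

theorem nots_le (C : Circuit V) : ∀ i, ∀ l ∈ C.nots i, l ≤ i := by
  intro i
  induction i using Nat.strong_induction_on with
  | _ i ih =>
    intro l hl
    rcases hg : C.gate i with ⟨S, f⟩ | E | j | ⟨j, k⟩ | ⟨j, k⟩ | ⟨S, f, j, k⟩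
    · rw [nots_leaf hg] at hl; simp at hl
    · rw [nots_affine hg] at hl; simp at hl
    · rw [nots_neg hg, mem_singleton] at hl
      omega
    · rw [nots_and hg, mem_union] at hl
      have h1 := j.isLt
      have h2 := k.isLt
      rcases hl with hl | hl
      · have := ih j j.isLt l hl; omega
      · have := ih k k.isLt l hl; omega
    · rw [nots_or hg, mem_union] at hl
      have h1 := j.isLt
      have h2 := k.isLt
      rcases hl with hl | hl
      · have := ih j j.isLt l hl; omega
      · have := ih k k.isLt l hl; omega
    · rw [nots_ite hg, mem_union] at hl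
      have h1 := j.isLt
      have h2 := k.isLt
      rcases hl with hl | hl
      · have := ih j j.isLt l hl; omega
      · have := ih k k.isLt l hl; omega

theorem nots_isNeg (C : Circuit V) : ∀ i, ∀ l ∈ C.nots i, ∃ j : Fin l, C.gate l = .neg j := by
  intro i
  induction i using Nat.strong_induction_on with
  | _ i ih =>
    intro l hl
    rcases hg : C.gate i with ⟨S, f⟩ | E | j | ⟨j, k⟩ | ⟨j, k⟩ | ⟨S, f, j, k⟩
    · rw [nots_leaf hg] at hl; simp at hl
    · rw [nots_affine hg] at hl; simp at hl
    · rw [nots_neg hg, mem_singleton] at hl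
      subst hl
      exact ⟨j, hg⟩
    · rw [nots_and hg, mem_union] at hl
      rcases hl with hl | hl
      · exact ih j j.isLt l hl
      · exact ih k k.isLt l hl
    · rw [nots_or hg, mem_union] at hl
      rcases hl with hl | hl
      · exact ih j j.isLt l hl
      · exact ih k k.isLt l hl
    · rw [nots_ite hg, mem_union] at hl
      rcases hl with hl | hl
      · exact ih j j.isLt l hl
      · exact ih k k.isLt l hl

theorem chains_eq (C : Circuit V) (i : ℕ) : C.chains i = 1 + ∑ l ∈ C.nots i, C.below l := by
  rw [chains]
  congr 1
  refine (Finset.sum_congr rfl (fun (l : Fin (i + 1)) _ =>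
    (?_ : _ = (fun l : ℕ => if l ∈ C.nots i then C.below l else 0) l))).trans ?_
  · unfold below
    beta_reduce
    rcases C.gate l with ⟨S, f⟩ | E | j | ⟨j, k⟩ | ⟨j, k⟩ | ⟨S, f, j, k⟩ <;> rfl
  rw [Fin.sum_univ_eq_sum_range (fun l : ℕ => if l ∈ C.nots i then C.below l else 0) (i + 1),
    ← Finset.sum_filter]
  refine Finset.sum_congr ?_ fun _ _ => rfl
  ext l
  rw [mem_filter, mem_range]
  constructor
  · exact fun h => h.2
  · exact fun h => ⟨by have := C.nots_le i l h; omega, h⟩

theorem one_le_chains (C : Circuit V) (i : ℕ) : 1 ≤ C.chains i := by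
  rw [chains_eq]
  omega

/-- Hockey stick over the NOT gates. -/
theorem sum_choose_negs (C : Circuit V) (r : ℕ) : ∀ n : ℕ,
    ∑ l ∈ (range n).filter (fun l => C.isNeg l = true),
      (((range l).filter fun l => C.isNeg l = true).card).choose r =
    (((range n).filter fun l => C.isNeg l = true).card).choose (r + 1) := by
  intro n
  induction n with
  | zero => simp
  | succ n ih =>
    rw [range_add_one, filter_insert]
    split_ifs with h
    · rw [sum_insert (by simp), card_insert_of_notMem (by simp), ih, Nat.choose_succ_succ]
    · exact ih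

theorem isNeg_of {C : Circuit V} {l : ℕ} {j : Fin l} (h : C.gate l = .neg j) :
    C.isNeg l = true := by
  rw [isNeg, h]

theorem depth_nots (C : Circuit V) : ∀ i, ∀ l ∈ C.nots i, C.negDepth l ≤ C.negDepth i := by
  intro i
  induction i using Nat.strong_induction_on with
  | _ i ih =>
    intro l hl
    rcases hg : C.gate i with ⟨S, f⟩ | E | j | ⟨j, k⟩ | ⟨j, k⟩ | ⟨S, f, j, k⟩
    · rw [nots_leaf hg] at hl; simp at hl
    · rw [nots_affine hg] at hl; simp at hl
    · rw [nots_neg hg, mem_singleton] at hl
      subst hl
      exact le_rfl
    · have e : C.negDepth i = max (C.negDepth j) (C.negDepth k) := by rw [negDepth, hg]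
      rw [nots_and hg, mem_union] at hl
      rcases hl with hl | hl
      · have := ih j j.isLt l hl; omega
      · have := ih k k.isLt l hl; omega
    · have e : C.negDepth i = max (C.negDepth j) (C.negDepth k) := by rw [negDepth, hg]
      rw [nots_or hg, mem_union] at hl
      rcases hl with hl | hl
      · have := ih j j.isLt l hl; omega
      · have := ih k k.isLt l hl; omega
    · have e : C.negDepth i = max (C.negDepth j) (C.negDepth k) := by rw [negDepth, hg]
      rw [nots_ite hg, mem_union] at hl
      rcases hl with hl | hl
      · have := ih j j.isLt l hl; omega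
      · have := ih k k.isLt l hl; omega

theorem negDepth_neg {C : Circuit V} {i : ℕ} {j : Fin i} (h : C.gate i = .neg j) :
    C.negDepth i = C.negDepth j + 1 := by
  rw [negDepth, h]

/-- The number of chains in terms of depth and number of the NOT gates. -/
theorem chains_le (C : Circuit V) : ∀ i, C.chains i ≤
    ∑ r ∈ range (C.negDepth i + 1), (C.negCount i).choose r := by
  intro i
  induction i using Nat.strong_induction_on with
  | _ i ih =>
    rw [chains_eq]
    rcases Nat.eq_zero_or_pos (C.negDepth i) with h0 | hpos
    · have : C.nots i = ∅ := by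
        rw [Finset.eq_empty_iff_forall_notMem]
        intro l hl
        have h1 := C.depth_nots i l hl
        obtain ⟨j, hj⟩ := C.nots_isNeg i l hl
        rw [negDepth_neg hj] at h1
        omega
      rw [this, h0]
      simp
    · obtain ⟨d, hd⟩ : ∃ d, C.negDepth i = d + 1 := ⟨C.negDepth i - 1, by omega⟩
      rw [hd, Finset.sum_range_succ']
      have h1 : ∑ l ∈ C.nots i, C.below l ≤ ∑ l ∈ C.nots i, ∑ r ∈ range (d + 1),
          (((range l).filter fun l => C.isNeg l = true).card).choose r := by
        refine Finset.sum_le_sum fun l hl => ?_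
        obtain ⟨j, hj⟩ := C.nots_isNeg i l hl
        have hjl := j.isLt
        have hli := C.nots_le i l hl
        rw [below_neg hj]
        refine (ih j (by omega)).trans ?_
        have h2 := C.depth_nots i l hl
        rw [negDepth_neg hj] at h2
        refine (Finset.sum_le_sum_of_subset (range_subset_range.mpr (by omega))).trans
          (Finset.sum_le_sum fun r _ => ?_)
        refine Nat.choose_le_choose r ?_
        unfold negCount
        refine card_le_card (filter_subset_filter _ (range_subset_range.mpr (by omega)))
      have h2 : ∑ l ∈ C.nots i, ∑ r ∈ range (d + 1),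
          (((range l).filter fun l => C.isNeg l = true).card).choose r ≤
          ∑ l ∈ (range (i + 1)).filter (fun l => C.isNeg l = true), ∑ r ∈ range (d + 1),
          (((range l).filter fun l => C.isNeg l = true).card).choose r := by
        refine Finset.sum_le_sum_of_subset ?_
        intro l hl
        rw [mem_filter, mem_range]
        obtain ⟨j, hj⟩ := C.nots_isNeg i l hl
        exact ⟨by have := C.nots_le i l hl; omega, isNeg_of hj⟩
      have h3 : ∑ l ∈ (range (i + 1)).filter (fun l => C.isNeg l = true), ∑ r ∈ range (d + 1),
          (((range l).filter fun l => C.isNeg l = true).card).choose r =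
          ∑ r ∈ range (d + 1), (C.negCount i).choose (r + 1) := by
        rw [Finset.sum_comm]
        exact Finset.sum_congr rfl fun r _ => C.sum_choose_negs r (i + 1)
      rw [h3] at h2
      simp only [Nat.choose_zero_right]
      omega

/-- The number of chains in terms of depth and size. -/
theorem chains_le_pow (C : Circuit V) : ∀ i, C.chains i ≤ (i + 1) ^ C.negDepth i := by
  intro i
  induction i using Nat.strong_induction_on with
  | _ i ih =>
    rw [chains_eq]
    rcases Nat.eq_zero_or_pos (C.negDepth i) with h0 | hpos
    · have : C.nots i = ∅ := by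
        rw [Finset.eq_empty_iff_forall_notMem]
        intro l hl
        have h1 := C.depth_nots i l hl
        obtain ⟨j, hj⟩ := C.nots_isNeg i l hl
        rw [negDepth_neg hj] at h1
        omega
      rw [this, h0]
      simp
    · obtain ⟨d, hd⟩ : ∃ d, C.negDepth i = d + 1 := ⟨C.negDepth i - 1, by omega⟩
      have h1 : ∑ l ∈ C.nots i, C.below l ≤ ∑ l ∈ C.nots i, i ^ d := by
        refine Finset.sum_le_sum fun l hl => ?_
        obtain ⟨j, hj⟩ := C.nots_isNeg i l hl
        have hjl := j.isLt
        have hli := C.nots_le i l hl
        rw [below_neg hj]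
        have h2 := C.depth_nots i l hl
        rw [negDepth_neg hj] at h2
        calc C.chains j ≤ ((j : ℕ) + 1) ^ C.negDepth j := ih j (by omega)
          _ ≤ ((j : ℕ) + 1) ^ d := Nat.pow_le_pow_right (by omega) (by omega)
          _ ≤ i ^ d := Nat.pow_le_pow_left (by omega) d
      have h2 : (C.nots i).card ≤ i := by
        have h3 : C.nots i ⊆ (range (i + 1)).erase 0 := by
          intro l hl
          obtain ⟨j, hj⟩ := C.nots_isNeg i l hl
          have hjl := j.isLt
          have hli := C.nots_le i l hl
          rw [mem_erase, mem_range]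
          omega
        refine (card_le_card h3).trans ?_
        rw [card_erase_of_mem (by simp), card_range]
        omega
      rw [sum_const, smul_eq_mul] at h1
      have h4 : (C.nots i).card * i ^ d ≤ i * i ^ d := Nat.mul_le_mul_right _ h2
      have h5 : i * i ^ d + 1 ≤ (i + 1) ^ (d + 1) := by
        have h6 : (i + 1) ^ (d + 1) = i * (i + 1) ^ d + (i + 1) ^ d := by ring
        have h7 : i ^ d ≤ (i + 1) ^ d := Nat.pow_le_pow_left (by omega) d
        have h8 : 1 ≤ (i + 1) ^ d := Nat.one_le_pow _ _ (by omega)
        have h9 : i * i ^ d ≤ i * (i + 1) ^ d := Nat.mul_le_mul_left _ h7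
        omega
      rw [hd]
      omega

theorem negUnfold_nots (C : Circuit V) : ∀ i, ∑ l ∈ C.nots i, C.negUnfold l ≤ C.negUnfold i := by
  intro i
  induction i using Nat.strong_induction_on with
  | _ i ih =>
    rcases hg : C.gate i with ⟨S, f⟩ | E | j | ⟨j, k⟩ | ⟨j, k⟩ | ⟨S, f, j, k⟩
    · rw [nots_leaf hg]; simp
    · rw [nots_affine hg]; simp
    · rw [nots_neg hg]; simp
    · have e : C.negUnfold i = C.negUnfold j + C.negUnfold k := by rw [negUnfold, hg]
      have h1 := ih j j.isLt
      have h2 := ih k k.isLt
      have h3 : ∑ l ∈ C.nots j ∪ C.nots k, C.negUnfold l ≤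
          ∑ l ∈ C.nots j, C.negUnfold l + ∑ l ∈ C.nots k, C.negUnfold l := by
        rw [← Finset.sum_union_inter]
        omega
      rw [nots_and hg]
      omega
    · have e : C.negUnfold i = C.negUnfold j + C.negUnfold k := by rw [negUnfold, hg]
      have h1 := ih j j.isLt
      have h2 := ih k k.isLt
      have h3 : ∑ l ∈ C.nots j ∪ C.nots k, C.negUnfold l ≤
          ∑ l ∈ C.nots j, C.negUnfold l + ∑ l ∈ C.nots k, C.negUnfold l := by
        rw [← Finset.sum_union_inter]
        omega
      rw [nots_or hg]
      omega
    · have e : C.negUnfold i = C.negUnfold j + C.negUnfold k := by rw [negUnfold, hg]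
      have h1 := ih j j.isLt
      have h2 := ih k k.isLt
      have h3 : ∑ l ∈ C.nots j ∪ C.nots k, C.negUnfold l ≤
          ∑ l ∈ C.nots j, C.negUnfold l + ∑ l ∈ C.nots k, C.negUnfold l := by
        rw [← Finset.sum_union_inter]
        omega
      rw [nots_ite hg]
      omega

/-- The number of chains in terms of the unfolded circuit. -/
theorem chains_le_unfold (C : Circuit V) : ∀ i, C.chains i ≤ C.negUnfold i + 1 := by
  intro i
  induction i using Nat.strong_induction_on with
  | _ i ih =>
    rw [chains_eq]
    have h1 : ∑ l ∈ C.nots i, C.below l ≤ ∑ l ∈ C.nots i, C.negUnfold l := by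
      refine Finset.sum_le_sum fun l hl => ?_
      obtain ⟨j, hj⟩ := C.nots_isNeg i l hl
      have hjl := j.isLt
      have hli := C.nots_le i l hl
      have e : C.negUnfold l = C.negUnfold j + 1 := by rw [negUnfold, hj]
      rw [below_neg hj, e]
      exact ih j (by omega)
    have h2 := C.negUnfold_nots i
    omega

end Circuit

end Pool.Agent.DD
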