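import Mathlib

/-!
# Boolean circuits with decomposable AND, deterministic or decomposable OR, decision and NOT gates

The definitions used in the statement of the lower bound.
-/

namespace Pool.Agent.DD

/-- A gate number `i` of a circuit over the variables `V`; its inputs are gates with smaller
numbers.
* `leaf S f` computes the Boolean function `f`, which is meant to depend on the variables in `S`
  only;
* `affine E` computes the indicator function of the affine subspace of all `x` such that for every
  `(T, b) ∈ E` the parity of `x` on `T` is `b` (`true` meaning odd);
* `neg j`, `and j k`, `or j k` are NOT, AND and OR gates;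
* `ite S f j k` is a decision gate: its value is that of gate `j` if `f x` holds and that of gate
  `k` otherwise, where `f` is meant to depend on the variables in `S` only. -/
inductive Gate (V : Type) (i : ℕ) : Type where
  | leaf (S : Finset V) (f : (V → Bool) → Bool)
  | affine (E : List (Finset V × Bool))
  | neg (j : Fin i)
  | and (j k : Fin i)
  | or (j k : Fin i)
  | ite (S : Finset V) (f : (V → Bool) → Bool) (j k : Fin i)

/-- A circuit (a directed acyclic graph of gates): the gates number `0, …, top`, the last one being
the output gate. -/
structure Circuit (V : Type) where
  top : ℕ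
  gate : (i : ℕ) → Gate V i

namespace Circuit

variable {V : Type}

/-- The number of gates. -/
def size (C : Circuit V) : ℕ := C.top + 1

/-- The value of gate `i` on the assignment `x`. -/
def val (C : Circuit V) (x : V → Bool) (i : ℕ) : Bool :=
  match C.gate i with
  | .leaf _ f => f x
  | .affine E => E.all fun t => decide (Odd (t.1.filter fun v => x v = true).card) == t.2
  | .neg j => !C.val x j
  | .and j k => C.val x j && C.val x k
  | .or j k => C.val x j || C.val x k
  | .ite _ f j k => if f x = true then C.val x j else C.val x k
termination_by i
decreasing_by all_goals exact Fin.isLt _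

/-- The output of the circuit on the assignment `x`. -/
def eval (C : Circuit V) (x : V → Bool) : Bool := C.val x C.top

/-- The set of variables occurring at or below gate `i`. -/
def vars [DecidableEq V] (C : Circuit V) (i : ℕ) : Finset V :=
  match C.gate i with
  | .leaf S _ => S
  | .affine E => E.foldr (fun t S => t.1 ∪ S) ∅
  | .neg j => C.vars j
  | .and j k => C.vars j ∪ C.vars k
  | .or j k => C.vars j ∪ C.vars k
  | .ite S _ j k => S ∪ (C.vars j ∪ C.vars k)
termination_by i
decreasing_by all_goals exact Fin.isLt _

/-- The circuit is a (generalised) d-D circuit: in a leaf `leaf S f` or a decision gate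
`ite S f j k` the function `f` is any Boolean function of the variables in `S`, with `|S|` at most
two thirds of the number of variables, and `S` is disjoint from the variables below `j` and `k`; the
two inputs of an AND gate have disjoint sets of variables; the two inputs of an OR gate have
disjoint sets of variables or are never both true. -/
structure IsDD [Fintype V] [DecidableEq V] (C : Circuit V) : Prop where
  leaf : ∀ i ≤ C.top, ∀ S f, C.gate i = .leaf S f →
    (∀ x y, (∀ v ∈ S, x v = y v) → f x = f y) ∧ 3 * S.card ≤ 2 * Fintype.card V
  and : ∀ i ≤ C.top, ∀ j k, C.gate i = .and j k → Disjoint (C.vars j) (C.vars k)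
  or : ∀ i ≤ C.top, ∀ j k, C.gate i = .or j k →
    Disjoint (C.vars j) (C.vars k) ∨ ∀ x, ¬ (C.val x j = true ∧ C.val x k = true)
  ite : ∀ i ≤ C.top, ∀ S f j k, C.gate i = .ite S f j k →
    (∀ x y, (∀ v ∈ S, x v = y v) → f x = f y) ∧ 3 * S.card ≤ 2 * Fintype.card V ∧
      Disjoint S (C.vars j) ∧ Disjoint S (C.vars k)

/-- The alternation depth of gate `i` with sign `b`: walking down from gate `i` with a sign, `b` at
first, a NOT gate flips the sign, and an OR gate whose inputs do not have disjoint sets of variables
sets the sign to `true` at the cost `1` if it was `false`; the alternation depth is the largest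
possible total cost. -/
def altDepth [DecidableEq V] (C : Circuit V) (i : ℕ) (b : Bool) : ℕ :=
  match C.gate i with
  | .leaf _ _ => 0
  | .affine _ => 0
  | .neg j => C.altDepth j (!b)
  | .and j k => max (C.altDepth j b) (C.altDepth k b)
  | .or j k =>
    if Disjoint (C.vars j) (C.vars k) then max (C.altDepth j b) (C.altDepth k b)
    else max (C.altDepth j true) (C.altDepth k true) + (if b = true then 0 else 1)
  | .ite _ _ j k => max (C.altDepth j b) (C.altDepth k b)
termination_by i
decreasing_by all_goals exact Fin.isLt _

/-- Gate `i` is a NOT gate. -/
def isNeg (C : Circuit V) (i : ℕ) : Bool :=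
  match C.gate i with
  | .neg _ => true
  | _ => false

/-- The number of NOT gates among the gates `0, …, i`. -/
def negCount (C : Circuit V) (i : ℕ) : ℕ :=
  ((Finset.range (i + 1)).filter fun l => C.isNeg l = true).card

/-- The largest number of NOT gates on a path from gate `i` downwards. -/
def negDepth (C : Circuit V) (i : ℕ) : ℕ :=
  match C.gate i with
  | .leaf _ _ => 0
  | .affine _ => 0
  | .neg j => C.negDepth j + 1
  | .and j k => max (C.negDepth j) (C.negDepth k)
  | .or j k => max (C.negDepth j) (C.negDepth k)
  | .ite _ _ j k => max (C.negDepth j) (C.negDepth k)
termination_by i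
decreasing_by all_goals exact Fin.isLt _

/-- The number of NOT gates in the formula (tree) obtained by unfolding the circuit below gate
`i`. -/
def negUnfold (C : Circuit V) (i : ℕ) : ℕ :=
  match C.gate i with
  | .leaf _ _ => 0
  | .affine _ => 0
  | .neg j => C.negUnfold j + 1
  | .and j k => C.negUnfold j + C.negUnfold k
  | .or j k => C.negUnfold j + C.negUnfold k
  | .ite _ _ j k => C.negUnfold j + C.negUnfold k
termination_by i
decreasing_by all_goals exact Fin.isLt _

end Circuit

end Pool.Agent.DD
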