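import Pool.Agent.DD.Functional

/-!
The functional takes the value one on the `3`-CNF.
-/

namespace Pool.Agent.DD

open Finset

variable {m : ℕ}

/-- Two edges share a vertex. -/
def Touch (e f : Edge m) : Prop := ∃ c, e c = f c

/-- Some edge of `H` touches both `e` and `f`. -/
def Conf (H : List (Edge m)) (e f : Edge m) : Prop := ∃ g ∈ H, Touch g e ∧ Touch g f

theorem Conf.symm {H : List (Edge m)} {e f : Edge m} (h : Conf H e f) : Conf H f e := by
  obtain ⟨g, hg, h1, h2⟩ := h
  exact ⟨g, hg, h2, h1⟩

open Classical in
/-- The CNF of `H` as a real-valued function. -/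
noncomputable def phi (H : List (Edge m)) (x : Vert m → Bool) : ℝ :=
  if ∀ e ∈ H, ∃ c, x (c, e c) = true then 1 else 0

open Classical in
/-- Overwrite `x` by `z` on all vertices of edges of `U`. -/
noncomputable def ovr (U : List (Edge m)) (z x : Vert m → Bool) : Vert m → Bool :=
  fun v => if ∃ f ∈ U, v.2 = f v.1 then z v else x v

theorem ovr_cons {U : List (Edge m)} {e : Edge m} (hU : ∀ f ∈ U, ¬ Touch e f)
    (u : Fin 3 → Bool) (z x : Vert m → Bool) :
    ovr U z (upd e u x) = ovr (e :: U) (upd e u z) x := by
  funext v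
  unfold ovr upd
  by_cases h1 : ∃ f ∈ U, v.2 = f v.1
  · have h2 : ∃ f ∈ e :: U, v.2 = f v.1 := by
      obtain ⟨f, hf, hv⟩ := h1
      exact ⟨f, List.mem_cons_of_mem _ hf, hv⟩
    have h3 : ¬ v.2 = e v.1 := by
      obtain ⟨f, hf, hv⟩ := h1
      intro h3
      exact hU f hf ⟨v.1, by rw [← h3, hv]⟩
    rw [if_pos h1, if_pos h2, if_neg h3]
  · rw [if_neg h1]
    by_cases h3 : v.2 = e v.1
    · have h2 : ∃ f ∈ e :: U, v.2 = f v.1 := ⟨e, by simp, h3⟩
      rw [if_pos h2, if_pos h3, if_pos h3]
    · have h2 : ¬ ∃ f ∈ e :: U, v.2 = f v.1 := by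
        rintro ⟨f, hf, hv⟩
        rcases List.mem_cons.mp hf with rfl | hf
        · exact h3 hv
        · exact h1 ⟨f, hf, hv⟩
      rw [if_neg h2, if_neg h3]

/-- Substituting a nonzero pattern does not change the value. -/
theorem phi_ovr_of_ne {H U : List (Edge m)} {e : Edge m} (he : e ∈ H)
    (hU : ∀ f ∈ U, ¬ Conf H e f) (u : Fin 3 → Bool) (hu : u ≠ fun _ => false)
    (z : Vert m → Bool) :
    phi H (ovr U z (upd e u fun _ => true)) = phi H (ovr U z fun _ => true) := by
  have key : ∀ g ∈ H, (∃ c, ovr U z (upd e u fun _ => true) (c, g c) = true) ↔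
      ∃ c, ovr U z (fun _ => true) (c, g c) = true := by
    intro g hg
    by_cases hge : Touch g e
    · have hgU : ∀ f ∈ U, ¬ Touch g f := fun f hf h => hU f hf ⟨g, hg, hge, h⟩
      have hout : ∀ c x, ovr U z x (c, g c) = x (c, g c) := by
        intro c x
        unfold ovr
        rw [if_neg]
        rintro ⟨f, hf, hv⟩
        exact hgU f hf ⟨c, hv⟩
      simp only [hout]
      constructor
      · intro _
        exact ⟨0, trivial⟩
      · intro _
        by_cases hgeq : g = e
        · subst hgeq
          have : ∃ c, u c = true := by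
            by_contra hcon
            apply hu
            funext c
            by_contra hc
            exact hcon ⟨c, by simpa using hc⟩
          obtain ⟨c, hc⟩ := this
          exact ⟨c, by simp [upd, hc]⟩
        · have : ∃ c, g c ≠ e c := by
            by_contra hcon
            push Not at hcon
            exact hgeq (funext hcon)
          obtain ⟨c, hc⟩ := this
          exact ⟨c, by simp [upd, hc]⟩
    · have hout : ∀ c, ovr U z (upd e u fun _ => true) (c, g c) =
          ovr U z (fun _ => true) (c, g c) := by
        intro c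
        have : upd e u (fun _ => true) (c, g c) = true := by
          unfold upd
          rw [if_neg]
          intro h
          exact hge ⟨c, h⟩
        unfold ovr
        split_ifs
        · rfl
        · exact this
      simp only [hout]
  unfold phi
  have : (∀ g ∈ H, ∃ c, ovr U z (upd e u fun _ => true) (c, g c) = true) ↔
      ∀ g ∈ H, ∃ c, ovr U z (fun _ => true) (c, g c) = true :=
    forall₂_congr key
  simp only [this]

/-- Substituting the zero pattern gives zero. -/
theorem phi_ovr_zero {H U : List (Edge m)} {e : Edge m} (he : e ∈ H)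
    (hU : ∀ f ∈ U, ¬ Touch e f) (z x : Vert m → Bool) :
    phi H (ovr U z (upd e (fun _ => false) x)) = 0 := by
  unfold phi
  rw [if_neg]
  intro h
  obtain ⟨c, hc⟩ := h e he
  have : ovr U z (upd e (fun _ => false) x) (c, e c) = false := by
    unfold ovr
    rw [if_neg]
    · simp [upd]
    · rintro ⟨f, hf, hv⟩
      exact hU f hf ⟨c, hv⟩
  rw [this] at hc
  simp at hc

theorem Lam_phi_ovr (H : List (Edge m)) (p : ℝ) : ∀ (L U : List (Edge m)) (z : Vert m → Bool),
    (∀ e ∈ L, e ∈ H) →
    Lam (fun _ => w0) p (Conf H) L U (fun x => phi H (ovr U z x)) =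
      phi H (ovr U z fun _ => true) := by
  intro L
  induction L with
  | nil => intro U z _; rfl
  | cons e L ih =>
    intro U z hL
    have heH : e ∈ H := hL e (by simp)
    have hL' : ∀ e ∈ L, e ∈ H := fun f hf => hL f (List.mem_cons_of_mem _ hf)
    by_cases hU : ∀ f ∈ U, ¬ Conf H e f
    · have hT : ∀ f ∈ U, ¬ Touch e f := fun f hf h => hU f hf ⟨e, heH, ⟨0, rfl⟩, h⟩
      rw [Lam_cons_of_avail hU, ih U z hL']
      have h1 : ∀ u : Fin 3 → Bool, w0 u * Lam (fun _ => w0) p (Conf H) L (e :: U)
          (fun x => phi H (ovr U z (upd e u x))) =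
          (if u = (fun _ => false) then 0 else 1 / 7) * phi H (ovr U z fun _ => true) := by
        intro u
        by_cases hu : u = fun _ => false
        · subst hu
          simp only [phi_ovr_zero heH hT, if_true, zero_mul]
          have : (fun _ : Vert m → Bool => (0 : ℝ)) = 0 := rfl
          rw [this, map_zero, mul_zero]
        · rw [if_neg hu, w0_of_ne hu]
          congr 1
          have h2 : (fun x => phi H (ovr U z (upd e u x))) =
              fun x => phi H (ovr (e :: U) (upd e u z) x) := by
            funext x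
            rw [ovr_cons hT]
          rw [h2, ih (e :: U) (upd e u z) hL', ← ovr_cons hT,
            phi_ovr_of_ne heH hU u hu]
      simp only [h1]
      rw [← Finset.sum_mul]
      have h2 : ∑ u : Fin 3 → Bool, (if u = (fun _ => false) then (0 : ℝ) else 1 / 7) = 1 := by
        have : ∀ u : Fin 3 → Bool, (if u = (fun _ => false) then (0 : ℝ) else 1 / 7) =
            1 / 7 + (if u = (fun _ => false) then -(1 / 7) else 0) := by
          intro u
          split_ifs <;> norm_num
        simp_rw [this]
        rw [Finset.sum_add_distrib, Finset.sum_ite_eq' Finset.univ (fun _ => false)]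
        simp
        norm_num
      rw [h2]
      ring
    · rw [Lam_cons_of_not_avail hU]
      exact ih U z hL'

/-- The functional is `1` on the CNF. -/
theorem Lam_phi (H : List (Edge m)) (p : ℝ) (L : List (Edge m)) (hL : ∀ e ∈ L, e ∈ H) :
    Lam (fun _ => w0) p (Conf H) L [] (phi H) = 1 := by
  have h1 := Lam_phi_ovr H p L [] (fun _ => true) hL
  have h2 : ∀ x : Vert m → Bool, ovr [] (fun _ => true) x = x := by
    intro x
    funext v
    simp [ovr]
  simp only [h2] at h1
  have h3 : phi H (fun _ => true) = 1 := by
    unfold phi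
    rw [if_pos]
    intro e _
    exact ⟨0, rfl⟩
  rw [h3] at h1
  exact h1

end Pool.Agent.DD
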