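import Pool.Agent.DD.Hyper

/-!
The dual functional: value one on a CNF, exponentially small on balanced rectangles.
-/

namespace Pool.Agent.DD

open Finset

variable {m : ℕ}

open Classical in
theorem Zsum_nil (S : Finset (Vert m)) (conf : Edge m → Edge m → Prop) (L : List (Edge m)) :
    Zsum S conf L [] = (((L.countP fun e => decide (¬ Cross S e) : ℕ) : ℝ) -
      ((L.countP fun e => decide (Cross S e) : ℕ) : ℝ)) / 21 := by
  induction L with
  | nil => simp [Zsum]
  | cons e L ih =>
    have h1 : Zsum S conf (e :: L) [] = (if Cross S e then -(1 / 21) else 1 / 21 : ℝ) +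
        Zsum S conf L [] := by
      simp [Zsum]
    rw [h1, ih, List.countP_cons, List.countP_cons]
    by_cases hc : Cross S e
    · simp [hc]
      ring
    · simp [hc]
      ring

theorem Dep.mono {V α : Type} {h : (V → Bool) → α} {S T : Finset V} (hh : Dep h S)
    (hST : S ⊆ T) : Dep h T := fun x y hxy => hh x y fun v hv => hxy v (hST hv)

/-- The dual functional. -/
theorem exists_dual : ∃ (c : ℝ) (Δ : ℕ), 0 < c ∧ ∀ m : ℕ, 0 < m → ∃ (L : List (Edge m))
    (Λ : ((Vert m → Bool) → ℝ) →ₗ[ℝ] ℝ), L.length ≤ 320 * m ∧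
    (∀ v : Vert m, (L.countP fun e => decide (e v.1 = v.2)) ≤ Δ) ∧ Λ (phi L) = 1 ∧
    ∀ (A B : Finset (Vert m)) (a b : (Vert m → Bool) → ℝ), Disjoint A B →
      A.card ≤ 2 * m → B.card ≤ 2 * m → Dep a A → Dep b B → (∀ x, |a x| ≤ 1) →
      (∀ x, |b x| ≤ 1) → |Λ (a * b)| ≤ Real.exp (-(c * m)) := by
  classical
  obtain ⟨Δ, hΔ, hyp⟩ := exists_hyper
  have hΔR : (0 : ℝ) < Δ := by exact_mod_cast hΔ
  set p : ℝ := 1 / (100 * Δ) with hp
  have hp0 : 0 < p := by positivity
  have hp1 : p ≤ 1 := by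
    rw [hp, div_le_one (by positivity)]
    have : (1 : ℝ) ≤ Δ := by exact_mod_cast hΔ
    linarith
  refine ⟨p, Δ, hp0, fun m hm => ?_⟩
  obtain ⟨L, hL, hconf, hcross⟩ := hyp m hm
  refine ⟨L, Lam (fun _ => w0) p (Conf L) L [], hL, ?_, Lam_phi L p L (fun _ h => h), ?_⟩
  · intro v
    by_cases hv : ∃ e ∈ L, e v.1 = v.2
    · obtain ⟨e, he, hev⟩ := hv
      refine le_trans (List.countP_mono_left fun f _ hf => ?_) (hconf e he)
      rw [decide_eq_true_eq] at hf ⊢
      exact ⟨e, he, ⟨v.1, by rw [hev, hf]⟩, ⟨0, rfl⟩⟩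
    · have : (L.countP fun e => decide (e v.1 = v.2)) = 0 := by
        rw [List.countP_eq_zero]
        intro e he h
        exact hv ⟨e, he, by simpa using h⟩
      rw [this]
      exact Nat.zero_le _
  intro A B a b hAB hA hB ha hb ha1 hb1
  -- a balanced set separating the supports
  have hcardV : (univ : Finset (Vert m)).card = 3 * m := by simp
  have hABc : A ⊆ Bᶜ := by
    intro v hv
    rw [mem_compl]
    exact fun h => (Finset.disjoint_left.mp hAB) hv h
  have hBc : (Bᶜ).card = 3 * m - B.card := by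
    rw [Finset.card_compl]
    simp
  obtain ⟨S, hAS, hSB, hSc⟩ := Finset.exists_subsuperset_card_eq hABc
    (n := max m A.card) (le_max_right _ _) (by
      have := Finset.card_le_card hABc
      rw [hBc] at this ⊢
      omega)
  have hBS : B ⊆ Sᶜ := by
    intro v hv
    rw [mem_compl]
    intro h
    have := hSB h
    rw [mem_compl] at this
    exact this hv
  have h1 := abs_Lam_le (S := S) (conf := Conf L) hp0.le hp1 L [] a b (ha.mono hAS)
    (hb.mono hBS) ha1 hb1
  refine h1.trans ?_
  have hx : Real.exp (p * (Δ / 21)) - 1 ≤ 2 / 2100 := by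
    have e1 : p * (Δ / 21) = 1 / 2100 := by
      rw [hp]; field_simp; norm_num
    rw [e1]
    have := Real.abs_exp_sub_one_le (x := 1 / 2100) (by rw [abs_of_pos (by norm_num)]; norm_num)
    rw [abs_of_pos (show (0 : ℝ) < 1 / 2100 by norm_num)] at this
    have h2 := (abs_le.mp this).2
    linarith
  have h2 := Gam_one_le (S := S) (conf := Conf L) hp0.le hp1 Δ (p * (22 / 21) * (2 / 2100))
    (mul_le_mul_of_nonneg_left hx (by positivity)) L [] (by
      intro e he
      convert hconf e he)
  refine h2.trans (Real.exp_le_exp.mpr ?_)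
  have hcr := hcross S (by rw [hSc]; exact le_max_left _ _) (by
    rw [hSc]
    omega)
  rw [Zsum_nil]
  have hcr' : ((L.countP fun e => decide (¬ Cross S e) : ℕ) : ℝ) + 48 * m ≤
      ((L.countP fun e => decide (Cross S e) : ℕ) : ℝ) := by exact_mod_cast hcr
  have hL' : (L.length : ℝ) ≤ 320 * m := by exact_mod_cast hL
  have hm' : (0 : ℝ) < m := by exact_mod_cast hm
  set u : ℝ := ((L.countP fun e => decide (¬ Cross S e) : ℕ) : ℝ)
  set v : ℝ := ((L.countP fun e => decide (Cross S e) : ℕ) : ℝ)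
  have h3 : (u - v) / 21 ≤ -(48 * m) / 21 := by
    have : u - v ≤ -(48 * m) := by linarith
    linarith
  have h4 : p * ((u - v) / 21) ≤ p * (-(48 * m) / 21) := mul_le_mul_of_nonneg_left h3 hp0.le
  have h5 : p * (22 / 21) * (2 / 2100) * L.length ≤ p * (22 / 21) * (2 / 2100) * (320 * m) :=
    mul_le_mul_of_nonneg_left hL' (by positivity)
  have h6 : p * (-(48 * m) / 21) + p * (22 / 21) * (2 / 2100) * (320 * m) ≤ -(p * m) := by
    have : 0 < p * m := by positivity
    nlinarith
  linarith

end Pool.Agent.DD
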