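import Mathlib

/-!
A signed functional on the functions of `3m` Boolean variables which is `1` on a `3`-CNF and tiny on
all balanced rectangles.
-/

namespace Pool.Agent.DD

open Finset

/-- Hyperedges: one vertex in each of the three classes. -/
abbrev Edge (m : ℕ) : Type := Fin 3 → Fin m

/-- Variables. -/
abbrev Vert (m : ℕ) : Type := Fin 3 × Fin m

/-- Overwrite `x` on the edge `e` by the pattern `u`. -/
def upd {m : ℕ} (e : Edge m) (u : Fin 3 → Bool) (x : Vert m → Bool) : Vert m → Bool :=
  fun v => if v.2 = e v.1 then u v.1 else x v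

open Classical in
/-- The functional. -/
noncomputable def Lam {m : ℕ} (w : Edge m → (Fin 3 → Bool) → ℝ) (p : ℝ)
    (conf : Edge m → Edge m → Prop) :
    List (Edge m) → List (Edge m) → (((Vert m → Bool) → ℝ) →ₗ[ℝ] ℝ)
  | [], _ => LinearMap.proj (fun _ => true)
  | e :: L, U => if ∀ f ∈ U, ¬ conf e f then
      (1 - p) • Lam w p conf L U +
        p • ∑ u : Fin 3 → Bool, w e u • (Lam w p conf L (e :: U)).comp
          (LinearMap.funLeft ℝ ℝ (upd e u))
      else Lam w p conf L U

variable {m : ℕ} {w : Edge m → (Fin 3 → Bool) → ℝ} {p : ℝ} {conf : Edge m → Edge m → Prop}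

theorem Lam_nil (U : List (Edge m)) (h : (Vert m → Bool) → ℝ) :
    Lam w p conf [] U h = h (fun _ => true) := rfl

theorem Lam_cons_of_avail {e : Edge m} {L U : List (Edge m)} (hU : ∀ f ∈ U, ¬ conf e f)
    (h : (Vert m → Bool) → ℝ) :
    Lam w p conf (e :: L) U h = (1 - p) * Lam w p conf L U h +
      p * ∑ u : Fin 3 → Bool, w e u * Lam w p conf L (e :: U) (fun x => h (upd e u x)) := by
  rw [Lam, if_pos hU]
  simp only [LinearMap.add_apply, LinearMap.smul_apply, LinearMap.sum_apply, smul_eq_mul,
    LinearMap.comp_apply]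
  rfl

theorem Lam_cons_of_not_avail {e : Edge m} {L U : List (Edge m)} (hU : ¬ ∀ f ∈ U, ¬ conf e f)
    (h : (Vert m → Bool) → ℝ) :
    Lam w p conf (e :: L) U h = Lam w p conf L U h := by
  rw [Lam, if_neg hU]

/-- The basic weights. -/
noncomputable def w0 (u : Fin 3 → Bool) : ℝ := if u = fun _ => false then -(1 / 21) else 1 / 7

/-- `e` crosses `S`. -/
def Cross (S : Finset (Vert m)) (e : Edge m) : Prop :=
  (∃ c, (c, e c) ∈ S) ∧ (∃ c, (c, e c) ∉ S)

open Classical in
/-- Weights adapted to `S`. -/
noncomputable def wS (S : Finset (Vert m)) (e : Edge m) (u : Fin 3 → Bool) : ℝ :=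
  if Cross S e then w0 u else |w0 u|

/-- `h` depends only on the coordinates in `S`. -/
def Dep {V α : Type} (h : (V → Bool) → α) (S : Finset V) : Prop :=
  ∀ x y, (∀ v ∈ S, x v = y v) → h x = h y

theorem Dep.comp_upd {α : Type} {h : (Vert m → Bool) → α} {S : Finset (Vert m)} (hh : Dep h S)
    (e : Edge m) (u : Fin 3 → Bool) : Dep (fun x => h (upd e u x)) S := by
  intro x y hxy
  apply hh
  intro v hv
  unfold DD.upd
  split_ifs
  · rfl
  · exact hxy v hv

theorem Dep.upd_eq {α : Type} {h : (Vert m → Bool) → α} {S : Finset (Vert m)} (hh : Dep h S)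
    (e : Edge m) (u u' : Fin 3 → Bool) (huu : ∀ c, (c, e c) ∈ S → u c = u' c) :
    (fun x => h (upd e u x)) = fun x => h (upd e u' x) := by
  funext x
  apply hh
  intro v hv
  unfold DD.upd
  split_ifs with h1
  · apply huu
    rw [← h1]
    exact hv
  · rfl

theorem quad_identity {X : Type} (Γ Λ : (X → ℝ) →ₗ[ℝ] ℝ) (a0 a1 b0 b1 : X → ℝ)
    (hq : ∀ a b : X → ℝ, (a = a0 + a1 ∨ a = a1 + a1 ∨ a = a0 - a1) →
      (b = b1 + b1 ∨ b = b1 + b0 ∨ b = b1 - b0) →
      0 ≤ (Γ (a * a) + Γ (b * b)) / 2 - Λ (a * b)) :
    (Γ (a0 * a0) + Γ (b0 * b0)) / 2 - Λ (a0 * b0) ≤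
      3 * (((Γ (a0 * a0) + Γ (b1 * b1)) / 2 - Λ (a0 * b1)) +
        ((Γ (a1 * a1) + Γ (b1 * b1)) / 2 - Λ (a1 * b1)) +
        ((Γ (a1 * a1) + Γ (b0 * b0)) / 2 - Λ (a1 * b0))) := by
  have h1 := hq (a0 + a1) (b1 + b1) (by tauto) (by tauto)
  have h2 := hq (a1 + a1) (b1 + b0) (by tauto) (by tauto)
  have h3 := hq (a0 - a1) (b1 - b0) (by tauto) (by tauto)
  have c1 : a1 * a0 = a0 * a1 := mul_comm _ _
  have c2 : b1 * b0 = b0 * b1 := mul_comm _ _
  simp only [add_mul, mul_add, sub_mul, mul_sub, map_add, map_sub, c1, c2] at h1 h2 h3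
  linarith

theorem sum_w0 : ∑ u : Fin 3 → Bool, w0 u = 20 / 21 := by
  have h : ∀ u : Fin 3 → Bool, w0 u = 1 / 7 + (if u = (fun _ => false) then -(4 / 21) else 0) := by
    intro u
    unfold w0
    split_ifs <;> norm_num
  simp_rw [h]
  rw [Finset.sum_add_distrib, Finset.sum_ite_eq' Finset.univ (fun _ => false)]
  simp
  norm_num

theorem sum_abs_w0 : ∑ u : Fin 3 → Bool, |w0 u| = 22 / 21 := by
  have h : ∀ u : Fin 3 → Bool, |w0 u| = 1 / 7 + (if u = (fun _ => false) then -(2 / 21) else 0) := by
    intro u
    unfold w0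
    split_ifs
    · rw [abs_neg, abs_of_pos (by norm_num)]; norm_num
    · rw [abs_of_pos (by norm_num)]; norm_num
  simp_rw [h]
  rw [Finset.sum_add_distrib, Finset.sum_ite_eq' Finset.univ (fun _ => false)]
  simp
  norm_num

theorem w0_of_ne {u : Fin 3 → Bool} (h : u ≠ fun _ => false) : w0 u = 1 / 7 := by
  unfold w0
  rw [if_neg h]

theorem w0_zero : w0 (fun _ => false) = -(1 / 21) := by
  unfold w0
  rw [if_pos rfl]

/-- Crossing sum, one good pattern. -/
theorem sum_w0_mul_nonneg1 (G : (Fin 3 → Bool) → ℝ) (hG : ∀ u, 0 ≤ G u) (u1 : Fin 3 → Bool)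
    (h1 : u1 ≠ fun _ => false) (h : G (fun _ => false) ≤ G u1) :
    0 ≤ ∑ u : Fin 3 → Bool, w0 u * G u := by
  have e1 : ∑ u : Fin 3 → Bool, w0 u * G u = w0 (fun _ => false) * G (fun _ => false) +
      ∑ u ∈ Finset.univ.erase (fun _ => false), w0 u * G u := by
    rw [Finset.add_sum_erase _ (fun u => w0 u * G u) (Finset.mem_univ _)]
  have e2 : w0 u1 * G u1 ≤ ∑ u ∈ Finset.univ.erase (fun _ => false), w0 u * G u := by
    refine Finset.single_le_sum (f := fun u => w0 u * G u) ?_ ?_
    · intro u hu
      have hu' : u ≠ fun _ => false := (Finset.mem_erase.mp hu).1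
      simp only [w0_of_ne hu']
      have := hG u
      positivity
    · exact Finset.mem_erase.mpr ⟨h1, Finset.mem_univ _⟩
  rw [e1, w0_zero]
  rw [w0_of_ne h1] at e2
  have := hG u1
  linarith

/-- Crossing sum, three good patterns. -/
theorem sum_w0_mul_nonneg3 (G : (Fin 3 → Bool) → ℝ) (hG : ∀ u, 0 ≤ G u) (u1 u2 u3 : Fin 3 → Bool)
    (h1 : u1 ≠ fun _ => false) (h2 : u2 ≠ fun _ => false) (h3 : u3 ≠ fun _ => false)
    (h12 : u1 ≠ u2) (h13 : u1 ≠ u3) (h23 : u2 ≠ u3)
    (h : G (fun _ => false) ≤ 3 * (G u1 + G u2 + G u3)) :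
    0 ≤ ∑ u : Fin 3 → Bool, w0 u * G u := by
  have e1 : ∑ u : Fin 3 → Bool, w0 u * G u = w0 (fun _ => false) * G (fun _ => false) +
      ∑ u ∈ Finset.univ.erase (fun _ => false), w0 u * G u := by
    rw [Finset.add_sum_erase _ (fun u => w0 u * G u) (Finset.mem_univ _)]
  have e2 : ∑ u ∈ ({u1, u2, u3} : Finset (Fin 3 → Bool)), w0 u * G u ≤
      ∑ u ∈ Finset.univ.erase (fun _ => false), w0 u * G u := by
    refine Finset.sum_le_sum_of_subset_of_nonneg ?_ ?_
    · intro u hu
      simp only [Finset.mem_insert, Finset.mem_singleton] at hu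
      rcases hu with rfl | rfl | rfl <;> simp_all
    · intro u hu _
      have hu' : u ≠ fun _ => false := (Finset.mem_erase.mp hu).1
      simp only [w0_of_ne hu']
      have := hG u
      positivity
  rw [Finset.sum_insert (by simp [h12, h13]), Finset.sum_insert (by simp [h23]),
    Finset.sum_singleton, w0_of_ne h1, w0_of_ne h2, w0_of_ne h3] at e2
  rw [e1, w0_zero]
  linarith

section Bound

variable {S : Finset (Vert m)}

/-- Positivity of the majorant on functions of one side. -/
theorem Gam_nonneg (hp0 : 0 ≤ p) (hp1 : p ≤ 1) : ∀ (L U : List (Edge m))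
    (h : (Vert m → Bool) → ℝ), (∀ x, 0 ≤ h x) → (Dep h S ∨ Dep h Sᶜ) →
    0 ≤ Lam (wS S) p conf L U h := by
  intro L
  induction L with
  | nil => intro U h hh _; exact hh _
  | cons e L ih =>
    intro U h hh hd
    by_cases hU : ∀ f ∈ U, ¬ conf e f
    · rw [Lam_cons_of_avail hU]
      have hG : ∀ u, 0 ≤ Lam (wS S) p conf L (e :: U) (fun x => h (upd e u x)) := by
        intro u
        refine ih (e :: U) _ (fun x => hh _) ?_
        rcases hd with hd | hd
        · exact Or.inl (hd.comp_upd e u)
        · exact Or.inr (hd.comp_upd e u)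
      have h1 := ih U h hh hd
      have h2 : 0 ≤ ∑ u : Fin 3 → Bool, wS S e u *
          Lam (wS S) p conf L (e :: U) (fun x => h (upd e u x)) := by
        by_cases hc : Cross S e
        · simp only [wS, if_pos hc]
          rcases hd with hd | hd
          · obtain ⟨_, c, hc2⟩ := hc
            refine sum_w0_mul_nonneg1 (fun u => Lam (wS S) p conf L (e :: U)
              (fun x => h (upd e u x))) hG (fun c => decide ((c, e c) ∉ S)) ?_ ?_
            · intro h0
              have := congrFun h0 c
              simp [hc2] at this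
            · refine le_of_eq ?_
              congr 1
              refine hd.upd_eq e _ _ ?_
              intro c' hc'
              simp [hc']
          · obtain ⟨⟨c, hc1⟩, _⟩ := hc
            refine sum_w0_mul_nonneg1 (fun u => Lam (wS S) p conf L (e :: U)
              (fun x => h (upd e u x))) hG (fun c => decide ((c, e c) ∈ S)) ?_ ?_
            · intro h0
              have := congrFun h0 c
              simp [hc1] at this
            · refine le_of_eq ?_
              congr 1
              refine hd.upd_eq e _ _ ?_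
              intro c' hc'
              have : (c', e c') ∉ S := by simpa using hc'
              simp [this]
        · simp only [wS, if_neg hc]
          exact Finset.sum_nonneg fun u _ => mul_nonneg (abs_nonneg _) (hG u)
      have h3 : 0 ≤ 1 - p := by linarith
      positivity
    · rw [Lam_cons_of_not_avail hU]
      exact ih U h hh hd

/-- The main inequality. -/
theorem Lam_le_Gam (hp0 : 0 ≤ p) (hp1 : p ≤ 1) : ∀ (L U : List (Edge m))
    (a b : (Vert m → Bool) → ℝ), Dep a S → Dep b Sᶜ →
    0 ≤ (Lam (wS S) p conf L U (a * a) + Lam (wS S) p conf L U (b * b)) / 2 -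
      Lam (fun _ => w0) p conf L U (a * b) := by
  intro L
  induction L with
  | nil =>
    intro U a b _ _
    simp only [Lam_nil, Pi.mul_apply]
    nlinarith [sq_nonneg (a (fun _ => true) - b (fun _ => true))]
  | cons e L ih =>
    intro U a b ha hb
    by_cases hU : ∀ f ∈ U, ¬ conf e f
    · rw [Lam_cons_of_avail hU, Lam_cons_of_avail hU, Lam_cons_of_avail hU]
      have h1 := ih U a b ha hb
      set Γ := Lam (wS S) p conf L (e :: U) with hΓ
      set Λ := Lam (fun _ => w0) p conf L (e :: U) with hΛ
      let A : (Fin 3 → Bool) → (Vert m → Bool) → ℝ := fun u x => a (upd e u x)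
      let B : (Fin 3 → Bool) → (Vert m → Bool) → ℝ := fun u x => b (upd e u x)
      have hA : ∀ u, Dep (A u) S := fun u => ha.comp_upd e u
      have hB : ∀ u, Dep (B u) Sᶜ := fun u => hb.comp_upd e u
      have eA : ∀ u, (fun x => (a * a) (upd e u x)) = A u * A u := fun u => rfl
      have eB : ∀ u, (fun x => (b * b) (upd e u x)) = B u * B u := fun u => rfl
      have eAB : ∀ u, (fun x => (a * b) (upd e u x)) = A u * B u := fun u => rfl
      simp only [eA, eB, eAB]
      have hq : ∀ a b : (Vert m → Bool) → ℝ, Dep a S → Dep b Sᶜ →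
          0 ≤ (Γ (a * a) + Γ (b * b)) / 2 - Λ (a * b) := fun a b ha hb => ih (e :: U) a b ha hb
      have h2 : 0 ≤ ∑ u : Fin 3 → Bool, ((wS S e u * Γ (A u * A u) +
          wS S e u * Γ (B u * B u)) / 2 - w0 u * Λ (A u * B u)) := by
        by_cases hc : Cross S e
        · simp only [wS, if_pos hc]
          have e1 : ∀ u, (w0 u * Γ (A u * A u) + w0 u * Γ (B u * B u)) / 2 -
              w0 u * Λ (A u * B u) = w0 u * ((Γ (A u * A u) + Γ (B u * B u)) / 2 -
                Λ (A u * B u)) := by intro u; ring
          simp only [e1]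
          obtain ⟨⟨c1, hc1⟩, c2, hc2⟩ := hc
          let u1 : Fin 3 → Bool := fun c => decide ((c, e c) ∉ S)
          let u2 : Fin 3 → Bool := fun _ => true
          let u3 : Fin 3 → Bool := fun c => decide ((c, e c) ∈ S)
          have v11 : u1 c1 = false := by simp [u1, hc1]
          have v12 : u1 c2 = true := by simp [u1, hc2]
          have v31 : u3 c1 = true := by simp [u3, hc1]
          have v32 : u3 c2 = false := by simp [u3, hc2]
          refine sum_w0_mul_nonneg3 (fun u => (Γ (A u * A u) + Γ (B u * B u)) / 2 -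
            Λ (A u * B u)) (fun u => hq _ _ (hA u) (hB u)) u1 u2 u3 ?_ ?_ ?_ ?_ ?_ ?_ ?_
          · intro h0; rw [h0] at v12; simp at v12
          · intro h0; have := congrFun h0 0; simp [u2] at this
          · intro h0; rw [h0] at v31; simp at v31
          · intro h0; rw [h0] at v11; simp [u2] at v11
          · intro h0; rw [h0, v31] at v11; simp at v11
          · intro h0; rw [← h0] at v32; simp [u2] at v32
          · have a1 : A u1 = A (fun _ => false) := ha.upd_eq e u1 (fun _ => false) (by
              intro c hc; simp [u1, hc])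
            have a3 : A u3 = A u2 := ha.upd_eq e u3 u2 (by
              intro c hc; simp [u2, u3, hc])
            have b1 : B u1 = B u2 := hb.upd_eq e u1 u2 (by
              intro c hc
              have : (c, e c) ∉ S := by simpa using hc
              simp [u1, u2, this])
            have b3 : B u3 = B (fun _ => false) := hb.upd_eq e u3 (fun _ => false) (by
              intro c hc
              have : (c, e c) ∉ S := by simpa using hc
              simp [u3, this])
            simp only [a1, a3, b1, b3]
            refine quad_identity Γ Λ (A fun _ => false) (A u2) (B fun _ => false) (B u2) ?_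
            intro a' b' ha' hb'
            refine hq a' b' ?_ ?_
            · rcases ha' with rfl | rfl | rfl
              · intro x y hxy
                simp only [Pi.add_apply, hA _ x y hxy]
              · intro x y hxy
                simp only [Pi.add_apply, hA _ x y hxy]
              · intro x y hxy
                simp only [Pi.sub_apply, hA _ x y hxy]
            · rcases hb' with rfl | rfl | rfl
              · intro x y hxy
                simp only [Pi.add_apply, hB _ x y hxy]
              · intro x y hxy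
                simp only [Pi.add_apply, hB _ x y hxy]
              · intro x y hxy
                simp only [Pi.sub_apply, hB _ x y hxy]
        · simp only [wS, if_neg hc]
          refine Finset.sum_nonneg fun u _ => ?_
          have q1 := hq _ _ (hA u) (hB u)
          have q2 := hq (-(A u)) (B u) (by
            intro x y hxy
            simp only [Pi.neg_apply, hA _ x y hxy]) (hB u)
          have e2 : (-(A u)) * (-(A u)) = A u * A u := by ring
          have e3 : (-(A u)) * B u = -(A u * B u) := by ring
          rw [e2, e3, map_neg] at q2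
          rcases abs_cases (w0 u) with ⟨h, h'⟩ | ⟨h, h'⟩
          · rw [h]; nlinarith
          · rw [h]; nlinarith
      rw [Finset.sum_sub_distrib, ← Finset.sum_div, Finset.sum_add_distrib] at h2
      have h3 : 0 ≤ 1 - p := by linarith
      have h4 := mul_nonneg h3 h1
      have h5 := mul_nonneg hp0 h2
      linarith
    · rw [Lam_cons_of_not_avail hU, Lam_cons_of_not_avail hU, Lam_cons_of_not_avail hU]
      exact ih U a b ha hb

/-- Bound on rectangles. -/
theorem abs_Lam_le (hp0 : 0 ≤ p) (hp1 : p ≤ 1) (L U : List (Edge m))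
    (a b : (Vert m → Bool) → ℝ) (ha : Dep a S) (hb : Dep b Sᶜ) (ha1 : ∀ x, |a x| ≤ 1)
    (hb1 : ∀ x, |b x| ≤ 1) :
    |Lam (fun _ => w0) p conf L U (a * b)| ≤ Lam (wS S) p conf L U 1 := by
  have h1 := Lam_le_Gam (conf := conf) hp0 hp1 L U a b ha hb
  have h2 := Lam_le_Gam (conf := conf) hp0 hp1 L U (-a) b (by
    intro x y hxy
    simp only [Pi.neg_apply, ha x y hxy]) hb
  have e2 : (-a) * (-a) = a * a := by ring
  have e3 : (-a) * b = -(a * b) := by ring
  rw [e2, e3, map_neg] at h2
  have h3 := Gam_nonneg (S := S) (conf := conf) hp0 hp1 L U (1 - a * a) (by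
    intro x
    simp only [Pi.sub_apply, Pi.one_apply, Pi.mul_apply]
    have := abs_le.mp (ha1 x)
    nlinarith) (Or.inl (by
      intro x y hxy
      simp only [Pi.sub_apply, Pi.one_apply, Pi.mul_apply, ha x y hxy]))
  have h4 := Gam_nonneg (S := S) (conf := conf) hp0 hp1 L U (1 - b * b) (by
    intro x
    simp only [Pi.sub_apply, Pi.one_apply, Pi.mul_apply]
    have := abs_le.mp (hb1 x)
    nlinarith) (Or.inr (by
      intro x y hxy
      simp only [Pi.sub_apply, Pi.one_apply, Pi.mul_apply, hb x y hxy]))
  rw [map_sub] at h3 h4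
  rw [abs_le]
  constructor <;> linarith

open Classical in
/-- Sum of the exponents of the available edges. -/
noncomputable def Zsum (S : Finset (Vert m)) (conf : Edge m → Edge m → Prop)
    (L U : List (Edge m)) : ℝ :=
  (L.map fun e => if ∀ f ∈ U, ¬ conf e f then (if Cross S e then -(1 / 21) else 1 / 21 : ℝ)
    else 0).sum

open Classical in
theorem Zsum_cons_le (S : Finset (Vert m)) (e : Edge m) (U : List (Edge m)) :
    ∀ L : List (Edge m), Zsum S conf L (e :: U) ≤
      Zsum S conf L U + (L.countP fun f => decide (conf f e)) / 21 := by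
  intro L
  induction L with
  | nil => simp [Zsum]
  | cons f L ih =>
    have h1 : Zsum S conf (f :: L) (e :: U) = (if ∀ g ∈ e :: U, ¬ conf f g then
        (if Cross S f then -(1 / 21) else 1 / 21 : ℝ) else 0) + Zsum S conf L (e :: U) := by
      simp [Zsum]
    have h2 : Zsum S conf (f :: L) U = (if ∀ g ∈ U, ¬ conf f g then
        (if Cross S f then -(1 / 21) else 1 / 21 : ℝ) else 0) + Zsum S conf L U := by
      simp [Zsum]
    rw [h1, h2, List.countP_cons]
    by_cases hf : conf f e
    · have n1 : ¬ ∀ g ∈ e :: U, ¬ conf f g := by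
        intro h; exact h e (by simp) hf
      rw [if_neg n1]
      simp only [hf, decide_true, if_true, Nat.cast_add, Nat.cast_one]
      split_ifs <;> linarith
    · have n1 : (∀ g ∈ e :: U, ¬ conf f g) ↔ ∀ g ∈ U, ¬ conf f g := by
        simp [hf]
      simp only [n1, hf, decide_false, Nat.cast_add]
      simp only [Bool.false_eq_true, if_false, Nat.cast_zero, add_zero]
      linarith

/-- The majorant of `1` is small. -/
theorem Gam_one_le (hp0 : 0 ≤ p) (hp1 : p ≤ 1) (Δ : ℕ) (η : ℝ)
    (hη : p * (22 / 21) * (Real.exp (p * (Δ / 21)) - 1) ≤ η) : ∀ (L U : List (Edge m)),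
    (∀ e ∈ L, (L.countP fun f => @decide (conf f e) (Classical.dec _)) ≤ Δ) →
    Lam (wS S) p conf L U 1 ≤ Real.exp (p * Zsum S conf L U + η * L.length) := by
  classical
  intro L
  induction L with
  | nil => intro U _; simp [Lam_nil, Zsum]
  | cons e L ih =>
    intro U hΔ
    have hΔ' : ∀ f ∈ L, (L.countP fun g => decide (conf g f)) ≤ Δ := by
      intro f hf
      have h1 := hΔ f (List.mem_cons_of_mem _ hf)
      rw [List.countP_cons] at h1
      omega
    have hη0 : 0 ≤ η := by
      refine le_trans ?_ hη
      have : (1 : ℝ) ≤ Real.exp (p * (Δ / 21)) := by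
        rw [← Real.exp_zero]
        exact Real.exp_le_exp.mpr (by positivity)
      have h2 : 0 ≤ Real.exp (p * (Δ / 21)) - 1 := by linarith
      positivity
    by_cases hU : ∀ f ∈ U, ¬ conf e f
    · rw [Lam_cons_of_avail hU]
      have e1 : ∀ u, (fun x => (1 : (Vert m → Bool) → ℝ) (upd e u x)) = 1 := fun u => rfl
      simp only [e1]
      rw [← Finset.sum_mul]
      have hZ : Zsum S conf (e :: L) U = (if Cross S e then -(1 / 21) else 1 / 21 : ℝ) +
          Zsum S conf L U := by
        simp only [Zsum, List.map_cons, List.sum_cons, if_pos hU]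
      obtain ⟨z, hz, hz1, hz2, hzs⟩ : ∃ z : ℝ, (if Cross S e then -(1 / 21) else 1 / 21 : ℝ) = z ∧
          -(1 / 21) ≤ z ∧ z ≤ 1 / 21 ∧ ∑ u, wS S e u = 1 + z := by
        by_cases hc : Cross S e
        · refine ⟨-(1 / 21), by rw [if_pos hc], le_rfl, by norm_num, ?_⟩
          simp only [wS, if_pos hc, sum_w0]
          norm_num
        · refine ⟨1 / 21, by rw [if_neg hc], by norm_num, le_rfl, ?_⟩
          simp only [wS, if_neg hc, sum_abs_w0]
          norm_num
      rw [hZ, hz, hzs]
      have h1 := ih U hΔ'
      have h2 := ih (e :: U) hΔ'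
      have h3 : Zsum S conf L (e :: U) ≤ Zsum S conf L U + Δ / 21 := by
        refine (Zsum_cons_le S e U L).trans ?_
        have h4 := hΔ e (by simp)
        rw [List.countP_cons] at h4
        have h5 : (L.countP fun f => decide (conf f e)) ≤ Δ := by omega
        have h6 : ((L.countP fun f => decide (conf f e) : ℕ) : ℝ) ≤ Δ := by exact_mod_cast h5
        linarith
      have h4 : Real.exp (p * Zsum S conf L (e :: U) + η * L.length) ≤
          Real.exp (p * Zsum S conf L U + η * L.length) * Real.exp (p * (Δ / 21)) := by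
        rw [← Real.exp_add]
        refine Real.exp_le_exp.mpr ?_
        nlinarith
      set E := Real.exp (p * Zsum S conf L U + η * L.length) with hE
      have hEpos : 0 < E := Real.exp_pos _
      have h5 : Real.exp (p * (z + Zsum S conf L U) + η * (e :: L).length) =
          E * Real.exp (p * z + η) := by
        rw [hE, ← Real.exp_add]
        congr 1
        simp only [List.length_cons, Nat.cast_add, Nat.cast_one]
        ring
      rw [h5]
      have h6 : p * z + η + 1 ≤ Real.exp (p * z + η) := Real.add_one_le_exp _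
      set F := Real.exp (p * (Δ / 21)) with hF
      have hF1 : 1 ≤ F := by
        rw [hF, ← Real.exp_zero]
        exact Real.exp_le_exp.mpr (by positivity)
      have h7 : (1 - p) * Lam (wS S) p conf L U 1 ≤ (1 - p) * E :=
        mul_le_mul_of_nonneg_left h1 (by linarith)
      have h8 : p * ((1 + z) * Lam (wS S) p conf L (e :: U) 1) ≤ p * ((1 + z) * (E * F)) :=
        mul_le_mul_of_nonneg_left (mul_le_mul_of_nonneg_left (h2.trans h4) (by linarith)) hp0
      have h9 : (1 - p) * E + p * ((1 + z) * (E * F)) = E * (1 + p * z + p * (1 + z) * (F - 1)) := by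
        ring
      have h10 : p * (1 + z) * (F - 1) ≤ p * (22 / 21) * (F - 1) := by
        have : 1 + z ≤ 22 / 21 := by linarith
        have h11 : 0 ≤ F - 1 := by linarith
        exact mul_le_mul_of_nonneg_right (mul_le_mul_of_nonneg_left this hp0) h11
      calc (1 - p) * Lam (wS S) p conf L U 1 + p * ((1 + z) * Lam (wS S) p conf L (e :: U) 1)
          ≤ E * (1 + p * z + p * (1 + z) * (F - 1)) := by rw [← h9]; linarith
        _ ≤ E * Real.exp (p * z + η) := by
          refine mul_le_mul_of_nonneg_left ?_ hEpos.le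
          linarith
    · rw [Lam_cons_of_not_avail hU]
      have hZ : Zsum S conf (e :: L) U = Zsum S conf L U := by
        simp only [Zsum, List.map_cons, List.sum_cons, if_neg hU, zero_add]
      rw [hZ]
      refine (ih U hΔ').trans (Real.exp_le_exp.mpr ?_)
      simp only [List.length_cons, Nat.cast_add, Nat.cast_one]
      nlinarith

end Bound

end Pool.Agent.DD
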