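import Pool.Agent.DD.Cnf

/-!
Existence of a sparse tripartite hypergraph that is crossed often by every balanced set of vertices.
-/

namespace Pool.Agent.DD

open Finset

variable {m : ℕ}

theorem arith_cross (M a b c : ℝ) (hM : 0 ≤ M)
    (h1 : M ≤ a + b + c) (h2 : a + b + c ≤ 2 * M) :
    3 * (a * b * c + (M - a) * (M - b) * (M - c)) ≤ M ^ 3 := by
  have e1 : a * b * c + (M - a) * (M - b) * (M - c) =
      M ^ 3 - M ^ 2 * (a + b + c) + M * (a * b + b * c + c * a) := by ring
  have h3 : 3 * (a * b + b * c + c * a) ≤ (a + b + c) ^ 2 := by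
    nlinarith [sq_nonneg (a - b), sq_nonneg (b - c), sq_nonneg (c - a)]
  have h4 : (a + b + c - M) * (a + b + c - 2 * M) ≤ 0 :=
    mul_nonpos_of_nonneg_of_nonpos (by linarith) (by linarith)
  have h5 : M * (3 * (a * b + b * c + c * a)) ≤ M * (a + b + c) ^ 2 :=
    mul_le_mul_of_nonneg_left h3 hM
  have h6 : M * ((a + b + c - M) * (a + b + c - 2 * M)) ≤ 0 :=
    mul_nonpos_of_nonneg_of_nonpos hM h4
  rw [e1]
  nlinarith

open Classical in
theorem card_not_cross (S : Finset (Vert m)) (h1 : m ≤ S.card) (h2 : S.card ≤ 2 * m) :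
    3 * ((univ.filter fun e : Edge m => ¬ Cross S e).card : ℝ) ≤ (m : ℝ) ^ 3 := by
  let A : Fin 3 → Finset (Fin m) := fun c => univ.filter fun i => (c, i) ∈ S
  have hS : ∑ c, (A c).card = S.card := by
    simp only [A, Finset.card_filter]
    rw [← Fintype.sum_prod_type' (fun c i => if (c, i) ∈ S then 1 else 0)]
    rw [Finset.card_eq_sum_ones, ← Finset.sum_filter]
    congr 1
    ext v
    simp
  have hsub : (univ.filter fun e : Edge m => ¬ Cross S e) ⊆
      Fintype.piFinset A ∪ Fintype.piFinset (fun c => (A c)ᶜ) := by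
    intro e he
    simp only [mem_filter, mem_univ, true_and, Cross, not_and_or, not_exists, not_not] at he
    simp only [mem_union, Fintype.mem_piFinset, A, mem_compl, mem_filter, mem_univ, true_and]
    tauto
  have hcard : (univ.filter fun e : Edge m => ¬ Cross S e).card ≤
      ∏ c, (A c).card + ∏ c, (A c)ᶜ.card := by
    refine (Finset.card_le_card hsub).trans ((Finset.card_union_le _ _).trans ?_)
    rw [Fintype.card_piFinset, Fintype.card_piFinset]
  rw [Fin.prod_univ_three, Fin.prod_univ_three] at hcard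
  rw [Fin.sum_univ_three] at hS
  have hle : ∀ c, (A c).card ≤ m := fun c => by
    refine (Finset.card_le_univ _).trans ?_
    simp
  have hcompl : ∀ c, (((A c)ᶜ.card : ℕ) : ℝ) = m - (A c).card := by
    intro c
    rw [Finset.card_compl, Fintype.card_fin, Nat.cast_sub (hle c)]
  have hcard' : ((univ.filter fun e : Edge m => ¬ Cross S e).card : ℝ) ≤
      (A 0).card * (A 1).card * (A 2).card +
        (m - (A 0).card) * (m - (A 1).card) * (m - (A 2).card) := by
    rw [← hcompl, ← hcompl, ← hcompl]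
    exact_mod_cast hcard
  have h3 := arith_cross m (A 0).card (A 1).card (A 2).card (Nat.cast_nonneg m)
    (by exact_mod_cast (by omega : m ≤ (A 0).card + (A 1).card + (A 2).card))
    (by exact_mod_cast (by omega : (A 0).card + (A 1).card + (A 2).card ≤ 2 * m))
  linarith

theorem mgf {E : Type} [Fintype E] (T : ℕ) (P : E → Prop) [DecidablePred P] (r : ℝ) :
    ∑ ω : Fin T → E, r ^ (univ.filter fun t => P (ω t)).card =
      (∑ e : E, if P e then r else 1) ^ T := by
  rw [Fintype.sum_pow]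
  refine Finset.sum_congr rfl fun ω _ => ?_
  rw [Finset.prod_ite]
  simp

open Classical in
theorem sum_cross_le (S : Finset (Vert m)) (h1 : m ≤ S.card) (h2 : S.card ≤ 2 * m) :
    ∑ e : Edge m, (if Cross S e then (3 / 4 : ℝ) else 1) ≤ 5 / 6 * (m : ℝ) ^ 3 := by
  have h := card_not_cross S h1 h2
  have e1 : ∀ e : Edge m, (if Cross S e then (3 / 4 : ℝ) else 1) =
      3 / 4 + 1 / 4 * (if ¬ Cross S e then 1 else 0) := by
    intro e
    split_ifs <;> norm_num
  simp_rw [e1]
  rw [Finset.sum_add_distrib, ← Finset.mul_sum, Finset.sum_boole]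
  simp only [Finset.sum_const, Finset.card_univ, Fintype.card_pi, Fintype.card_fin,
    Finset.prod_const, nsmul_eq_mul, Nat.cast_pow]
  linarith

open Classical in
theorem sum_vert (v : Vert m) :
    ∑ e : Edge m, (if e v.1 = v.2 then (2 : ℝ) else 1) = (m : ℝ) ^ 3 + (m : ℝ) ^ 2 := by
  have e1 : ∀ e : Edge m, (if e v.1 = v.2 then (2 : ℝ) else 1) =
      1 + (if e v.1 = v.2 then 1 else 0) := by
    intro e
    split_ifs <;> norm_num
  simp_rw [e1]
  rw [Finset.sum_add_distrib, Finset.sum_boole]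
  have h2 : (univ.filter fun e : Edge m => e v.1 = v.2) =
      Fintype.piFinset (fun c => if c = v.1 then {v.2} else univ) := by
    ext e
    simp only [mem_filter, mem_univ, true_and, Fintype.mem_piFinset]
    constructor
    · intro h c
      split_ifs with hc
      · subst hc; simp [h]
      · simp
    · intro h
      have := h v.1
      simpa using this
  rw [h2, Fintype.card_piFinset]
  have h3 : ∏ c : Fin 3, (if c = v.1 then ({v.2} : Finset (Fin m)) else univ).card = m ^ 2 := by
    rcases v with ⟨c, i⟩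
    fin_cases c <;> simp [Fin.prod_univ_three] <;> ring
  rw [h3]
  simp

theorem countP_ofFn {E : Type} (P : E → Bool) : ∀ (T : ℕ) (ω : Fin T → E),
    (List.ofFn ω).countP P = (univ.filter fun t => P (ω t) = true).card := by
  intro T
  induction T with
  | zero => intro ω; simp
  | succ T ih =>
    intro ω
    rw [List.ofFn_succ, List.countP_cons, ih, Fin.card_filter_univ_succ]
    split_ifs <;> simp

theorem cube_le (d : ℕ) : d ^ 3 ≤ 4 * 2 ^ d := by
  rcases Nat.lt_or_ge d 4 with h | h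
  · interval_cases d <;> norm_num
  · induction d, h using Nat.le_induction with
    | base => norm_num
    | succ d hd ih =>
      have h1 : (d + 1) ^ 3 ≤ 2 * d ^ 3 := by
        obtain ⟨k, rfl⟩ := Nat.exists_eq_add_of_le hd
        nlinarith [Nat.zero_le k, Nat.zero_le (k ^ 2), Nat.zero_le (k ^ 3)]
      calc (d + 1) ^ 3 ≤ 2 * d ^ 3 := h1
        _ ≤ 2 * (4 * 2 ^ d) := by omega
        _ = 4 * 2 ^ (d + 1) := by ring

/-- Number of edges through a vertex. -/
def dg {T : ℕ} (ω : Fin T → Edge m) (v : Vert m) : ℕ := (univ.filter fun t => ω t v.1 = v.2).card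

open Classical in
theorem sum_conf_le {T : ℕ} (ω : Fin T → Edge m) :
    ∑ t, (univ.filter fun s => Conf (List.ofFn ω) (ω s) (ω t)).card ≤
      3 * ∑ v : Vert m, dg ω v ^ 3 := by
  have h1 : ∀ t, (univ.filter fun s => Conf (List.ofFn ω) (ω s) (ω t)).card ≤
      ∑ s, ∑ k, (if Touch (ω k) (ω s) then 1 else 0) * (if Touch (ω k) (ω t) then 1 else 0) := by
    intro t
    rw [Finset.card_filter]
    refine Finset.sum_le_sum fun s _ => ?_
    split_ifs with h
    · obtain ⟨g, hg, h2, h3⟩ := h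
      obtain ⟨k, rfl⟩ := List.mem_ofFn.mp hg
      refine le_trans ?_ (Finset.single_le_sum (f := fun k =>
        (if Touch (ω k) (ω s) then 1 else 0) * (if Touch (ω k) (ω t) then 1 else 0))
        (fun _ _ => Nat.zero_le _) (Finset.mem_univ k))
      simp only [if_pos h2, if_pos h3]
      norm_num
    · exact Nat.zero_le _
  have h2 : ∑ t, ∑ s, ∑ k, ((if Touch (ω k) (ω s) then 1 else 0) *
      (if Touch (ω k) (ω t) then 1 else 0) : ℕ) = ∑ k, (∑ t, if Touch (ω k) (ω t) then 1 else 0) ^ 2 := by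
    calc ∑ t, ∑ s, ∑ k, ((if Touch (ω k) (ω s) then 1 else 0) *
      (if Touch (ω k) (ω t) then 1 else 0) : ℕ) = ∑ t, ∑ k, ∑ s, ((if Touch (ω k) (ω s) then 1 else 0) *
      (if Touch (ω k) (ω t) then 1 else 0) : ℕ) := by
          refine Finset.sum_congr rfl fun t _ => Finset.sum_comm
      _ = ∑ k, ∑ t, ∑ s, ((if Touch (ω k) (ω s) then 1 else 0) *
      (if Touch (ω k) (ω t) then 1 else 0) : ℕ) := Finset.sum_comm
      _ = _ := by
          refine Finset.sum_congr rfl fun k _ => ?_
          rw [sq, Finset.sum_mul_sum]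
          rw [Finset.sum_comm]
  have h3 : ∀ k, (∑ t, if Touch (ω k) (ω t) then 1 else 0 : ℕ) ≤ ∑ c, dg ω (c, ω k c) := by
    intro k
    simp only [dg, Finset.card_filter]
    rw [Finset.sum_comm]
    refine Finset.sum_le_sum fun t _ => ?_
    split_ifs with h
    · obtain ⟨c, hc⟩ := h
      refine le_trans ?_ (Finset.single_le_sum (f := fun c =>
        (if ω t c = ω k c then 1 else 0)) (fun _ _ => Nat.zero_le _) (Finset.mem_univ c))
      simp only [if_pos hc.symm]
      exact le_rfl
    · exact Nat.zero_le _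
  have h4 : ∀ k, (∑ t, if Touch (ω k) (ω t) then 1 else 0 : ℕ) ^ 2 ≤
      3 * ∑ c, dg ω (c, ω k c) ^ 2 := by
    intro k
    refine (Nat.pow_le_pow_left (h3 k) 2).trans ?_
    rw [Fin.sum_univ_three, Fin.sum_univ_three]
    generalize dg ω (0, ω k 0) = a
    generalize dg ω (1, ω k 1) = b
    generalize dg ω (2, ω k 2) = c
    zify
    nlinarith [sq_nonneg ((a : ℤ) - b), sq_nonneg ((b : ℤ) - c), sq_nonneg ((c : ℤ) - a)]
  have h5 : ∑ k, ∑ c, dg ω (c, ω k c) ^ 2 = ∑ v : Vert m, dg ω v ^ 3 := by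
    rw [Finset.sum_comm, Fintype.sum_prod_type]
    refine Finset.sum_congr rfl fun c _ => ?_
    have : ∀ i, dg ω (c, i) ^ 3 = ∑ k, if ω k c = i then dg ω (c, i) ^ 2 else 0 := by
      intro i
      rw [← Finset.sum_filter, Finset.sum_const, smul_eq_mul, pow_succ']
      rfl
    simp_rw [this]
    rw [Finset.sum_comm]
    refine Finset.sum_congr rfl fun k _ => ?_
    rw [Finset.sum_ite_eq]
    simp
  calc ∑ t, (univ.filter fun s => Conf (List.ofFn ω) (ω s) (ω t)).card
      ≤ ∑ t, ∑ s, ∑ k, (if Touch (ω k) (ω s) then 1 else 0) * (if Touch (ω k) (ω t) then 1 else 0) :=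
        Finset.sum_le_sum fun t _ => h1 t
    _ = ∑ k, (∑ t, if Touch (ω k) (ω t) then 1 else 0) ^ 2 := h2
    _ ≤ ∑ k, 3 * ∑ c, dg ω (c, ω k c) ^ 2 := Finset.sum_le_sum fun k _ => h4 k
    _ = 3 * ∑ v : Vert m, dg ω v ^ 3 := by rw [← Finset.mul_sum, h5]

open Classical in
/-- The random choice. -/
theorem exists_omega (B : ℕ) (hB : Real.exp 320 ≤ B) (hm : 0 < m) :
    ∃ ω : Fin (320 * m) → Edge m,
      (∀ S : Finset (Vert m), m ≤ S.card → S.card ≤ 2 * m →
        192 * m ≤ (univ.filter fun t => Cross S (ω t)).card) ∧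
      ∑ v : Vert m, 2 ^ dg ω v ≤ 6 * m * B := by
  have hmR : (0 : ℝ) < m := by exact_mod_cast hm
  have hBpos : (0 : ℝ) < B := lt_of_lt_of_le (Real.exp_pos _) hB
  set bal : Finset (Finset (Vert m)) := univ.filter fun S => m ≤ S.card ∧ S.card ≤ 2 * m with hbal
  set N : ℝ := ((m : ℝ) ^ 3) ^ (320 * m) with hN
  have hNpos : 0 < N := by positivity
  have hcardΩ : (Fintype.card (Fin (320 * m) → Edge m) : ℝ) = N := by
    simp [hN]
  let Φ : (Fin (320 * m) → Edge m) → ℝ := fun ω =>
    (∑ S ∈ bal, (3 / 4 : ℝ) ^ (univ.filter fun t => Cross S (ω t)).card * (4 / 3) ^ (192 * m)) +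
      (∑ v : Vert m, (2 : ℝ) ^ dg ω v) / (6 * m * B)
  have h1 : ∑ ω : Fin (320 * m) → Edge m, ∑ S ∈ bal,
      (3 / 4 : ℝ) ^ (univ.filter fun t => Cross S (ω t)).card * (4 / 3) ^ (192 * m) ≤
      2 / 5 * N := by
    rw [Finset.sum_comm]
    have h2 : ∀ S ∈ bal, ∑ ω : Fin (320 * m) → Edge m,
        (3 / 4 : ℝ) ^ (univ.filter fun t => Cross S (ω t)).card * (4 / 3) ^ (192 * m) ≤
        (5 / 6) ^ (320 * m) * N * (4 / 3) ^ (192 * m) := by
      intro S hS
      rw [hbal, mem_filter] at hS
      rw [← Finset.sum_mul, mgf (320 * m) (fun e => Cross S e) (3 / 4)]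
      refine mul_le_mul_of_nonneg_right ?_ (by positivity)
      rw [hN, ← mul_pow]
      refine pow_le_pow_left₀ ?_ (sum_cross_le S hS.2.1 hS.2.2) _
      refine Finset.sum_nonneg fun e _ => ?_
      split_ifs <;> norm_num
    refine (Finset.sum_le_sum h2).trans ?_
    rw [Finset.sum_const, nsmul_eq_mul]
    have h3 : (bal.card : ℝ) ≤ 8 ^ m := by
      have : bal.card ≤ 8 ^ m := by
        refine (Finset.card_le_univ _).trans ?_
        rw [Fintype.card_finset]
        simp only [Fintype.card_prod, Fintype.card_fin]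
        rw [pow_mul]
        norm_num
      exact_mod_cast this
    have h4 : (8 : ℝ) ^ m * ((5 / 6) ^ (320 * m) * N * (4 / 3) ^ (192 * m)) =
        (8 * (5 / 6) ^ 320 * (4 / 3) ^ 192) ^ m * N := by
      rw [mul_pow, mul_pow, ← pow_mul, ← pow_mul]
      ring
    have h5 : (8 * (5 / 6) ^ 320 * (4 / 3) ^ 192 : ℝ) ≤ 2 / 5 := by
      have e1 : (8 * (5 / 6) ^ 320 * (4 / 3) ^ 192 : ℝ) =
          8 * ((5 / 6) ^ 5 * (4 / 3) ^ 3) ^ 64 := by
        rw [mul_pow, ← pow_mul, ← pow_mul, mul_assoc]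
      have e2 : ((5 / 6) ^ 5 * (4 / 3) ^ 3 : ℝ) ≤ 9526 / 10000 := by norm_num
      have e3 : ((5 / 6) ^ 5 * (4 / 3) ^ 3 : ℝ) ^ 64 ≤ (9526 / 10000) ^ 64 :=
        pow_le_pow_left₀ (by positivity) e2 64
      rw [e1]
      refine (mul_le_mul_of_nonneg_left e3 (by norm_num)).trans ?_
      norm_num
    have h6 : (8 * (5 / 6) ^ 320 * (4 / 3) ^ 192 : ℝ) ^ m ≤ 2 / 5 := by
      calc (8 * (5 / 6) ^ 320 * (4 / 3) ^ 192 : ℝ) ^ m ≤ (2 / 5) ^ m :=
            pow_le_pow_left₀ (by positivity) h5 m
        _ ≤ (2 / 5) ^ 1 := pow_le_pow_of_le_one (by norm_num) (by norm_num) hm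
        _ = 2 / 5 := by norm_num
    calc (bal.card : ℝ) * ((5 / 6) ^ (320 * m) * N * (4 / 3) ^ (192 * m))
        ≤ 8 ^ m * ((5 / 6) ^ (320 * m) * N * (4 / 3) ^ (192 * m)) :=
          mul_le_mul_of_nonneg_right h3 (by positivity)
      _ = (8 * (5 / 6) ^ 320 * (4 / 3) ^ 192) ^ m * N := h4
      _ ≤ 2 / 5 * N := mul_le_mul_of_nonneg_right h6 hNpos.le
  have h2 : ∑ ω : Fin (320 * m) → Edge m, (∑ v : Vert m, (2 : ℝ) ^ dg ω v) / (6 * m * B) ≤
      1 / 2 * N := by
    rw [← Finset.sum_div, Finset.sum_comm]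
    have h3 : ∀ v : Vert m, ∑ ω : Fin (320 * m) → Edge m, (2 : ℝ) ^ dg ω v ≤ N * B := by
      intro v
      have h4 := mgf (E := Edge m) (320 * m) (fun e => e v.1 = v.2) 2
      have h5 : ∑ ω : Fin (320 * m) → Edge m, (2 : ℝ) ^ dg ω v =
          ∑ ω : Fin (320 * m) → Edge m, (2 : ℝ) ^ (univ.filter fun t => ω t v.1 = v.2).card := by
        refine Finset.sum_congr rfl fun ω _ => ?_
        unfold dg
        congr 2
      rw [h5, h4]
      have h6 : (∑ e : Edge m, if e v.1 = v.2 then (2 : ℝ) else 1) =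
          (m : ℝ) ^ 3 * (1 + 1 / m) := by
        rw [sum_vert]
        field_simp
      rw [h6, mul_pow]
      refine mul_le_mul_of_nonneg_left ?_ (by positivity)
      refine le_trans ?_ hB
      have h7 : (1 : ℝ) + 1 / m ≤ Real.exp (1 / m) := by
        rw [add_comm]; exact Real.add_one_le_exp _
      calc ((1 : ℝ) + 1 / m) ^ (320 * m) ≤ Real.exp (1 / m) ^ (320 * m) :=
            pow_le_pow_left₀ (by positivity) h7 _
        _ = Real.exp 320 := by
          rw [← Real.exp_nat_mul]
          congr 1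
          push_cast
          field_simp
    have h4 : ∑ v : Vert m, ∑ ω : Fin (320 * m) → Edge m, (2 : ℝ) ^ dg ω v ≤ 3 * m * (N * B) := by
      refine (Finset.sum_le_sum fun v _ => h3 v).trans ?_
      rw [Finset.sum_const, nsmul_eq_mul]
      simp
    rw [div_le_iff₀ (by positivity)]
    refine h4.trans (le_of_eq ?_)
    ring
  have h3 : ∑ ω, Φ ω < ∑ ω : Fin (320 * m) → Edge m, (1 : ℝ) := by
    have h4 : ∑ ω : Fin (320 * m) → Edge m, (1 : ℝ) = N := by
      rw [Finset.sum_const, nsmul_eq_mul, mul_one, Finset.card_univ, hcardΩ]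
    rw [h4]
    simp only [Φ]
    rw [Finset.sum_add_distrib]
    linarith
  obtain ⟨ω, -, hω⟩ := Finset.exists_lt_of_sum_lt h3
  simp only [Φ] at hω
  have hn1 : ∀ S ∈ bal, 0 ≤ (3 / 4 : ℝ) ^ (univ.filter fun t => Cross S (ω t)).card *
      (4 / 3) ^ (192 * m) := fun S _ => by positivity
  have hn2 : 0 ≤ (∑ v : Vert m, (2 : ℝ) ^ dg ω v) / (6 * m * B) := by positivity
  refine ⟨ω, ?_, ?_⟩
  · intro S hS1 hS2
    have hS : S ∈ bal := by rw [hbal, mem_filter]; exact ⟨mem_univ _, hS1, hS2⟩
    have h4 := Finset.single_le_sum hn1 hS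
    have h5 : (3 / 4 : ℝ) ^ (univ.filter fun t => Cross S (ω t)).card *
      (4 / 3) ^ (192 * m) < 1 := by linarith
    by_contra hcon
    push Not at hcon
    obtain ⟨k, hk⟩ := Nat.exists_eq_add_of_le hcon.le
    rw [hk, pow_add, ← mul_assoc, ← mul_pow] at h5
    norm_num at h5
    have h6 : (1 : ℝ) ≤ (4 / 3) ^ k := one_le_pow₀ (by norm_num)
    linarith
  · have h4 : (∑ v : Vert m, (2 : ℝ) ^ dg ω v) / (6 * m * B) < 1 := by
      have := Finset.sum_nonneg hn1
      linarith
    rw [div_lt_one (by positivity)] at h4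
    have h5 : ((∑ v : Vert m, 2 ^ dg ω v : ℕ) : ℝ) ≤ ((6 * m * B : ℕ) : ℝ) := by
      push_cast
      exact h4.le
    exact_mod_cast h5

open Classical in
/-- The hypergraph. -/
theorem exists_hyper : ∃ Δ : ℕ, 0 < Δ ∧ ∀ m : ℕ, 0 < m → ∃ L : List (Edge m),
    L.length ≤ 320 * m ∧ (∀ e ∈ L, (L.countP fun f => decide (Conf L f e)) ≤ Δ) ∧
    ∀ S : Finset (Vert m), m ≤ S.card → S.card ≤ 2 * m →
      (L.countP fun e => decide (¬ Cross S e)) + 48 * m ≤ L.countP fun e => decide (Cross S e) := by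
  obtain ⟨B, hB⟩ := exists_nat_ge (Real.exp 320)
  have hBpos : 0 < B := by
    have : (0 : ℝ) < B := lt_of_lt_of_le (Real.exp_pos _) hB
    exact_mod_cast this
  refine ⟨5 * B, by omega, fun m hm => ?_⟩
  obtain ⟨ω, h1, h2⟩ := exists_omega B hB hm
  let good : Edge m → Bool := fun e =>
    decide (((List.ofFn ω).countP fun f => decide (Conf (List.ofFn ω) f e)) ≤ 5 * B)
  have hconf := sum_conf_le ω
  have hcube : ∑ v : Vert m, dg ω v ^ 3 ≤ 4 * (6 * m * B) := by
    refine (Finset.sum_le_sum fun v _ => cube_le (dg ω v)).trans ?_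
    rw [← Finset.mul_sum]
    omega
  have hbad : (univ.filter fun t => ¬ (good (ω t) = true)).card * (5 * B) ≤ 72 * m * B := by
    have h3 : ∑ t ∈ univ.filter (fun t => ¬ (good (ω t) = true)), 5 * B ≤
        ∑ t, (univ.filter fun s => Conf (List.ofFn ω) (ω s) (ω t)).card := by
      refine (Finset.sum_le_sum fun t ht => ?_).trans
        (Finset.sum_le_sum_of_subset (Finset.filter_subset _ _))
      rw [mem_filter] at ht
      have h4 := ht.2
      simp only [good, decide_eq_true_eq, not_le, countP_ofFn] at h4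
      exact h4.le
    rw [Finset.sum_const, smul_eq_mul] at h3
    refine h3.trans (hconf.trans ?_)
    calc 3 * ∑ v : Vert m, dg ω v ^ 3 ≤ 3 * (4 * (6 * m * B)) := by omega
      _ = 72 * m * B := by ring
  have hbad' : (univ.filter fun t => ¬ (good (ω t) = true)).card ≤ 16 * m := by
    have h3 : (univ.filter fun t => ¬ (good (ω t) = true)).card * (5 * B) ≤ (16 * m) * (5 * B) := by
      refine hbad.trans ?_
      nlinarith [Nat.zero_le (m * B)]
    exact Nat.le_of_mul_le_mul_right h3 (by omega)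
  refine ⟨(List.ofFn ω).filter good, ?_, ?_, ?_⟩
  · refine (List.length_filter_le _ _).trans ?_
    simp
  · intro e he
    have h3 := (List.mem_filter.mp he).2
    simp only [good, decide_eq_true_eq] at h3
    refine le_trans (List.countP_mono_left fun f _ hf => ?_)
      ((List.filter_sublist.countP_le).trans h3)
    rw [decide_eq_true_eq] at hf ⊢
    obtain ⟨g, hg, h4⟩ := hf
    exact ⟨g, (List.mem_filter.mp hg).1, h4⟩
  · intro S hS1 hS2
    have h3 := h1 S hS1 hS2
    rw [List.countP_filter, List.countP_filter, countP_ofFn, countP_ofFn]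
    have e1 : (univ.filter fun t => Cross S (ω t)).card ≤
        (univ.filter fun t => (decide (Cross S (ω t)) && good (ω t)) = true).card +
        (univ.filter fun t => ¬ (good (ω t) = true)).card := by
      refine le_trans (Finset.card_le_card ?_) (Finset.card_union_le _ _)
      intro t ht
      simp only [mem_filter, mem_univ, true_and, mem_union, Bool.and_eq_true,
        decide_eq_true_eq] at ht ⊢
      tauto
    have e2 : (univ.filter fun t => (decide (¬ Cross S (ω t)) && good (ω t)) = true).card ≤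
        (univ.filter fun t => ¬ Cross S (ω t)).card := by
      refine Finset.card_le_card ?_
      intro t ht
      simp only [mem_filter, mem_univ, true_and, Bool.and_eq_true, decide_eq_true_eq] at ht ⊢
      exact ht.1
    have e3 : (univ.filter fun t => Cross S (ω t)).card +
        (univ.filter fun t => ¬ Cross S (ω t)).card = 320 * m := by
      rw [Finset.card_filter_add_card_filter_not]
      simp
    omega

end Pool.Agent.DD
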