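import Pool.Agent.DD.Chains
import Pool.Agent.DD.Dual

/-!
A functional that is small on balanced rectangles is small on d-D circuits with few negation chains.
-/

namespace Pool.Agent.DD

open Finset

set_option linter.unusedSectionVars false

section Rect

variable {V : Type} [Fintype V] [DecidableEq V]

/-- `Λ` is at most `δ` on all balanced rectangles. -/
def RectBound (Λ : ((V → Bool) → ℝ) →ₗ[ℝ] ℝ) (δ : ℝ) : Prop :=
  ∀ (A B : Finset V) (a b : (V → Bool) → ℝ), Disjoint A B →
    3 * A.card ≤ 2 * Fintype.card V → 3 * B.card ≤ 2 * Fintype.card V → Dep a A → Dep b B →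
    (∀ x, |a x| ≤ 1) → (∀ x, |b x| ≤ 1) → |Λ (a * b)| ≤ δ

theorem Dep.mul {a b : (V → Bool) → ℝ} {A B : Finset V} (ha : Dep a A) (hb : Dep b B) :
    Dep (a * b) (A ∪ B) := by
  intro x y hxy
  have h1 := ha x y fun v hv => hxy v (mem_union_left _ hv)
  have h2 := hb x y fun v hv => hxy v (mem_union_right _ hv)
  simp only [Pi.mul_apply, h1, h2]

theorem Dep.mul_same {a b : (V → Bool) → ℝ} {A : Finset V} (ha : Dep a A) (hb : Dep b A) :
    Dep (a * b) A := by
  have := ha.mul hb
  rwa [union_self] at this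

theorem Dep.const (c : ℝ) (A : Finset V) : Dep (fun _ : V → Bool => c) A := fun _ _ _ => rfl

theorem Dep.one (A : Finset V) : Dep (1 : (V → Bool) → ℝ) A := fun _ _ _ => rfl

theorem Dep.zero (A : Finset V) : Dep (0 : (V → Bool) → ℝ) A := fun _ _ _ => rfl

theorem Dep.sub {a b : (V → Bool) → ℝ} {A : Finset V} (ha : Dep a A) (hb : Dep b A) :
    Dep (a - b) A := by
  intro x y hxy
  simp only [Pi.sub_apply, ha x y hxy, hb x y hxy]

theorem Dep.add {a b : (V → Bool) → ℝ} {A : Finset V} (ha : Dep a A) (hb : Dep b A) :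
    Dep (a + b) A := by
  intro x y hxy
  simp only [Pi.add_apply, ha x y hxy, hb x y hxy]

theorem abs_mul_le_one {a b : ℝ} (ha : |a| ≤ 1) (hb : |b| ≤ 1) : |a * b| ≤ 1 := by
  rw [abs_mul]
  exact mul_le_one₀ ha (abs_nonneg _) hb

variable {Λ : ((V → Bool) → ℝ) →ₗ[ℝ] ℝ} {δ : ℝ}

theorem RectBound.nonneg (h : RectBound Λ δ) : 0 ≤ δ :=
  (abs_nonneg _).trans (h ∅ ∅ 0 0 (by simp) (by simp) (by simp) (Dep.zero _) (Dep.zero _)
    (by simp) (by simp))

theorem RectBound.single (h : RectBound Λ δ) {A : Finset V} {a : (V → Bool) → ℝ}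
    (hA : 3 * A.card ≤ 2 * Fintype.card V) (ha : Dep a A) (ha1 : ∀ x, |a x| ≤ 1) :
    |Λ a| ≤ δ := by
  have := h A ∅ a 1 (by simp) hA (by simp) ha (Dep.one _) ha1 (by simp)
  rwa [mul_one] at this

theorem RectBound.three (h : RectBound Λ δ) {A B C : Finset V} {a b c : (V → Bool) → ℝ}
    (hAB : Disjoint A B) (hAC : Disjoint A C) (hBC : Disjoint B C)
    (hA : 3 * A.card ≤ 2 * Fintype.card V) (hB : 3 * B.card ≤ 2 * Fintype.card V)
    (hC : 3 * C.card ≤ 2 * Fintype.card V) (ha : Dep a A) (hb : Dep b B) (hc : Dep c C)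
    (ha1 : ∀ x, |a x| ≤ 1) (hb1 : ∀ x, |b x| ≤ 1) (hc1 : ∀ x, |c x| ≤ 1) :
    |Λ (a * b * c)| ≤ δ := by
  have hsum : A.card + B.card + C.card ≤ Fintype.card V := by
    have h1 : (A ∪ B ∪ C).card = A.card + B.card + C.card := by
      rw [card_union_of_disjoint, card_union_of_disjoint hAB]
      rw [disjoint_union_left]
      exact ⟨hAC, hBC⟩
    rw [← h1]
    exact card_le_univ _
  by_cases h1 : 3 * (A ∪ B).card ≤ 2 * Fintype.card V
  · exact h (A ∪ B) C (a * b) c (by rw [disjoint_union_left]; exact ⟨hAC, hBC⟩) h1 hC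
      (ha.mul hb) hc (fun x => abs_mul_le_one (ha1 x) (hb1 x)) hc1
  · by_cases h2 : 3 * (A ∪ C).card ≤ 2 * Fintype.card V
    · have e : a * b * c = (a * c) * b := by ring
      rw [e]
      exact h (A ∪ C) B (a * c) b (by rw [disjoint_union_left]; exact ⟨hAB, hBC.symm⟩) h2 hB
        (ha.mul hc) hb (fun x => abs_mul_le_one (ha1 x) (hc1 x)) hb1
    · have e : a * b * c = (b * c) * a := by ring
      rw [e]
      rw [card_union_of_disjoint hAB] at h1
      rw [card_union_of_disjoint hAC] at h2
      refine h (B ∪ C) A (b * c) a (by rw [disjoint_union_left]; exact ⟨hAB.symm, hAC.symm⟩) ?_ hA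
        (hb.mul hc) ha (fun x => abs_mul_le_one (hb1 x) (hc1 x)) ha1
      rw [card_union_of_disjoint hBC]
      omega

/-- A Boolean as a real number. -/
noncomputable def bv (b : Bool) : ℝ := if b = true then 1 else 0

@[simp] theorem bv_true : bv true = 1 := by simp [bv]

@[simp] theorem bv_false : bv false = 0 := by simp [bv]

/-- Parity on a set. -/
def parb (T : Finset V) (x : V → Bool) : Bool :=
  decide (Odd (T.filter fun v => x v = true).card)

/-- Membership in an affine subspace. -/
def affb (E : List (Finset V × Bool)) (x : V → Bool) : Bool :=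
  E.all fun t => parb t.1 x == t.2

/-- Indicator of an affine subspace. -/
noncomputable def aff (E : List (Finset V × Bool)) (x : V → Bool) : ℝ := bv (affb E x)

/-- A character. -/
noncomputable def chr (T : Finset V) (x : V → Bool) : ℝ :=
  (-1) ^ (T.filter fun v => x v = true).card

theorem abs_chr (T : Finset V) (x : V → Bool) : |chr T x| = 1 := by
  unfold chr
  rw [abs_pow, abs_neg, abs_one, one_pow]

theorem chr_dep (T : Finset V) : Dep (chr T) T := by
  intro x y hxy
  unfold chr
  congr 2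
  refine filter_congr fun v hv => ?_
  rw [hxy v hv]

theorem chr_split (T S : Finset V) : chr T = chr (T ∩ S) * chr (T \ S) := by
  funext x
  simp only [chr, Pi.mul_apply, ← pow_add]
  congr 1
  rw [← card_union_of_disjoint]
  · congr 1
    ext v
    simp only [mem_filter, mem_union, mem_inter, mem_sdiff]
    tauto
  · rw [Finset.disjoint_left]
    intro v hv hv'
    simp only [mem_filter, mem_inter, mem_sdiff] at hv hv'
    exact hv'.1.2 hv.1.2

theorem aff_cons (T : Finset V) (b : Bool) (E : List (Finset V × Bool)) :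
    aff ((T, b) :: E) = (1 / 2 : ℝ) • aff E +
      ((if b then -1 else 1) / 2 : ℝ) • (chr T * aff E) := by
  funext x
  have e1 : affb ((T, b) :: E) x = (parb T x == b && affb E x) := by simp [affb]
  simp only [aff, e1, Pi.add_apply, Pi.smul_apply, Pi.mul_apply, smul_eq_mul]
  have e2 : chr T x = if parb T x = true then -1 else 1 := by
    unfold chr parb
    by_cases ho : Odd (T.filter fun v => x v = true).card
    · rw [ho.neg_one_pow]
      simp [ho]
    · rw [(Nat.not_odd_iff_even.mp ho).neg_one_pow]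
      simp [ho]
  rw [e2]
  generalize affb E x = q
  generalize parb T x = r
  cases b <;> cases q <;> cases r <;> simp <;> norm_num

theorem RectBound.affine (h : RectBound Λ δ) {S : Finset V}
    (hS : 3 * S.card ≤ 2 * Fintype.card V) (hS' : 3 * Sᶜ.card ≤ 2 * Fintype.card V) :
    ∀ (E : List (Finset V × Bool)) (a b : (V → Bool) → ℝ), Dep a S → Dep b Sᶜ →
      (∀ x, |a x| ≤ 1) → (∀ x, |b x| ≤ 1) → |Λ (a * b * aff E)| ≤ δ := by
  intro E
  induction E with
  | nil =>
    intro a b ha hb ha1 hb1
    have : a * b * aff [] = a * b := by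
      funext x
      simp [aff, affb]
    rw [this]
    exact h S Sᶜ a b (disjoint_compl_right) hS hS' ha hb ha1 hb1
  | cons t E ih =>
    intro a b ha hb ha1 hb1
    rcases t with ⟨T, q⟩
    have h1 := ih a b ha hb ha1 hb1
    have h2 := ih (a * chr (T ∩ S)) (b * chr (T \ S))
      (ha.mul_same ((chr_dep _).mono inter_subset_right))
      (hb.mul_same ((chr_dep _).mono (by
        intro v hv
        rw [mem_compl]
        exact (mem_sdiff.mp hv).2)))
      (fun x => abs_mul_le_one (ha1 x) (abs_chr _ x).le)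
      (fun x => abs_mul_le_one (hb1 x) (abs_chr _ x).le)
    have e : a * b * aff ((T, q) :: E) = (1 / 2 : ℝ) • (a * b * aff E) +
        ((if q then -1 else 1) / 2 : ℝ) • ((a * chr (T ∩ S)) * (b * chr (T \ S)) * aff E) := by
      rw [aff_cons, chr_split T S]
      simp only [mul_add, mul_smul_comm]
      congr 2
      ring
    rw [e, map_add, map_smul, map_smul, smul_eq_mul, smul_eq_mul]
    refine (abs_add_le _ _).trans ?_
    rw [abs_mul, abs_mul]
    have h3 : |((if q then -1 else 1) / 2 : ℝ)| = 1 / 2 := by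
      cases q <;> norm_num
    rw [h3, abs_of_pos (by norm_num : (0 : ℝ) < 1 / 2)]
    linarith

theorem RectBound.affine' (h : RectBound Λ δ) (hV : 2 ≤ Fintype.card V) {A : Finset V}
    (hA : 3 * A.card ≤ 2 * Fintype.card V) (E : List (Finset V × Bool)) (a : (V → Bool) → ℝ)
    (ha : Dep a A) (ha1 : ∀ x, |a x| ≤ 1) : |Λ (a * aff E)| ≤ δ := by
  obtain ⟨S, hAS, -, hSc⟩ := Finset.exists_subsuperset_card_eq (subset_univ A)
    (n := max A.card ((Fintype.card V + 2) / 3)) (le_max_left _ _) (by
      rw [card_univ]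
      omega)
  have h1 := h.affine (S := S) (by rw [hSc]; omega) (by
    rw [card_compl, hSc]
    omega) E a 1 (ha.mono hAS) (Dep.one _) ha1 (by simp)
  rwa [mul_one] at h1

end Rect

end Pool.Agent.DD
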