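import Pool.Agent.DD.Abs

/-!
The shapes of the steps of the decomposition.
-/

namespace Pool.Agent.DD

open Finset

set_option linter.unusedSectionVars false

variable {V Q : Type} [Fintype V] [DecidableEq V] [DecidableEq Q]

namespace Sys

/-- `p` is an input of `q`. -/
structure Child (S : Sys V Q) (p q : Q) : Prop where
  rk : S.rk p < S.rk q
  sub : S.vs p ⊆ S.vs q
  rel : S.Rel p q
  light : p ∉ S.R → 3 * (S.vs p).card ≤ 2 * Fintype.card V
  dep : Dep (S.F p) (S.vs p)
  zo : ∀ x, S.F p x = 0 ∨ S.F p x = 1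

variable {S : Sys V Q} {Λ : ((V → Bool) → ℝ) →ₗ[ℝ] ℝ} {δ : ℝ} {q : Q}

theorem Child.abs {p : Q} (h : S.Child p q) (x : V → Bool) : |S.F p x| ≤ 1 := by
  rcases h.zo x with h | h <;> rw [h] <;> simp

theorem Child.nonneg {p : Q} (h : S.Child p q) (x : V → Bool) : 0 ≤ S.F p x := by
  rcases h.zo x with h | h <;> rw [h]; norm_num

theorem Child.le_one {p : Q} (h : S.Child p q) (x : V → Bool) : S.F p x ≤ 1 := by
  rcases h.zo x with h | h <;> rw [h]; norm_num

theorem Child.val {p : Q} (h : S.Child p q) (x : V → Bool) : S.F p x = 0 ∨ 1 ≤ S.F p x := by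
  rcases h.zo x with h | h
  · exact Or.inl h
  · exact Or.inr h.ge

theorem sum_single (S : Sys V Q) {p : Q} (hp : p ∈ S.R) (g : (V → Bool) → ℝ) (x : V → Bool) :
    ∑ l ∈ S.R, (if l = p then g else 0) x * S.F l x = g x * S.F p x := by
  rw [Finset.sum_eq_single p]
  · simp
  · intro b _ hb
    simp [hb]
  · intro h
    exact absurd hp h

theorem disj_compl {A B : Finset V} (h : A ⊆ B) : Disjoint Bᶜ A := by
  rw [Finset.disjoint_left]
  intro v hv hv'
  exact (mem_compl.mp hv) (h hv')

theorem sub_compl {A B : Finset V} (h : Disjoint A B) : B ⊆ Aᶜ := by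
  intro v hv
  rw [mem_compl]
  exact fun hv' => (Finset.disjoint_left.mp h) hv' hv

/-- No state of `R` reached in one step. -/
theorem step_stop (hd : Dep (S.F q) (S.vs q)) (hz : ∀ x, S.F q x = 0 ∨ S.F q x = 1)
    (h : ∀ D : (V → Bool) → ℝ, Dep D (S.vs q)ᶜ → (∀ x, |D x| ≤ 1) →
    |Λ (D * S.F q)| ≤ 2 * δ ∨ ∃ p, S.Ch p q ∧ |Λ (D * S.F q)| ≤ 2 * δ + |Λ (D * S.F p)|) :
    ∃ E G, S.Step Λ δ q E G := by
  refine ⟨S.F q, 0, fun x => ?_, hd, fun j x => le_rfl, fun j => Dep.zero _, ?_, ?_, h⟩
  · rcases hz x with h | h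
    · exact Or.inl h
    · exact Or.inr h.ge
  · intro j hj
    exact absurd rfl hj
  · intro x
    simp

/-- One input `p ∈ R` is followed, with a factor depending on other variables. -/
theorem step_go {p : Q} {E g : (V → Bool) → ℝ} (hp : p ∈ S.R) (hc : S.Child p q)
    (hE : ∀ x, E x = 0 ∨ 1 ≤ E x) (hEd : Dep E (S.vs q)) (hg : ∀ x, 0 ≤ g x)
    (hgd : Dep g (S.vs p)ᶜ) (heq : ∀ x, S.F q x = E x + g x * S.F p x)
    (hL : ∀ D : (V → Bool) → ℝ, Dep D (S.vs q)ᶜ → (∀ x, |D x| ≤ 1) → |Λ (D * E)| ≤ 2 * δ) :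
    ∃ E G, S.Step Λ δ q E G := by
  refine ⟨E, fun l => if l = p then g else 0, hE, hEd, ?_, ?_, ?_, ?_,
    fun D hD hD1 => Or.inl (hL D hD hD1)⟩
  · intro l x
    split_ifs
    · exact hg x
    · exact le_rfl
  · intro l
    split_ifs with h
    · subst h; exact hgd
    · exact Dep.zero _
  · intro l hl
    by_cases h : l = p
    · subst h; exact ⟨hp, hc.rk, hc.sub, hc.rel⟩
    · simp [h] at hl
  · intro x
    rw [S.sum_single hp g x]
    exact heq x

section

variable (hR : RectBound Λ δ) (hO : 3 * (S.vs q)ᶜ.card ≤ 2 * Fintype.card V)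

include hR hO

/-- Passing to one input. -/
theorem step_pass {p : Q} (hp : p ∈ S.R) (hc : S.Child p q) (heq : S.F q = S.F p) :
    ∃ E G, S.Step Λ δ q E G := by
  have hδ := hR.nonneg
  refine step_go (E := 0) (g := 1) hp hc (fun _ => Or.inl rfl) (Dep.zero _) (fun _ => zero_le_one)
    (Dep.one _) ?_ ?_
  · intro x
    rw [heq]
    simp
  · intro D _ _
    rw [mul_zero, map_zero, abs_zero]
    linarith

/-- A product of functions of disjoint sets of variables. -/
theorem step_prod {p r : Q} (hp : S.Child p q) (hr : S.Child r q)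
    (hd : Disjoint (S.vs p) (S.vs r)) (hdq : Dep (S.F q) (S.vs q))
    (heq : S.F q = S.F p * S.F r) : ∃ E G, S.Step Λ δ q E G := by
  have hδ := hR.nonneg
  by_cases h1 : p ∈ S.R
  · refine step_go (E := 0) (g := S.F r) h1 hp (fun _ => Or.inl rfl) (Dep.zero _) hr.nonneg
      (hr.dep.mono (sub_compl hd)) ?_ ?_
    · intro x
      rw [heq]
      simp only [Pi.mul_apply, Pi.zero_apply]
      ring
    · intro D _ _
      rw [mul_zero, map_zero, abs_zero]
      linarith
  by_cases h2 : r ∈ S.R
  · refine step_go (E := 0) (g := S.F p) h2 hr (fun _ => Or.inl rfl) (Dep.zero _) hp.nonneg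
      (hp.dep.mono (sub_compl hd.symm)) ?_ ?_
    · intro x
      rw [heq]
      simp only [Pi.mul_apply, Pi.zero_apply]
      ring
    · intro D _ _
      rw [mul_zero, map_zero, abs_zero]
      linarith
  refine step_stop hdq ?_ fun D hD hD1 => Or.inl ?_
  · intro x
    rw [heq]
    simp only [Pi.mul_apply]
    rcases hp.zo x with h | h <;> rcases hr.zo x with h' | h' <;> rw [h, h'] <;> simp
  · rw [heq, ← mul_assoc]
    have := hR.three (disj_compl hp.sub) (disj_compl hr.sub) hd hO (hp.light h1) (hr.light h2)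
      hD hp.dep hr.dep hD1 hp.abs hr.abs
    linarith

/-- A disjunction of functions of disjoint sets of variables. -/
theorem step_union (hh : ∀ q ∈ S.R, 2 * Fintype.card V < 3 * (S.vs q).card)
    {p r : Q} (hp : S.Child p q) (hr : S.Child r q)
    (hd : Disjoint (S.vs p) (S.vs r)) (hdq : Dep (S.F q) (S.vs q))
    (heq : S.F q = 1 - (1 - S.F p) * (1 - S.F r)) : ∃ E G, S.Step Λ δ q E G := by
  have hδ := hR.nonneg
  by_cases h1 : p ∈ S.R
  · have h2 : r ∉ S.R := by
      intro h2
      have := hh p h1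
      have := hh r h2
      have h1 := card_union_of_disjoint hd
      have h2 := card_le_univ (S.vs p ∪ S.vs r)
      omega
    refine step_go (E := S.F r) (g := 1 - S.F r) h1 hp hr.val (hr.dep.mono hr.sub) ?_
      (((Dep.one _).sub hr.dep).mono (sub_compl hd)) ?_ ?_
    · intro x
      have := hr.le_one x
      simp only [Pi.sub_apply, Pi.one_apply]
      linarith
    · intro x
      rw [heq]
      simp only [Pi.mul_apply, Pi.sub_apply, Pi.one_apply]
      ring
    · intro D hD hD1
      have := hR _ _ _ _ (disj_compl hr.sub) hO (hr.light h2) hD hr.dep hD1 hr.abs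
      linarith
  by_cases h2 : r ∈ S.R
  · refine step_go (E := S.F p) (g := 1 - S.F p) h2 hr hp.val (hp.dep.mono hp.sub) ?_
      (((Dep.one _).sub hp.dep).mono (sub_compl hd.symm)) ?_ ?_
    · intro x
      have := hp.le_one x
      simp only [Pi.sub_apply, Pi.one_apply]
      linarith
    · intro x
      rw [heq]
      simp only [Pi.mul_apply, Pi.sub_apply, Pi.one_apply]
      ring
    · intro D hD hD1
      have := hR _ _ _ _ (disj_compl hp.sub) hO (hp.light h1) hD hp.dep hD1 hp.abs
      linarith
  refine step_stop hdq ?_ fun D hD hD1 => Or.inl ?_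
  · intro x
    rw [heq]
    simp only [Pi.mul_apply, Pi.sub_apply, Pi.one_apply]
    rcases hp.zo x with h | h <;> rcases hr.zo x with h' | h' <;> rw [h, h'] <;> simp
  · have e : D * S.F q = D - D * (1 - S.F p) * (1 - S.F r) := by
      rw [heq]; ring
    rw [e, map_sub]
    have h0 := hR.single hO hD hD1
    have h3 : ∀ l, S.Child l q → ∀ x, |(1 - S.F l) x| ≤ 1 := by
      intro l hl x
      simp only [Pi.sub_apply, Pi.one_apply]
      rcases hl.zo x with h | h <;> rw [h] <;> norm_num
    have := hR.three (disj_compl hp.sub) (disj_compl hr.sub) hd hO (hp.light h1) (hr.light h2)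
      hD ((Dep.one _).sub hp.dep) ((Dep.one _).sub hr.dep) hD1 (h3 p hp) (h3 r hr)
    have h2 := abs_sub (Λ D) (Λ (D * (1 - S.F p) * (1 - S.F r)))
    linarith

/-- A sum with coefficients of other variables. -/
theorem step_sum {p r : Q} (hp : S.Child p q) (hr : S.Child r q) {T : Finset V}
    {a b : (V → Bool) → ℝ} (hTq : T ⊆ S.vs q) (hT : 3 * T.card ≤ 2 * Fintype.card V)
    (hTp : Disjoint T (S.vs p)) (hTr : Disjoint T (S.vs r)) (ha : Dep a T) (hb : Dep b T)
    (ha1 : ∀ x, a x = 0 ∨ a x = 1) (hb1 : ∀ x, b x = 0 ∨ b x = 1)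
    (heq : S.F q = a * S.F p + b * S.F r) : ∃ E G, S.Step Λ δ q E G := by
  classical
  have hδ := hR.nonneg
  have abs01 : ∀ t : ℝ, t = 0 ∨ t = 1 → |t| ≤ 1 := by
    intro t ht
    rcases ht with h | h <;> rw [h] <;> simp
  refine ⟨(if p ∈ S.R then 0 else a * S.F p) + (if r ∈ S.R then 0 else b * S.F r),
    fun l => (if l = p then (if p ∈ S.R then a else 0) else 0) +
      (if l = r then (if r ∈ S.R then b else 0) else 0), ?_, ?_, ?_, ?_, ?_, ?_, ?_⟩
  · intro x
    have h1 := hp.zo x
    have h2 := hr.zo x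
    have h3 := ha1 x
    have h4 := hb1 x
    simp only [Pi.add_apply]
    split_ifs
    · simp
    · simp only [Pi.zero_apply, zero_add, Pi.mul_apply]
      rcases h2 with h | h <;> rcases h4 with h' | h' <;> rw [h, h'] <;> simp
    · simp only [Pi.zero_apply, add_zero, Pi.mul_apply]
      rcases h1 with h | h <;> rcases h3 with h' | h' <;> rw [h, h'] <;> simp
    · simp only [Pi.mul_apply]
      rcases h1 with h1 | h1 <;> rcases h2 with h2 | h2 <;> rcases h3 with h3 | h3 <;>
        rcases h4 with h4 | h4 <;> rw [h1, h2, h3, h4] <;> norm_num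
  · refine Dep.add ?_ ?_
    · split_ifs
      · exact Dep.zero _
      · exact (ha.mono hTq).mul_same (hp.dep.mono hp.sub)
    · split_ifs
      · exact Dep.zero _
      · exact (hb.mono hTq).mul_same (hr.dep.mono hr.sub)
  · intro l x
    simp only [Pi.add_apply]
    have h3 := ha1 x
    have h4 := hb1 x
    refine add_nonneg ?_ ?_ <;> split_ifs <;>
      first | exact le_rfl | (rcases h3 with h | h <;> rw [h]; norm_num) |
        (rcases h4 with h | h <;> rw [h]; norm_num)
  · intro l
    refine Dep.add ?_ ?_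
    · split_ifs with h1 h2
      · subst h1
        exact ha.mono (sub_compl hTp.symm)
      · exact Dep.zero _
      · exact Dep.zero _
    · split_ifs with h1 h2
      · subst h1
        exact hb.mono (sub_compl hTr.symm)
      · exact Dep.zero _
      · exact Dep.zero _
  · intro l hl
    by_cases h1 : l = p ∧ p ∈ S.R
    · obtain ⟨rfl, h1⟩ := h1
      exact ⟨h1, hp.rk, hp.sub, hp.rel⟩
    · by_cases h2 : l = r ∧ r ∈ S.R
      · obtain ⟨rfl, h2⟩ := h2
        exact ⟨h2, hr.rk, hr.sub, hr.rel⟩
      · exfalso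
        apply hl
        have e1 : (if l = p then (if p ∈ S.R then a else 0) else 0) = 0 := by
          split_ifs with u v
          · exact absurd ⟨u, v⟩ h1
          · rfl
          · rfl
        have e2 : (if l = r then (if r ∈ S.R then b else 0) else 0) = 0 := by
          split_ifs with u v
          · exact absurd ⟨u, v⟩ h2
          · rfl
          · rfl
        simp only [e1, e2, add_zero]
  · intro x
    simp only [Pi.add_apply, add_mul, Finset.sum_add_distrib]
    have key : ∀ (t : Q) (g : (V → Bool) → ℝ),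
        (if t ∈ S.R then 0 else g * S.F t) x +
          ∑ l ∈ S.R, (if l = t then (if t ∈ S.R then g else 0) else 0) x * S.F l x =
        g x * S.F t x := by
      intro t g
      by_cases h : t ∈ S.R
      · rw [if_pos h, if_pos h, S.sum_single h]
        simp
      · rw [if_neg h, if_neg h, Finset.sum_eq_zero]
        · simp
        · intro l _
          simp
    have h1 := key p a
    have h2 := key r b
    rw [heq]
    simp only [Pi.add_apply, Pi.mul_apply]
    linarith
  · intro D hD hD1
    left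
    rw [mul_add, map_add]
    have b1 : |Λ (D * (if p ∈ S.R then 0 else a * S.F p))| ≤ δ := by
      split_ifs with h
      · rw [mul_zero, map_zero, abs_zero]; exact hδ
      · rw [← mul_assoc]
        exact hR.three (disj_compl hTq) (disj_compl hp.sub) hTp hO hT (hp.light h) hD ha hp.dep hD1
          (fun x => abs01 _ (ha1 x)) hp.abs
    have b2 : |Λ (D * (if r ∈ S.R then 0 else b * S.F r))| ≤ δ := by
      split_ifs with h
      · rw [mul_zero, map_zero, abs_zero]; exact hδ
      · rw [← mul_assoc]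
        exact hR.three (disj_compl hTq) (disj_compl hr.sub) hTr hO hT (hr.light h) hD hb hr.dep hD1
          (fun x => abs01 _ (hb1 x)) hr.abs
    have := abs_add_le (Λ (D * (if p ∈ S.R then 0 else a * S.F p)))
      (Λ (D * (if r ∈ S.R then 0 else b * S.F r)))
    linarith

end

end Sys

end Pool.Agent.DD
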