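import Pool.Agent.DD.Shapes

/-!
The values of the gates of a circuit, and one step of the decomposition of a d-D circuit.
-/

namespace Pool.Agent.DD

open Finset

set_option linter.unusedSectionVars false

variable {V : Type} [Fintype V] [DecidableEq V]

namespace Circuit

/-- Value of a gate as a real number. -/
noncomputable def rv (C : Circuit V) (i : ℕ) (x : V → Bool) : ℝ := bv (C.val x i)

/-- Gates with more than two thirds of the variables. -/
def Heavy (C : Circuit V) (i : ℕ) : Prop := 2 * Fintype.card V < 3 * (C.vars i).card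

instance (C : Circuit V) (i : ℕ) : Decidable (C.Heavy i) := by unfold Heavy; infer_instance

theorem rv_nonneg (C : Circuit V) (i : ℕ) (x : V → Bool) : 0 ≤ C.rv i x := by
  unfold rv bv
  split_ifs <;> norm_num

theorem rv_le_one (C : Circuit V) (i : ℕ) (x : V → Bool) : C.rv i x ≤ 1 := by
  unfold rv bv
  split_ifs <;> norm_num

theorem abs_rv_le (C : Circuit V) (i : ℕ) (x : V → Bool) : |C.rv i x| ≤ 1 := by
  rw [abs_of_nonneg (C.rv_nonneg i x)]
  exact C.rv_le_one i x

theorem rv_cases (C : Circuit V) (i : ℕ) (x : V → Bool) : C.rv i x = 0 ∨ C.rv i x = 1 := by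
  unfold rv bv
  split_ifs <;> simp

section Values

variable {C : Circuit V} {i : ℕ}

theorem rv_leaf {S : Finset V} {f : (V → Bool) → Bool} (h : C.gate i = .leaf S f) :
    C.rv i = fun x => bv (f x) := by
  funext x
  unfold rv
  rw [val, h]

theorem rv_affine {E : List (Finset V × Bool)} (h : C.gate i = .affine E) : C.rv i = aff E := by
  funext x
  unfold rv
  rw [val, h]
  rfl

theorem rv_neg {j : Fin i} (h : C.gate i = .neg j) : C.rv i = 1 - C.rv j := by
  funext x
  unfold rv
  rw [val, h]
  simp only [Pi.sub_apply, Pi.one_apply]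
  cases C.val x j <;> simp

theorem val_and {j k : Fin i} (h : C.gate i = .and j k) (x : V → Bool) :
    C.val x i = (C.val x j && C.val x k) := by
  rw [val, h]

theorem rv_and {j k : Fin i} (h : C.gate i = .and j k) : C.rv i = C.rv j * C.rv k := by
  funext x
  simp only [rv, val_and h, Pi.mul_apply]
  cases C.val x j <;> cases C.val x k <;> simp

theorem val_or {j k : Fin i} (h : C.gate i = .or j k) (x : V → Bool) :
    C.val x i = (C.val x j || C.val x k) := by
  rw [val, h]

theorem rv_or {j k : Fin i} (h : C.gate i = .or j k) :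
    C.rv i = 1 - (1 - C.rv j) * (1 - C.rv k) := by
  funext x
  simp only [rv, val_or h, Pi.mul_apply, Pi.sub_apply, Pi.one_apply]
  cases C.val x j <;> cases C.val x k <;> simp

theorem rv_or_det {j k : Fin i} (h : C.gate i = .or j k)
    (hd : ∀ x, ¬ (C.val x j = true ∧ C.val x k = true)) : C.rv i = C.rv j + C.rv k := by
  funext x
  have := hd x
  simp only [rv, val_or h, Pi.add_apply]
  rcases hj : C.val x j with _ | _ <;> rcases hk : C.val x k with _ | _ <;> simp_all

theorem rv_ite {S : Finset V} {f : (V → Bool) → Bool} {j k : Fin i}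
    (h : C.gate i = .ite S f j k) :
    C.rv i = (fun x => bv (f x)) * C.rv j + (fun x => 1 - bv (f x)) * C.rv k := by
  funext x
  have e : C.val x i = if f x = true then C.val x j else C.val x k := by rw [val, h]
  simp only [rv, Pi.mul_apply, Pi.add_apply, e]
  cases hf : f x <;> simp

theorem vars_leaf {S : Finset V} {f : (V → Bool) → Bool} (h : C.gate i = .leaf S f) :
    C.vars i = S := by
  rw [vars, h]

theorem vars_affine {E : List (Finset V × Bool)} (h : C.gate i = .affine E) :
    C.vars i = E.foldr (fun t S => t.1 ∪ S) ∅ := by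
  rw [vars, h]

theorem vars_neg {j : Fin i} (h : C.gate i = .neg j) : C.vars i = C.vars j := by
  rw [vars, h]

theorem vars_and {j k : Fin i} (h : C.gate i = .and j k) : C.vars i = C.vars j ∪ C.vars k := by
  rw [vars, h]

theorem vars_or {j k : Fin i} (h : C.gate i = .or j k) : C.vars i = C.vars j ∪ C.vars k := by
  rw [vars, h]

theorem vars_ite {S : Finset V} {f : (V → Bool) → Bool} {j k : Fin i}
    (h : C.gate i = .ite S f j k) : C.vars i = S ∪ (C.vars j ∪ C.vars k) := by
  rw [vars, h]

end Values

theorem aff_dep (E : List (Finset V × Bool)) :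
    Dep (aff E) (E.foldr (fun t S => t.1 ∪ S) ∅) := by
  have : Dep (affb E) (E.foldr (fun t S => t.1 ∪ S) ∅) := by
    induction E with
    | nil => intro x y _; rfl
    | cons t E ih =>
      intro x y hxy
      have h1 := ih x y fun v hv => hxy v (by
        rw [List.foldr_cons]
        exact mem_union_right _ hv)
      have h2 : parb t.1 x = parb t.1 y := by
        unfold parb
        congr 3
        refine filter_congr fun v hv => ?_
        rw [hxy v (by rw [List.foldr_cons]; exact mem_union_left _ hv)]
      have e1 : ∀ z : V → Bool, affb (t :: E) z = (parb t.1 z == t.2 && affb E z) := by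
        intro z; simp [affb]
      rw [e1, e1, h1, h2]
  intro x y hxy
  simp only [aff, this x y hxy]

theorem bv_dep {f : (V → Bool) → Bool} {S : Finset V}
    (h : ∀ x y, (∀ v ∈ S, x v = y v) → f x = f y) : Dep (fun x => bv (f x)) S := by
  intro x y hxy
  simp only [h x y hxy]

theorem rv_dep {C : Circuit V} (hC : C.IsDD) : ∀ i ≤ C.top, Dep (C.rv i) (C.vars i) := by
  intro i
  induction i using Nat.strong_induction_on with
  | _ i ih =>
    intro hi
    rcases hg : C.gate i with ⟨S, f⟩ | E | j | ⟨j, k⟩ | ⟨j, k⟩ | ⟨S, f, j, k⟩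
    · rw [rv_leaf hg, vars_leaf hg]
      exact bv_dep (hC.leaf i hi S f hg).1
    · rw [rv_affine hg, vars_affine hg]
      exact aff_dep E
    · rw [rv_neg hg, vars_neg hg]
      exact (Dep.one _).sub (ih j j.isLt (by have := j.isLt; omega))
    · rw [rv_and hg, vars_and hg]
      exact (ih j j.isLt (by have := j.isLt; omega)).mul (ih k k.isLt (by have := k.isLt; omega))
    · rw [rv_or hg, vars_or hg]
      refine (Dep.one _).sub (Dep.mul ((Dep.one _).sub (ih j j.isLt (by have := j.isLt; omega)))
        ((Dep.one _).sub (ih k k.isLt (by have := k.isLt; omega))))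
    · rw [rv_ite hg, vars_ite hg]
      have h1 := bv_dep (hC.ite i hi S f j k hg).1
      have h2 : Dep (fun x => 1 - bv (f x)) S := by
        intro x y hxy
        simp only [(hC.ite i hi S f j k hg).1 x y hxy]
      refine Dep.add ?_ ?_
      · refine (h1.mul (ih j j.isLt (by have := j.isLt; omega))).mono ?_
        exact union_subset_union_right subset_union_left
      · refine (h2.mul (ih k k.isLt (by have := k.isLt; omega))).mono ?_
        exact union_subset_union_right subset_union_right

/-- The indicator function of the event that gate `q.1` has the value `q.2`. -/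
noncomputable def sv (C : Circuit V) (q : ℕ × Bool) : (V → Bool) → ℝ :=
  if q.2 = true then C.rv q.1 else 1 - C.rv q.1

theorem sv_true (C : Circuit V) (i : ℕ) : C.sv (i, true) = C.rv i := by simp [sv]

theorem sv_false (C : Circuit V) (i : ℕ) : C.sv (i, false) = 1 - C.rv i := by simp [sv]

theorem sv_cases (C : Circuit V) (q : ℕ × Bool) (x : V → Bool) :
    C.sv q x = 0 ∨ C.sv q x = 1 := by
  obtain ⟨i, b⟩ := q
  have h := C.rv_cases i x
  cases b
  · rw [sv_false, Pi.sub_apply, Pi.one_apply]
    rcases h with h | h <;> rw [h] <;> simp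
  · rw [sv_true]
    exact h

theorem sv_dep {C : Circuit V} (hC : C.IsDD) (q : ℕ × Bool) (hq : q.1 ≤ C.top) :
    Dep (C.sv q) (C.vars q.1) := by
  obtain ⟨i, b⟩ := q
  cases b
  · rw [sv_false]
    exact (Dep.one _).sub (rv_dep hC i hq)
  · rw [sv_true]
    exact rv_dep hC i hq

/-- The system of the states of a circuit; `P` are the values considered. -/
noncomputable def sys (C : Circuit V) (P : Bool → Bool) (Rel Ch : ℕ × Bool → ℕ × Bool → Prop) :
    Sys V (ℕ × Bool) where
  R := (range (C.top + 1) ×ˢ univ).filter fun q => C.Heavy q.1 ∧ P q.2 = true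
  rk q := 2 * q.1 + (if q.2 = true then 0 else 1)
  vs q := C.vars q.1
  F := C.sv
  Rel := Rel
  Ch := Ch

theorem mem_sys {C : Circuit V} {P : Bool → Bool} {Rel Ch : ℕ × Bool → ℕ × Bool → Prop}
    {q : ℕ × Bool} : q ∈ (C.sys P Rel Ch).R ↔ q.1 ≤ C.top ∧ C.Heavy q.1 ∧ P q.2 = true := by
  simp only [sys, mem_filter, mem_product, mem_range, mem_univ, and_true, Nat.lt_succ_iff]

theorem heavy_compl {C : Circuit V} {i : ℕ} (h : C.Heavy i) :
    3 * (C.vars i)ᶜ.card ≤ 2 * Fintype.card V := by
  unfold Heavy at h
  rw [card_compl]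
  omega

section Core

variable {C : Circuit V} {P : Bool → Bool} {Rel Ch : ℕ × Bool → ℕ × Bool → Prop}
  {Λ : ((V → Bool) → ℝ) →ₗ[ℝ] ℝ} {δ : ℝ} {i : ℕ} {b : Bool}

theorem child (hC : C.IsDD) (hi : i ≤ C.top) {j : ℕ} {b' : Bool} (hj : j < i)
    (hv : C.vars j ⊆ C.vars i) (hrel : Rel (j, b') (i, b)) (hP : P b' = true) :
    (C.sys P Rel Ch).Child (j, b') (i, b) := by
  refine ⟨?_, hv, hrel, ?_, sv_dep hC (j, b') (by exact hj.le.trans hi), C.sv_cases (j, b')⟩
  · simp only [sys]
    cases b <;> cases b' <;> simp <;> omega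
  · intro h
    rw [mem_sys] at h
    have : ¬ C.Heavy j := fun h' => h ⟨by exact hj.le.trans hi, h', hP⟩
    exact not_lt.mp this

theorem heavy_sys : ∀ q ∈ (C.sys P Rel Ch).R,
    2 * Fintype.card V < 3 * ((C.sys P Rel Ch).vs q).card := by
  intro q hq
  exact (mem_sys.mp hq).2.1

/-- One step at a gate that is neither a NOT gate, nor a non-decomposable OR gate that is to be
`false`. -/
theorem core (hC : C.IsDD) (hV : 2 ≤ Fintype.card V) (hR : RectBound Λ δ)
    (hq : (i, b) ∈ (C.sys P Rel Ch).R)
    (hrel : ∀ j k : Fin i, (C.gate i = .and j k ∨ C.gate i = .or j k ∨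
      ∃ S f, C.gate i = .ite S f j k) → Rel (j, b) (i, b) ∧ Rel (k, b) (i, b))
    (hneg : ∀ j, C.gate i ≠ .neg j)
    (hor : b = false → ∀ j k, C.gate i = .or j k → Disjoint (C.vars j) (C.vars k)) :
    ∃ E G, (C.sys P Rel Ch).Step Λ δ (i, b) E G := by
  obtain ⟨hi, hh, hP⟩ := mem_sys.mp hq
  replace hi : i ≤ C.top := hi
  replace hh : C.Heavy i := hh
  replace hP : P b = true := hP
  have hδ := hR.nonneg
  have hO := heavy_compl hh
  have hdq : Dep ((C.sys P Rel Ch).F (i, b)) ((C.sys P Rel Ch).vs (i, b)) := sv_dep hC (i, b) hi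
  have hF : (C.sys P Rel Ch).F = C.sv := rfl
  rcases hg : C.gate i with ⟨S, f⟩ | E | j | ⟨j, k⟩ | ⟨j, k⟩ | ⟨S, f, j, k⟩
  · exfalso
    unfold Heavy at hh
    rw [vars_leaf hg] at hh
    have := (hC.leaf i hi S f hg).2
    omega
  · refine Sys.step_stop hdq (C.sv_cases (i, b)) fun D hD hD1 => Or.inl ?_
    have h1 := hR.affine' hV hO E D hD hD1
    rw [hF]
    cases b
    · rw [sv_false, rv_affine hg, mul_sub, mul_one, map_sub]
      have h2 := hR.single hO hD hD1
      have := abs_sub (Λ D) (Λ (D * aff E))
      linarith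
    · rw [sv_true, rv_affine hg]
      linarith
  · exact absurd hg (hneg j)
  · obtain ⟨r1, r2⟩ := hrel j k (Or.inl hg)
    have hvj : C.vars j ⊆ C.vars i := by rw [vars_and hg]; exact subset_union_left
    have hvk : C.vars k ⊆ C.vars i := by rw [vars_and hg]; exact subset_union_right
    have c1 : (C.sys P Rel Ch).Child (j, b) (i, b) := child hC hi j.isLt hvj r1 hP
    have c2 : (C.sys P Rel Ch).Child (k, b) (i, b) := child hC hi k.isLt hvk r2 hP
    have hd := hC.and i hi j k hg
    cases b
    · refine Sys.step_union hR hO heavy_sys c1 c2 hd hdq ?_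
      rw [hF, sv_false, sv_false, sv_false, rv_and hg]
      ring
    · refine Sys.step_prod hR hO c1 c2 hd hdq ?_
      rw [hF, sv_true, sv_true, sv_true, rv_and hg]
  · obtain ⟨r1, r2⟩ := hrel j k (Or.inr (Or.inl hg))
    have hvj : C.vars j ⊆ C.vars i := by rw [vars_or hg]; exact subset_union_left
    have hvk : C.vars k ⊆ C.vars i := by rw [vars_or hg]; exact subset_union_right
    have c1 : (C.sys P Rel Ch).Child (j, b) (i, b) := child hC hi j.isLt hvj r1 hP
    have c2 : (C.sys P Rel Ch).Child (k, b) (i, b) := child hC hi k.isLt hvk r2 hP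
    by_cases hd : Disjoint (C.vars j) (C.vars k)
    · cases b
      · refine Sys.step_prod hR hO c1 c2 hd hdq ?_
        rw [hF, sv_false, sv_false, sv_false, rv_or hg]
        ring
      · refine Sys.step_union hR hO heavy_sys c1 c2 hd hdq ?_
        rw [hF, sv_true, sv_true, sv_true, rv_or hg]
    · cases b
      · exact absurd (hor rfl j k hg) hd
      · have hdet := (hC.or i hi j k hg).resolve_left hd
        refine Sys.step_sum hR hO c1 c2 (T := ∅) (a := 1) (b := 1) (by simp) (by simp) (by simp)
          (by simp) (Dep.one _) (Dep.one _) (fun x => Or.inr rfl) (fun x => Or.inr rfl) ?_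
        rw [hF, sv_true, sv_true, sv_true, rv_or_det hg hdet]
        ring
  · obtain ⟨r1, r2⟩ := hrel j k (Or.inr (Or.inr ⟨S, f, hg⟩))
    have hvj : C.vars j ⊆ C.vars i := by
      rw [vars_ite hg]; exact subset_union_left.trans subset_union_right
    have hvk : C.vars k ⊆ C.vars i := by
      rw [vars_ite hg]; exact subset_union_right.trans subset_union_right
    have c1 : (C.sys P Rel Ch).Child (j, b) (i, b) := child hC hi j.isLt hvj r1 hP
    have c2 : (C.sys P Rel Ch).Child (k, b) (i, b) := child hC hi k.isLt hvk r2 hP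
    obtain ⟨hf, hS, hd1, hd2⟩ := hC.ite i hi S f j k hg
    refine Sys.step_sum hR hO c1 c2 (T := S) (a := fun x => bv (f x))
      (b := fun x => 1 - bv (f x)) ?_ hS hd1 hd2 (bv_dep hf) ?_ ?_ ?_ ?_
    · show S ⊆ C.vars i
      rw [vars_ite hg]
      exact subset_union_left
    · intro x y hxy
      simp only [hf x y hxy]
    · intro x
      cases h : f x <;> simp
    · intro x
      cases h : f x <;> simp
    · rw [hF]
      cases b
      · rw [sv_false, sv_false, sv_false, rv_ite hg]
        funext x
        simp only [Pi.sub_apply, Pi.one_apply, Pi.add_apply, Pi.mul_apply]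
        ring
      · rw [sv_true, sv_true, sv_true, rv_ite hg]

end Core

end Circuit

end Pool.Agent.DD
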